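import Pool.Agent.W_f569db_g.Defs

set_option autoImplicit false

/-!
# Theories of rational classes: the axioms
-/

noncomputable section

namespace Pool.Agent.WeilH_h6.Weil

open AlgebraicGeometry CategoryTheory MonoidalCategory
open VarClass

universe u v w

variable {k : Type u} [Field k] {𝒱 : VarClass k} {K : Type v} [Field K] {W : Weil.{u, v, w} 𝒱 K}
  (T : W.RatTheory)

/-- The endomorphism `φ` of `H(X)` is given by a class of the theory on `X × X`. -/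
def RatTheory.IsEnd (T : W.RatTheory) (X : 𝒱.Obj) (φ : W.Hom X X) : Prop :=
  ∃ α ∈ T.C (X.prod X), ∀ v v' : W.H X, W.deg (W.ap φ v * v') = W.deg (α * W.cross v v')

theorem RatTheory.smul_mem (Y : 𝒱.Obj) (q : ℚ) (a : W.H Y) (h : a ∈ T.C Y) : (q : K) • a ∈ T.C Y :=
  T.C_rat Y q a h

theorem RatTheory.even (Y : 𝒱.Obj) (a : W.H Y) (h : a ∈ T.C Y) : a ∈ ⨆ i : ℕ, W.grad Y (2 * i) :=
  T.C_even Y a h

theorem RatTheory.cl_mem (Y : 𝒱.Obj) (i : ℕ) (z : Cyc Y i) : W.cl z ∈ T.C Y := T.C_cycles Y i z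

theorem RatTheory.mul_mem (Y : 𝒱.Obj) (a b : W.H Y) (ha : a ∈ T.C Y) (hb : b ∈ T.C Y) :
    a * b ∈ T.C Y := T.C_mul Y a b ha hb

theorem RatTheory.pull_mem {Y Z : 𝒱.Obj} (f : Y ⟶ Z) (a : W.H Z) (ha : a ∈ T.C Z) :
    W.pb f a ∈ T.C Y := T.C_pull Y Z f a ha

theorem RatTheory.push_mem {Y Z : 𝒱.Obj} (f : Y ⟶ Z) (a : W.H Y) (ha : a ∈ T.C Y) :
    ∃ b ∈ T.C Z, ∀ y : W.H Z, W.deg (b * y) = W.deg (a * W.pb f y) := T.C_push Y Z f a ha

end Pool.Agent.WeilH_h6.Weil
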