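import Pool.Agent.W_f569db_g.SpecDefs
import Pool.Agent.W_f569db_g.Api
import Pool.Agent.WeilH_h6.Rat
import Pool.Agent.WeilH_h6.RatNT
import Pool.Agent.WeilH_h6.Par

set_option autoImplicit false

/-!
# The theory of rational classes attached to a specialisation
-/

noncomputable section

namespace GTh

open AlgebraicGeometry CategoryTheory MonoidalCategory
open Pool.Agent.WeilH_h6 Pool.Agent.WeilH_h6.VarClass Pool.Agent.WeilH_h6.Weil

universe u v w u' w'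

variable {k : Type u} [Field k] {𝒱 : VarClass k} {K : Type v} [Field K] {W : Weil.{u, v, w} 𝒱 K}
  {k₀ : Type u'} [Field k₀] {𝒱₀ : VarClass k₀} {W₀ : Weil.{u', v, w'} 𝒱₀ K}

theorem Spec_par (S : Specialisation W W₀) {Y : 𝒱.Obj} (x : W.H Y) :
    S.sp Y (W.par Y x) = W₀.par (S.obj Y) (S.sp Y x) := by
  refine W.hom_induction (P := fun x => S.sp Y (W.par Y x) = W₀.par (S.obj Y) (S.sp Y x))
    (by simp) ?_ ?_ x
  · intro x y hx hy; simp only [map_add, hx, hy]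
  · intro i y hy
    have h : W₀.par (S.obj Y) (S.sp Y y) = ((-1 : K) ^ i) • S.sp Y y := W₀.par_apply (S.graded Y i y hy)
    rw [W.par_apply hy, h, map_smul]

theorem Spec_even [CharZero K] {Y : 𝒱.Obj} {x : W.H Y} (hx : W.par Y x = x) :
    x ∈ ⨆ i : ℕ, W.grad Y (2 * i) := by
  have h : ∀ x : W.H Y, x + W.par Y x ∈ ⨆ i : ℕ, W.grad Y (2 * i) := by
    intro x
    refine W.hom_induction (P := fun x => x + W.par Y x ∈ ⨆ i : ℕ, W.grad Y (2 * i)) ?_ ?_ ?_ x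
    · rw [map_zero, add_zero]
      exact Submodule.zero_mem _
    · intro x y hx hy
      rw [map_add, add_add_add_comm]
      exact Submodule.add_mem _ hx hy
    · intro i y hy
      rw [W.par_apply hy]
      rcases Nat.even_or_odd i with hi | hi
      · obtain ⟨j, rfl⟩ := hi
        refine Submodule.mem_iSup_of_mem (p := fun i : ℕ => W.grad Y (2 * i)) j ?_
        rw [two_mul]
        exact Submodule.add_mem _ hy (Submodule.smul_mem _ _ hy)
      · rw [hi.neg_one_pow, neg_one_smul, add_neg_cancel]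
        exact Submodule.zero_mem _
  have h2 : x = (2 : K)⁻¹ • (x + W.par Y x) := by
    rw [hx, ← two_smul K x, smul_smul, inv_mul_cancel₀ two_ne_zero, one_smul]
  rw [h2]
  exact Submodule.smul_mem _ _ (h x)

/-- The class of the graph of `f : Y → Z`. -/
theorem Spec_graph [CharZero K] {Y Z : 𝒱.Obj} (f : Y ⟶ Z) : ∃ γ ∈ W.ratSpan (Y.prod Z),
    ∀ y : W.H (Y.prod Z), W.tr (Y.prod Z) (γ * y) = W.tr Y (W.pull (Obj.lift (𝟙 Y) f) y) := by
  obtain ⟨γ, hγ, h⟩ := W.push_ratSpan (Obj.lift (𝟙 Y) f) (W.one_mem_ratSpan Y)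
  exact ⟨γ, hγ, fun y => by rw [h, one_mul]⟩

theorem Spec_sp_rat [CharZero K] (S : Specialisation W W₀) {Y : 𝒱.Obj} {a : W.H Y}
    (ha : a ∈ W.ratSpan Y) : S.sp Y a ∈ W₀.ratSpan (S.obj Y) := by
  refine AddSubmonoid.closure_induction (motive := fun a _ => S.sp Y a ∈ W₀.ratSpan (S.obj Y))
    ?_ ?_ ?_ ha
  · rintro _ ⟨i, z, rfl⟩
    obtain ⟨z₀, hz⟩ := S.cycles Y i z
    have hz' : S.sp Y (W.cl z) = W₀.cl z₀ := hz
    rw [hz']
    exact W₀.cl_mem_ratSpan z₀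
  · rw [map_zero]
    exact zero_mem _
  · intro x y _ _ hx hy
    rw [map_add]
    exact add_mem hx hy

theorem Spec_push [CharZero K] (S : Specialisation W W₀) {Y Z : 𝒱.Obj} (f : Y ⟶ Z) {a : W.H Y}
    (ha : S.sp Y a ∈ W₀.ratSpan (S.obj Y)) : ∃ b : W.H Z, S.sp Z b ∈ W₀.ratSpan (S.obj Z) ∧
      ∀ z : W.H Z, W.tr Z (b * z) = W.tr Y (a * W.pull f z) := by
  obtain ⟨γ, hγ, h⟩ := Spec_graph (W := W) f
  obtain ⟨b₀, hb₀, h₀⟩ := W₀.push_ratSpan (S.snd Y Z) (W₀.mul_mem_ratSpan (Spec_sp_rat S hγ)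
    (W₀.pull_mem_ratSpan (S.fst Y Z) ha))
  refine ⟨(S.sp Z).symm b₀, by rwa [(S.sp Z).apply_symm_apply], fun z => ?_⟩
  have h1 : W₀.tr _ (S.sp Z ((S.sp Z).symm b₀ * z)) = W.tr Z ((S.sp Z).symm b₀ * z) := S.traces Z _
  have h2 : W₀.tr _ (S.sp (Y.prod Z) (γ * W.pull (Obj.fst Y Z) a * W.pull (Obj.snd Y Z) z)) =
      W.tr _ (γ * W.pull (Obj.fst Y Z) a * W.pull (Obj.snd Y Z) z) := S.traces _ _
  have h3 : S.sp (Y.prod Z) (W.pull (Obj.fst Y Z) a) = W₀.pull (S.fst Y Z) (S.sp Y a) :=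
    S.pull_fst Y Z a
  have h4 : S.sp (Y.prod Z) (W.pull (Obj.snd Y Z) z) = W₀.pull (S.snd Y Z) (S.sp Z z) :=
    S.pull_snd Y Z z
  rw [← h1, map_mul, (S.sp Z).apply_symm_apply, h₀, ← h3, ← h4, ← map_mul, ← map_mul, h2, mul_assoc,
    h, map_mul, ← W.pull_comp, ← W.pull_comp, Obj.lift_fst, Obj.lift_snd, W.pull_id]

theorem Spec_pull [CharZero K] (S : Specialisation W W₀) {Y Z : 𝒱.Obj} (f : Y ⟶ Z) {a : W.H Z}
    (ha : S.sp Z a ∈ W₀.ratSpan (S.obj Z)) : S.sp Y (W.pull f a) ∈ W₀.ratSpan (S.obj Y) := by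
  obtain ⟨γ, hγ, h⟩ := Spec_graph (W := W) f
  obtain ⟨b₀, hb₀, h₀⟩ := W₀.push_ratSpan (S.fst Y Z) (W₀.mul_mem_ratSpan (Spec_sp_rat S hγ)
    (W₀.pull_mem_ratSpan (S.snd Y Z) ha))
  have h5 : b₀ = S.sp Y (W.pull f a) := by
    rw [← sub_eq_zero]
    refine W₀.duality _ _ fun y₀ => ?_
    obtain ⟨y, rfl⟩ := (S.sp Y).surjective y₀
    rw [sub_mul, map_sub, sub_eq_zero, h₀, ← map_mul]
    have h1 : W₀.tr _ (S.sp Y (W.pull f a * y)) = W.tr Y (W.pull f a * y) := S.traces Y _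
    have h2 : W₀.tr _ (S.sp (Y.prod Z) (γ * W.pull (Obj.snd Y Z) a * W.pull (Obj.fst Y Z) y)) =
        W.tr _ (γ * W.pull (Obj.snd Y Z) a * W.pull (Obj.fst Y Z) y) := S.traces _ _
    have h3 : S.sp (Y.prod Z) (W.pull (Obj.fst Y Z) y) = W₀.pull (S.fst Y Z) (S.sp Y y) :=
      S.pull_fst Y Z y
    have h4 : S.sp (Y.prod Z) (W.pull (Obj.snd Y Z) a) = W₀.pull (S.snd Y Z) (S.sp Z a) :=
      S.pull_snd Y Z a
    rw [h1, ← h3, ← h4, ← map_mul, ← map_mul, h2, mul_assoc, h, map_mul, ← W.pull_comp,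
      ← W.pull_comp, Obj.lift_fst, Obj.lift_snd, W.pull_id]
  rwa [← h5]

/-- The classes on `Y` whose specialisations are classes of cycles. -/
def specT [CharZero K] (S : Specialisation W W₀) : W.RatTheory where
  C := fun Y => (W₀.ratSpan (S.obj Y)).comap (S.sp Y : W.H Y →+ W₀.H (S.obj Y))
  C_rat := by
    intro Y q a ha
    change S.sp Y ((q : K) • a) ∈ W₀.ratSpan (S.obj Y)
    rw [map_smul]
    exact W₀.ratSpan_smul ha q
  C_even := by
    intro Y a ha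
    refine Spec_even ((S.sp Y).injective ?_)
    rw [Spec_par]
    exact W₀.par_algSpan (W₀.ratSpan_le ha)
  C_cycles := by
    intro Y i z
    exact Spec_sp_rat S (W.cl_mem_ratSpan z)
  C_mul := by
    intro Y a b ha hb
    change S.sp Y (a * b) ∈ W₀.ratSpan (S.obj Y)
    rw [map_mul]
    exact W₀.mul_mem_ratSpan ha hb
  C_pull := fun Y Z f a ha => Spec_pull S f ha
  C_push := fun Y Z f a ha => Spec_push S f ha

theorem mem_specT [CharZero K] (S : Specialisation W W₀) {Y : 𝒱.Obj} {a : W.H Y} :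
    a ∈ (specT S).C Y ↔ S.sp Y a ∈ W₀.ratSpan (S.obj Y) := Iff.rfl

theorem Spec_orth [CharZero K] {Y : 𝒱₀.Obj} {a : W₀.H Y} (h : ∀ b ∈ W₀.ratSpan Y, W₀.tr Y (a * b) = 0) :
    ∀ b ∈ W₀.algSpan Y, W₀.tr Y (a * b) = 0 := by
  intro b hb
  refine Submodule.span_induction (p := fun b _ => W₀.tr Y (a * b) = 0) ?_ ?_ ?_ ?_ hb
  · rintro _ ⟨i, z, rfl⟩
    exact h _ (W₀.cl_mem_ratSpan z)
  · rw [mul_zero, map_zero]
  · intro x y _ _ hx hy
    rw [mul_add, map_add, hx, hy, add_zero]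
  · intro c x _ hx
    rw [mul_smul_comm, map_smul, hx, smul_zero]

/-- `D` for the specialisation of `Y` is the nondegeneracy of the theory on `Y`. -/
theorem specT_numEq [CharZero K] (S : Specialisation W W₀) {Y : 𝒱.Obj}
    (h : W₀.HomEqNum (S.obj Y)) : (specT S).NumEq Y := by
  intro a ha hb
  have h1 : W₀.NT (S.sp Y a) := by
    refine ⟨W₀.ratSpan_le ha, Spec_orth fun b₀ hb₀ => ?_⟩
    have h2 := hb ((S.sp Y).symm b₀) (by
      rw [mem_specT, (S.sp Y).apply_symm_apply]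
      exact hb₀)
    have h3 : W₀.tr (S.obj Y) (S.sp Y (a * (S.sp Y).symm b₀)) = 0 := (S.traces Y _).trans h2
    rwa [map_mul, (S.sp Y).apply_symm_apply] at h3
  have h4 := W₀.nt_eq_zero_of_homEqNum h h1
  exact (map_eq_zero_iff (S.sp Y) (S.sp Y).injective).1 h4

end GTh
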