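import Pool.Agent.W_f569db_g.ExAR
import Pool.Agent.W_f569db_t2.DetMain

set_option autoImplicit false

noncomputable section

namespace GTh

open AlgebraicGeometry CategoryTheory MonoidalCategory
open scoped TensorProduct DirectSum
open Pool.Agent.WeilH_h6 Pool.Agent.WeilH_h6.VarClass Pool.Agent.WeilH_h6.Weil H13F T2F

universe u v w

variable {k : Type u} [Field k] {𝒱 : VarClass k} {K : Type v} [Field K] {W : Weil.{u, v, w} 𝒱 K}

variable [CharZero K] {X : 𝒱.Obj} {hpar : W.par X ∈ W.algHom X X} {n : ℕ} {α : Type} [Fintype α]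
  [DecidableEq α] {b b' : α → W.H X}

/-- The alternating class is, up to a factor in `K`, rational.

Proof: the proof of `T2F.altI_nt` (file W_f569db_t2/AltMain.lean), with `RatA.asym`: the class of
`asym β A` is `S • altI`, where `S ≠ 0` is the sum of the hypothesis `hne`. -/
theorem altI_rat (hp : THom (cycT W) (W.par X))
    (hd : ∀ i j, W.tr X (b i * b' j) = if i = j then 1 else 0)
    (hx : ∀ x, x = ∑ j, W.tr X (x * b' j) • b j) (B : NWB (W := W) (X := X) hpar n α)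
    {h : Matrix α α K} (hv : B.v = colB b h)
    {D : ℕ} (hD : 0 < D) {ζ : α → ℤ} (hζ : ∀ i, (ζ i : ℝ) = D * B.ξ i) {r₀ : ℕ}
    (hr : (r₀ : ℝ) = D * ∑ i, B.ξ i ^ 2) {T : ℕ} (hT : ∀ i, |ζ i| ≤ T) {ρ : Equiv.Perm α}
    (hρ : ∀ i, ζ (ρ i) = -ζ i) {N : ℕ} {A : (Blk ζ T × Fin (2 * N) → α) → K}
    (hA : RatA (cycT W) b A) (hw : WtA B b A (N * r₀))
    (hne : ∑ p : Blk ζ T × Fin (2 * N) → α, (∏ j, eps h ζ T fun s => p (s, j)) *
      flatI W b A (fun s => b (p s)) ≠ 0) :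
    ∃ S : K, S ≠ 0 ∧ S • altI W (fun x : Blk ζ T × Fin (2 * N) => W.par X (B.v' x.1.2.1))
      (fun x => (x.1.1, x.2)) ∈ W.ratSpan (X.pow (Fintype.card (Blk ζ T × Fin (2 * N)))) := by
  have h1 := RatA.asym hp hpar (fun x : Blk ζ T × Fin (2 * N) => (x.1.1, x.2)) hA
  rw [asym_eq hd hx B hv hD hζ hr hT hρ hw] at h1
  rw [altI_eq hx]
  obtain ⟨S, hS⟩ : ∃ S, S = ∑ p : Blk ζ T × Fin (2 * N) → α,
      (∏ j, eps h ζ T fun s => p (s, j)) * flatI W b A (fun s => b (p s)) := ⟨_, rfl⟩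
  rw [← hS] at h1 hne
  obtain ⟨F, hF⟩ : ∃ F : (Blk ζ T × Fin (2 * N) → α) → K, F = fun c =>
      ∑ σ : Equiv.Perm (Blk ζ T × Fin (2 * N)), if ∀ x, ((σ x).1.1, (σ x).2) = (x.1.1, x.2) then
        ((Equiv.Perm.sign σ : ℤ) : K) * prA W b' (fun x => W.par X (B.v' (σ x).1.2.1)) c else 0 :=
    ⟨_, rfl⟩
  have h2 : clsI W b (fun c => S * F c) = S • clsI W b F := by
    unfold clsI
    rw [Finset.smul_sum]
    refine Finset.sum_congr rfl fun c _ => ?_
    rw [smul_smul]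
  rw [hF] at h2
  refine ⟨S, hne, ?_⟩
  rw [← h2]
  exact h1

/-- The rational version of `T2F.det_main`.  Proof: the proof of `T2F.det_main` (file
W_f569db_t2/DetMain.lean) with a rational class `pt` (`exists_pt_rat`), `exists_A_rat`, `altI_rat` and
`altI_nt`; the arrays `prA W b' (fun _ => 1)` and `prA W b' (fun _ => pt)` are rational by `RatA.prA`. -/
theorem det_main_rat (hp : THom (cycT W) (W.par X)) (hn : 2 ≤ n)
    (hd : ∀ i j, W.tr X (b i * b' j) = if i = j then 1 else 0)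
    (hb : ∀ x, x ∈ Submodule.span K (Set.range b)) (B : NWB (W := W) (X := X) hpar n α)
    {h : (Matrix α α K)ˣ} (hv : B.v = colB b (h : Matrix α α K))
    (hv' : B.v' = rowB b' ((h⁻¹ : (Matrix α α K)ˣ) : Matrix α α K))
    (hP : PosS (Set.range (famX (W := W) b n)) (famX b n '' famZ b n) h B.ξ)
    (hmin : ∀ (g' : (Matrix α α K)ˣ) (ξ' : α → ℝ),
      PosS (Set.range (famX (W := W) b n)) (famX b n '' famZ b n) g' ξ' →
        ∑ r, B.ξ r ^ 2 ≤ ∑ r, ξ' r ^ 2)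
    (hne : ∃ m ≤ n, ∃ a : W.H (X.pow m), W.NT a ∧ a ≠ 0)
    {D : ℕ} (hD : 0 < D) {ζ : α → ℤ} (hζ : ∀ i, (ζ i : ℝ) = D * B.ξ i) {r₀ : ℕ}
    (hr : (r₀ : ℝ) = D * ∑ i, B.ξ i ^ 2) {T : ℕ} (hT : ∀ i, |ζ i| ≤ T) :
    ∃ (m : ℕ) (S : K), 0 < m ∧ S ≠ 0 ∧
      S • altI W (fun x : Blk ζ T × Fin m => W.par X (B.v' x.1.2.1)) (fun x => (x.1.1, x.2)) ∈
        W.ratSpan (X.pow (Fintype.card (Blk ζ T × Fin m))) ∧
      W.NT (altI W (fun x : Blk ζ T × Fin m => W.par X (B.v' x.1.2.1)) fun x => (x.1.1, x.2)) := by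
  obtain ⟨pt, hpt, hpt1⟩ := exists_pt_rat W X
  have hfam := exists_fam_ne hpar hd hb hne
  have hr₀ : 0 < r₀ := by
    rcases Nat.eq_zero_or_pos r₀ with h0 | h0
    · exfalso
      rw [h0] at hr
      have hD' : (0 : ℝ) < D := by exact_mod_cast hD
      have hsum : ∑ i, B.ξ i ^ 2 = 0 := by
        have h1 : (D : ℝ) * ∑ i, B.ξ i ^ 2 = 0 := by
          rw [← hr]; simp
        rcases mul_eq_zero.mp h1 with h2 | h2
        · exact absurd h2 hD'.ne'
        · exact h2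
      have hξ : ∀ i, B.ξ i = 0 := by
        intro i
        have h1 := (Finset.sum_eq_zero_iff_of_nonneg (fun i _ => sq_nonneg (B.ξ i))).mp hsum i
          (Finset.mem_univ i)
        exact pow_eq_zero_iff (two_ne_zero) |>.mp h1
      obtain ⟨p, hp, hp0⟩ := hfam
      have hcj := DetMain_cj_ne h hp0
      obtain ⟨a, a', haa⟩ : ∃ a a', H69.cj h⁻¹ (famX b n p) a a' ≠ 0 := by
        by_contra hcon
        push Not at hcon
        exact hcj (Matrix.ext hcon)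
      have h1 := hP.2 _ ⟨p, hp, rfl⟩ a a' haa
      unfold wt at h1
      simp only [hξ, Finset.sum_const_zero, sub_zero] at h1
      linarith
    · exact h0
  obtain ⟨ρ, hρ'⟩ := exists_neg_perm B hn
  have hρ : ∀ i, ζ (ρ i) = -ζ i := by
    intro i
    have h1 : ((ζ (ρ i) : ℤ) : ℝ) = ((-ζ i : ℤ) : ℝ) := by
      push_cast
      rw [hζ, hζ, hρ' i]
      ring
    exact_mod_cast h1
  have hx : ∀ x, x = ∑ j, W.tr X (x * b' j) • b j := DetMain_exp hd hb
  have hptA : pt ∈ W.algSpan X := W.ratSpan_le hpt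
  have hnp := not_pos hn hd hb B hv hv' hP hmin hfam hD hζ hr₀ hr hT hptA hpt1
  obtain ⟨N, hN, A, hA, hAn, hw, hneA⟩ := exists_A_rat B hp hn hd hb
    (RatA.prA (T := cycT W) hx fun _ : Blk ζ T => one_mem_T (cycT W) X)
    (RatA.prA (T := cycT W) hx fun _ : Blk ζ T => hpt)
    (WtA.prA B hn hx fun _ : Blk ζ T => W.one_mem_algSpan X)
    (WtA.prA B hn hx fun _ : Blk ζ T => hptA) hr₀ hnp
  obtain ⟨S, hS, hS2⟩ := altI_rat hp hd hx B hv hD hζ hr hT hρ hA hw hneA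
  exact ⟨2 * N, S, by omega, hS, hS2, altI_nt hd hx B hv hD hζ hr hT hρ hAn hw hneA⟩

end GTh
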