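import Pool.Agent.W_f569db_g.Api

set_option autoImplicit false

/-!
# Anisotropic theories
-/

noncomputable section

namespace Pool.Agent.WeilH_h6.Weil

open AlgebraicGeometry CategoryTheory MonoidalCategory
open VarClass

universe u v w

variable {k : Type u} [Field k] {𝒱 : VarClass k} {K : Type v} [Field K] {W : Weil.{u, v, w} 𝒱 K}

/-- The theory is anisotropic on the generator `U = p H(X)`: an endomorphism `φ = p φ p` given by a class of
the theory on `X × X`, whose image is isotropic for the form `Tr (x · θ y)`, is zero. -/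
def RatTheory.Anisotropic (T : W.RatTheory) {X : 𝒱.Obj} (P : W.Polarised X) : Prop :=
  ∀ φ : W.Hom X X, T.IsEnd X φ → (∀ x, W.ap P.p (W.ap φ x) = W.ap φ x) →
    (∀ x, W.ap φ (W.ap P.p x) = W.ap φ x) →
      (∀ x y, W.deg (W.ap φ x * W.ap P.θ (W.ap φ y)) = 0) → φ = 0

end Pool.Agent.WeilH_h6.Weil
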