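import Pool.Agent.W_f569db_g.UPermT
import Pool.Agent.W_f569db_t2.ContrCls

set_option autoImplicit false

noncomputable section

namespace GTh

open AlgebraicGeometry CategoryTheory MonoidalCategory
open scoped TensorProduct DirectSum
open Pool.Agent.WeilH_h6 Pool.Agent.WeilH_h6.VarClass Pool.Agent.WeilH_h6.Weil H13F T2F

universe u v w

variable {k : Type u} [Field k] {𝒱 : VarClass k} {K : Type v} [Field K] {W : Weil.{u, v, w} 𝒱 K}

variable [CharZero K] {T : W.RatTheory} {X : 𝒱.Obj}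

/-- The signs in `tr_mul_pureT`.  Proof: the proof of `H13F.tr_mul_pureT` (file W_f569db_h13/Flat.lean)
with `H13F.mul_pureT'` instead of `mul_pureT`. -/
theorem tr_mul_pureT_sign (hpar : W.par X ∈ W.algHom X X) {n : ℕ} (π : Fin n → Fin 2) :
    ∃ ε : K, (ε = 1 ∨ ε = -1) ∧ ∀ (a : W.H (X.pow n)) (v : Fin n → W.H X),
      (∀ s, W.par X (v s) = ((-1 : K) ^ ((π s : Fin 2) : ℕ)) • v s) →
        W.tr (X.pow n) (a * W.pureT v) = ε * fB hpar n a (W.pureT v) := by
  classical
  obtain ⟨ε, hε, hm⟩ := mul_pureT' W (X := X) n (fun s => ((π s : Fin 2) : ℕ))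
    (fun s => ((π s : Fin 2) : ℕ))
  refine ⟨ε, hε, fun a v hv => ?_⟩
  refine W.pure_induction (P := fun a => W.tr (X.pow n) (a * W.pureT v) =
    ε * fB hpar n a (W.pureT v)) ?_ ?_ ?_ a
  · intro a b ha hb
    rw [add_mul, map_add, ha, hb, fB_add_left, mul_add]
  · intro c a ha
    rw [smul_mul_assoc, map_smul, ha, fB_smul_left, smul_eq_mul]; ring
  · intro u
    have h1 : W.pureT u = ∑ τ : Fin n → Fin 2, W.pureT fun s => parPr W X (τ s) (u s) := by
      have h2 : u = fun s => ∑ i : Fin 2, parPr W X i (u s) := by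
        funext s; rw [parPr_add]
      conv_lhs => rw [h2, ← pureM_apply, MultilinearMap.map_sum]
      simp only [pureM_apply]
    rw [h1, Finset.sum_mul, map_sum, ← fBL_apply, map_sum, LinearMap.sum_apply, Finset.mul_sum]
    refine Finset.sum_congr rfl fun τ _ => ?_
    rw [fBL_apply, fB_pureT]
    by_cases hτ : τ = π
    · subst hτ
      rw [hm _ _ (fun s => par_parPr W (τ s) (u s)) hv, map_smul, tr_pureT, smul_eq_mul]
    · obtain ⟨s, hs⟩ := Function.ne_iff.1 hτ
      have hne : (-1 : K) ^ (((τ s : Fin 2) : ℕ) + ((π s : Fin 2) : ℕ)) ≠ 1 := by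
        have h3 : (-1 : K) ≠ 1 := by
          intro h
          have h4 : (2 : K) = 0 := by
            have : (1 : K) + 1 = 1 + (-1) := by rw [h]
            rw [one_add_one_eq_two] at this
            rw [this]; ring
          exact two_ne_zero h4
        generalize τ s = p at hs ⊢
        generalize π s = q at hs ⊢
        fin_cases p <;> fin_cases q <;> simp_all
      have h0 : W.tr X (parPr W X (τ s) (u s) * v s) = 0 :=
        tr_mul_parity (par_parPr W (τ s) (u s)) (hv s) hne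
      obtain ⟨ε', -, hm'⟩ := mul_pureT W (X := X) n (fun s => ((τ s : Fin 2) : ℕ))
        (fun s => ((π s : Fin 2) : ℕ))
      rw [hm' _ _ (fun s => par_parPr W (τ s) (u s)) hv, map_smul, tr_pureT,
        Finset.prod_eq_zero (Finset.mem_univ s) h0, smul_zero, mul_zero]

/-- Proof: as `T2F.tr_mul_powPr` (file W_f569db_t2/NtFB.lean), from `tr_mul_pureT_sign`. -/
theorem tr_mul_powPr_sign (hpar : W.par X ∈ W.algHom X X) {n : ℕ} (π : Fin n → Fin 2) :
    ∃ ε : K, (ε = 1 ∨ ε = -1) ∧ ∀ a b : W.H (X.pow n),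
      W.tr (X.pow n) (a * W.powMap n (fun s => parPr W X (π s)) b) =
        ε * fB hpar n a (W.powMap n (fun s => parPr W X (π s)) b) := by
  obtain ⟨ε, hε, h⟩ := tr_mul_pureT_sign hpar π
  refine ⟨ε, hε, fun a b => ?_⟩
  refine W.pure_induction (P := fun b => W.tr (X.pow n)
      (a * W.powMap n (fun s => parPr W X (π s)) b) =
        ε * fB hpar n a (W.powMap n (fun s => parPr W X (π s)) b)) ?_ ?_ ?_ b
  · intro b b' hb hb'
    rw [map_add, mul_add, map_add, fB_add_right, hb, hb', mul_add]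
  · intro c b hb
    rw [map_smul, mul_smul_comm, map_smul, fB_smul_right, hb, smul_eq_mul]
    ring
  · intro v
    rw [powMap_pureT]
    exact h a _ fun s => par_parPr W (π s) (v s)

theorem ContrT_sign {ε δ : K} (hε : ε = 1 ∨ ε = -1) (hδ : δ = 1 ∨ δ = -1) :
    ε⁻¹ * δ = 1 ∨ ε⁻¹ * δ = -1 := by
  rcases hε with rfl | rfl <;> rcases hδ with rfl | rfl <;> simp [inv_neg]

/-- Partial contraction of classes of the theory.  Proof: the proof of `T2F.exists_contr_cls` (file
W_f569db_t2/ContrCls.lean): with `tr_mul_powPr_sign` all the constants `ε⁻¹ * δ` are `± 1`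
(`sign_smul_T`), and `powPr_mem_T`, `T.mul_mem`, `T.pull_mem`, `T.push_mem`, `sum_mem` show that the class
is in the theory. -/
theorem exists_contr_cls_T (hp : THom T (W.par X)) (hpar : W.par X ∈ W.algHom X X) {m M : ℕ}
    {Θ : W.H (X.pow (m + M))} (hΘ : Θ ∈ T.C _) {C : W.H (X.pow m)} (hC : C ∈ T.C _) :
    ∃ A ∈ T.C (X.pow M), ∀ E, fB hpar M A E = fB hpar (m + M) Θ (W.box2 C E) := by
  choose ε hε1 hε using fun τ : Fin (m + M) → Fin 2 => tr_mul_powPr_sign (W := W) hpar τ
  choose δ hδ1 hδ using fun ρ : Fin M → Fin 2 => tr_mul_powPr_sign (W := W) hpar ρ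
  have hε0 : ∀ τ, ε τ ≠ 0 := by
    intro τ
    rcases hε1 τ with h | h <;> rw [h]
    · exact one_ne_zero
    · exact neg_ne_zero.2 one_ne_zero
  have hPC : ∀ π : Fin m → Fin 2, W.powMap m (fun s => parPr W X (π s)) C ∈ T.C (X.pow m) :=
    fun π => powPr_mem_T hp π hC
  choose A hA hA' using fun π : Fin m → Fin 2 =>
    T.push_mem (Obj.sel X (Fin.natAdd m) : X.pow (m + M) ⟶ X.pow M)
      (Θ * W.pull (Obj.sel X (Fin.castAdd M)) (W.powMap m (fun s => parPr W X (π s)) C))
      (T.mul_mem _ _ _ hΘ (T.pull_mem (Obj.sel X (Fin.castAdd M)) _ (hPC π)))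
  have hmain : ∀ E : W.H (X.pow M), fB hpar (m + M) Θ (W.box2 C E) =
      ∑ p : (Fin m → Fin 2) × (Fin M → Fin 2), ((ε (Fin.append p.1 p.2))⁻¹ * δ p.2) *
        fB hpar M (W.powMap M (fun s => parPr W X (p.2 s)) (A p.1)) E := by
    intro E
    have h1 : W.box2 C E = ∑ p : (Fin m → Fin 2) × (Fin M → Fin 2),
        W.powMap (m + M) (fun s => parPr W X (Fin.append p.1 p.2 s)) (W.box2 C E) := by
      conv_lhs => rw [← sum_powPr (W := W) (W.box2 C E)]
      exact ((Fin.appendEquiv m M).sum_comp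
        (fun τ : Fin (m + M) → Fin 2 => W.powMap (m + M) (fun s => parPr W X (τ s))
          (W.box2 C E))).symm
    rw [← fBL_apply, h1, map_sum]
    refine Finset.sum_congr rfl fun p _ => ?_
    rw [fBL_apply]
    have h2 := hε (Fin.append p.1 p.2) Θ (W.box2 C E)
    have h3 : fB hpar (m + M) Θ
        (W.powMap (m + M) (fun s => parPr W X (Fin.append p.1 p.2 s)) (W.box2 C E)) =
        (ε (Fin.append p.1 p.2))⁻¹ * W.tr (X.pow (m + M))
          (Θ * W.powMap (m + M) (fun s => parPr W X (Fin.append p.1 p.2 s)) (W.box2 C E)) := by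
      rw [h2, ← mul_assoc, inv_mul_cancel₀ (hε0 _), one_mul]
    rw [h3, powPr_box2]
    have h4 : W.tr (X.pow M) (A p.1 * W.powMap M (fun s => parPr W X (p.2 s)) E) =
        W.tr (X.pow (m + M)) (Θ * W.pull (Obj.sel X (Fin.castAdd M))
          (W.powMap m (fun s => parPr W X (p.1 s)) C) *
          W.pull (Obj.sel X (Fin.natAdd m)) (W.powMap M (fun s => parPr W X (p.2 s)) E)) :=
      hA' p.1 (W.powMap M (fun s => parPr W X (p.2 s)) E)
    have h5 := hδ p.2 (A p.1) E
    rw [fB_powPr hpar, mul_assoc, ← h5, h4]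
    unfold box2
    rw [mul_assoc]
  refine ⟨∑ p : (Fin m → Fin 2) × (Fin M → Fin 2), ((ε (Fin.append p.1 p.2))⁻¹ * δ p.2) •
      W.powMap M (fun s => parPr W X (p.2 s)) (A p.1), ?_, ?_⟩
  · exact sum_mem fun p _ => sign_smul_T (powPr_mem_T hp p.2 (hA p.1))
      (ContrT_sign (hε1 _) (hδ1 _))
  · intro E
    rw [hmain, ← fBL_apply, map_sum, LinearMap.sum_apply]
    refine Finset.sum_congr rfl fun p _ => ?_
    rw [map_smul, LinearMap.smul_apply, fBL_apply, smul_eq_mul]

/-- The unsigned form detects the classes of the theory: if `Tr (a · b) ≠ 0` then some projection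
`a' = P_π a` satisfies `⟨a', b⟩ ≠ 0` for the unsigned form.

Proof: `b = ∑ π, P_π b` (`sum_powPr`), `Tr (a · P_π b) = ε_π ⟨a, P_π b⟩ = ε_π ⟨P_π a, b⟩` (`fB_powPr`). -/
theorem exists_powPr_ne (hpar : W.par X ∈ W.algHom X X) {n : ℕ} {a b : W.H (X.pow n)}
    (h : W.tr (X.pow n) (a * b) ≠ 0) :
    ∃ π : Fin n → Fin 2, fB hpar n (W.powMap n (fun s => parPr W X (π s)) a) b ≠ 0 := by
  by_contra hcon
  push Not at hcon
  apply h
  have h1 : W.tr (X.pow n) (a * b) =
      ∑ π : Fin n → Fin 2, W.tr (X.pow n) (a * W.powMap n (fun s => parPr W X (π s)) b) := by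
    conv_lhs => rw [← sum_powPr b, Finset.mul_sum, map_sum]
  rw [h1]
  refine Finset.sum_eq_zero fun π _ => ?_
  obtain ⟨ε, -, h2⟩ := tr_mul_powPr_sign hpar π
  rw [h2 a b, ← fB_powPr hpar, hcon π, mul_zero]

end GTh
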