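import Pool.Agent.W_f569db_g.ThetaT
import Pool.Agent.W_f569db_g.ContrT
import Pool.Agent.W_f569db_t2.ContrA
import Pool.Agent.W_f569db_t2.BoxA

set_option autoImplicit false

noncomputable section

namespace GTh

open AlgebraicGeometry CategoryTheory MonoidalCategory
open scoped TensorProduct DirectSum
open Pool.Agent.WeilH_h6 Pool.Agent.WeilH_h6.VarClass Pool.Agent.WeilH_h6.Weil H13F T2F

universe u v w

variable {k : Type u} [Field k] {𝒱 : VarClass k} {K : Type v} [Field K] {W : Weil.{u, v, w} 𝒱 K}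

variable {X : 𝒱.Obj} {α : Type} [Fintype α]

/-- The class of the array `y` is in the theory. -/
def RatA (T : W.RatTheory) (b : α → W.H X) {ι : Type} [Fintype ι] [DecidableEq ι]
    (y : (ι → α) → K) : Prop :=
  clsI W b y ∈ T.C (X.pow (Fintype.card ι))

variable [CharZero K] {T : W.RatTheory} {b : α → W.H X}

/-- Rational classes are algebraic.  Proof: `ratSpan_le`. -/
theorem RatA.alg {ι : Type} [Fintype ι] [DecidableEq ι] {y : (ι → α) → K}
    (h : RatA (cycT W) b y) : AlgA W b y := W.ratSpan_le h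

/-- Proof: as `T2F.algA_iff`, with `exists_uperm_T`. -/
theorem ratA_iff (hp : THom T (W.par X)) (hpar : W.par X ∈ W.algHom X X) {ι : Type} [Fintype ι]
    [DecidableEq ι] {m : ℕ} (e : Fin m ≃ ι) (y : (ι → α) → K) :
    RatA T b y ↔ cls W b m (fun c => y fun i => c (e.symm i)) ∈ T.C (X.pow m) := by
  unfold RatA
  rw [ArrCls_clsI_eq]
  constructor
  · intro h
    obtain ⟨U, hU1, hU2, -⟩ := exists_uperm_T hp hpar (e.trans (Fintype.equivFin ι)).symm
    have h1 := hU2 _ h
    rw [ArrCls_map_cls _ U hU1] at h1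
    simpa using h1
  · intro h
    obtain ⟨U, hU1, hU2, -⟩ := exists_uperm_T hp hpar (e.trans (Fintype.equivFin ι))
    have h1 := hU2 _ h
    rw [ArrCls_map_cls _ U hU1] at h1
    simpa using h1

/-- Proof: as `T2F.AlgA.reindex`. -/
theorem RatA.reindex (hp : THom T (W.par X)) (hpar : W.par X ∈ W.algHom X X) {ι κ : Type}
    [Fintype ι] [DecidableEq ι] [Fintype κ] [DecidableEq κ] (e : ι ≃ κ) {y : (ι → α) → K}
    (h : RatA T b y) : RatA T b fun c : κ → α => y fun i => c (e i) := by
  rw [ratA_iff hp hpar (Fintype.equivFin κ).symm]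
  exact (ratA_iff hp hpar ((Fintype.equivFin κ).symm.trans e.symm) y).1 h

/-- Proof: as `T2F.AlgA.asym`; the signs are `± 1` (`sign_smul_T`). -/
theorem RatA.asym (hp : THom T (W.par X)) (hpar : W.par X ∈ W.algHom X X) {P κ : Type} [Fintype P]
    [DecidableEq P] [DecidableEq κ] (β : P → κ) {y : (P → α) → K} (h : RatA T b y) :
    RatA T b (asym β y) := by
  unfold RatA
  rw [ArrCls_clsI_asym]
  refine AddSubmonoid.sum_mem _ fun σ _ => ?_
  split_ifs
  · refine sign_smul_T (h.reindex hp hpar σ) ?_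
    rcases Int.units_eq_one_or (Equiv.Perm.sign σ) with h1 | h1
    · left
      rw [h1]
      simp
    · right
      rw [h1]
      simp
  · exact AddSubmonoid.zero_mem _

/-- Proof: as `T2F.AlgA.box`, with `box2_mem_T`. -/
theorem RatA.box (hp : THom T (W.par X)) (hpar : W.par X ∈ W.algHom X X) {ι κ : Type} [Fintype ι]
    [DecidableEq ι] [Fintype κ] [DecidableEq κ] {y : (ι → α) → K} {z : (κ → α) → K}
    (hy : RatA T b y) (hz : RatA T b z) :
    RatA T b fun c : ι ⊕ κ → α => (y fun i => c (Sum.inl i)) * z fun i => c (Sum.inr i) := by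
  rw [ratA_iff hp hpar (BoxA_e ι κ)]
  have h1 := BoxA_cls (W := W) (b := b) y z
  rw [h1]
  exact box2_mem_T hy hz

/-- Proof: as `T2F.AlgA.empty`, `one_mem_T`. -/
theorem RatA.empty (hp : THom T (W.par X)) (hpar : W.par X ∈ W.algHom X X) {ι : Type} [Fintype ι]
    [DecidableEq ι] [IsEmpty ι] : RatA T b fun _ : ι → α => 1 := by
  rw [ratA_iff hp hpar (Equiv.equivOfIsEmpty (Fin 0) ι)]
  unfold cls
  rw [Fintype.sum_unique, one_smul, pureT_zero]
  exact one_mem_T T _

/-- Proof: as `T2F.AlgA.prA`, `pureT_mem_T`. -/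
theorem RatA.prA {b' : α → W.H X} (hx : ∀ x, x = ∑ j, W.tr X (x * b' j) • b j) {ι : Type}
    [Fintype ι] [DecidableEq ι] {x : ι → W.H X} (h : ∀ i, x i ∈ T.C X) :
    RatA T b (prA W b' x) := by
  unfold RatA
  rw [clsI_prA hx]
  exact pureT_mem_T fun s => h _

/-- A rational class of degree one.  Proof: as `H13F.exists_pt`. -/
theorem exists_pt_rat (W : Weil.{u, v, w} 𝒱 K) (X : 𝒱.Obj) :
    ∃ p ∈ W.ratSpan X, W.tr X p = 1 := by
  obtain ⟨x, hx⟩ := exists_coheight X
  refine ⟨W.cl (Finsupp.single (⟨x, hx⟩ : {x : X.X.left //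
      Order.coheight x = (X.dim : ℕ∞)}) 1 : Cyc X X.dim), W.cl_mem_ratSpan _, ?_⟩
  unfold cl cycSum
  rw [Finsupp.sum_single_index]
  · simp only [Rat.cast_one, one_smul]; exact W.tr_clPt X x hx
  · simp

/-- Contraction of a rational array.  Proof: as `T2F.exists_contr` (file W_f569db_t2/ContrA.lean) with
`exists_theta_T` and `exists_contr_cls_T`. -/
theorem exists_contr_T (hp : THom T (W.par X)) (hpar : W.par X ∈ W.algHom X X)
    (hb : ∀ x, x ∈ Submodule.span K (Set.range b))
    {Q P S : Type} [Fintype Q] [DecidableEq Q] [Fintype P] [DecidableEq P] [Fintype S]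
    (e : Q ⊕ P ≃ S ⊕ S) {C : (Q → α) → K} (hC : RatA T b C) :
    ∃ A : (P → α) → K, RatA T b A ∧ ∀ v : P → W.H X,
      flatI W b A v = ∑ q : Q → α, C q * ∏ t : S,
        W.tr X (Sum.elim (fun i => b (q i)) v (e.symm (Sum.inl t)) *
          Sum.elim (fun i => b (q i)) v (e.symm (Sum.inr t))) := by
  classical
  let fQ := Fintype.equivFin Q
  let fP := Fintype.equivFin P
  let e' : Fin (Fintype.card Q + Fintype.card P) ≃ S ⊕ S :=
    finSumFinEquiv.symm.trans ((Equiv.sumCongr fQ.symm fP.symm).trans e)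
  obtain ⟨Θ, hΘ, hΘw⟩ := exists_theta_T (T := T) hp hpar e'
  obtain ⟨A0, hA0, hrep⟩ := exists_contr_cls_T hp hpar (m := Fintype.card Q)
    (M := Fintype.card P) hΘ (C := clsI W b C) hC
  obtain ⟨y', hy'⟩ := exists_cls b hb A0
  have hcls : clsI W b (fun c : P → α => y' fun s => c (fP.symm s)) = A0 := by
    rw [← hy']
    unfold clsI cls
    exact Fintype.sum_equiv (Equiv.arrowCongr fP (Equiv.refl α)) _ _ fun c => rfl
  refine ⟨fun c => y' fun s => c (fP.symm s), ?_, ?_⟩
  · unfold RatA
    rw [hcls]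
    exact hA0
  · intro v
    rw [← fB_clsI hpar, hcls, hrep]
    have h1 : W.box2 (clsI W b C) (pureI W v) = ∑ q : Q → α, C q •
        W.pureT (Fin.append (fun s => b (q (fQ.symm s))) (fun s => v (fP.symm s))) := by
      unfold clsI
      have h2 : W.box2 (∑ q : Q → α, C q • pureI W fun i => b (q i)) (pureI W v) =
          ∑ q : Q → α, C q • W.box2 (pureI W fun i => b (q i)) (pureI W v) := by
        unfold box2
        rw [map_sum, Finset.sum_mul]
        refine Finset.sum_congr rfl fun q _ => ?_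
        rw [map_smul, smul_mul_assoc]
      rw [h2]
      refine Finset.sum_congr rfl fun q _ => ?_
      unfold pureI
      rw [box2_pureT]
    rw [h1, ← fBL_apply, map_sum]
    refine Finset.sum_congr rfl fun q _ => ?_
    rw [map_smul, fBL_apply, hΘw, smul_eq_mul]
    congr 1
    have h3 : ∀ x : S ⊕ S, Fin.append (fun s => b (q (fQ.symm s))) (fun s => v (fP.symm s))
        (e'.symm x) = Sum.elim (fun i => b (q i)) v (e.symm x) := by
      intro x
      have h4 : e'.symm x = finSumFinEquiv (Sum.map fQ fP (e.symm x)) := rfl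
      rw [h4]
      rcases e.symm x with i | i
      · rw [Sum.map_inl, finSumFinEquiv_apply_left, Fin.append_left, Sum.elim_inl,
          Equiv.symm_apply_apply]
      · rw [Sum.map_inr, finSumFinEquiv_apply_right, Fin.append_right, Sum.elim_inr,
          Equiv.symm_apply_apply]
    refine Finset.prod_congr rfl fun t _ => ?_
    rw [h3, h3]

/-- Contraction of a rational numerically trivial array.  Proof: the arrays of `exists_contr_T` (for
`T = cycT W`) and of `T2F.exists_contr` (with `RatA.alg`) are equal by `T2F.arr_ext hd` (generating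
family `b`). -/
theorem exists_contr_rat [DecidableEq α] (hp : THom (cycT W) (W.par X))
    (hpar : W.par X ∈ W.algHom X X) {b' : α → W.H X}
    (hd : ∀ i j, W.tr X (b i * b' j) = if i = j then 1 else 0)
    (hb : ∀ x, x ∈ Submodule.span K (Set.range b))
    {Q P S : Type} [Fintype Q] [DecidableEq Q] [Fintype P] [DecidableEq P] [Fintype S]
    (e : Q ⊕ P ≃ S ⊕ S) {C : (Q → α) → K} (hC : RatA (cycT W) b C) :
    ∃ A : (P → α) → K, RatA (cycT W) b A ∧ (NTA W b C → NTA W b A) ∧ ∀ v : P → W.H X,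
      flatI W b A v = ∑ q : Q → α, C q * ∏ t : S,
        W.tr X (Sum.elim (fun i => b (q i)) v (e.symm (Sum.inl t)) *
          Sum.elim (fun i => b (q i)) v (e.symm (Sum.inr t))) := by
  obtain ⟨A, hA, hAv⟩ := exists_contr_T hp hpar hb e hC
  obtain ⟨A', hA', hnt, hAv'⟩ := exists_contr hpar hb e hC.alg
  have hAA : A = A' := by
    refine arr_ext hd hb fun q => ?_
    rw [hAv, hAv']
  subst hAA
  exact ⟨A, hA, hnt, hAv⟩

end GTh
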