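import Pool.Agent.W_f569db_g.AltR
import Pool.Agent.W_f569db_t2.Canon3

set_option autoImplicit false

noncomputable section

namespace GTh

open AlgebraicGeometry CategoryTheory MonoidalCategory
open scoped TensorProduct DirectSum
open Pool.Agent.WeilH_h6 Pool.Agent.WeilH_h6.VarClass Pool.Agent.WeilH_h6.Weil H13F T2F

universe u v w

variable {k : Type u} [Field k] {𝒱 : VarClass k} {K : Type v} [Field K] {W : Weil.{u, v, w} 𝒱 K}

/-- The canonical weighted basis with integral weights and rational determinant class.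

Proof: the proof of `T2F.exists_canonical3` (file W_f569db_t2/Canon3.lean), without the parts on the
symmetries and on the torsion of determinants, and with `det_main_rat` instead of `det_main` in the last
step. -/
theorem exists_canonical_rat [CharZero K] {X : 𝒱.Obj} (hp : THom (cycT W) (W.par X))
    (hpar : W.par X ∈ W.algHom X X) {n : ℕ} (hn : 2 ≤ n)
    (hne : ∃ m ≤ n, ∃ a : W.H (X.pow m), W.NT a ∧ a ≠ 0) :
    ∃ (r : ℕ) (B : NWB (W := W) (X := X) hpar n (Fin r)) (ζ : Fin r → ℤ), (∀ i, B.ξ i = ζ i) ∧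
      ∀ T : ℕ, (∀ i, |ζ i| ≤ T) → ∃ (m : ℕ) (S : K), 0 < m ∧ S ≠ 0 ∧
        S • altI W (fun x : Blk ζ T × Fin m => W.par X (B.v' x.1.2.1)) (fun x => (x.1.1, x.2)) ∈
          W.ratSpan (X.pow (Fintype.card (Blk ζ T × Fin m))) ∧
        W.NT (altI W (fun x : Blk ζ T × Fin m => W.par X (B.v' x.1.2.1)) fun x => (x.1.1, x.2)) := by
  have hp' := hp
  classical
  let b := Module.finBasis K (W.H X)
  choose b' hb' using fun j => exists_dual X (b.coord j)
  have hd : ∀ i j, W.tr X (b i * b' j) = if i = j then 1 else 0 := by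
    intro i j
    rw [hb', b.coord_apply, b.repr_self, Finsupp.single_apply]
  have hspan : ∀ x, x ∈ Submodule.span K (Set.range b) := by
    intro x
    rw [b.span_eq]
    exact Submodule.mem_top
  obtain ⟨h, ξ, hP, hmin⟩ := exists_minimal2 _ _ (exists_posS hpar b n)
  have hG := (posS_iff hpar hspan hd n h ξ).1 hP
  obtain ⟨i₀, hp⟩ := exists_normal' hpar (by omega : 1 ≤ n) (exp_col hd hspan h) hG
  -- the normalising constant vanishes
  have hdual : ∀ i j, i ≠ j → W.tr X (colB b (h : Matrix _ _ K) i *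
      rowB b' ((h⁻¹ : (Matrix _ _ K)ˣ) : Matrix _ _ K) j) = 0 := fun i j hij => by
    rw [tr_col_row hd, Units.inv_mul, Matrix.one_apply_ne (Ne.symm hij)]
  have hone : ∀ i, W.tr X (colB b (h : Matrix _ _ K) i *
      rowB b' ((h⁻¹ : (Matrix _ _ K)ˣ) : Matrix _ _ K) i) = 1 := fun i => by
    rw [tr_col_row hd, Units.inv_mul, Matrix.one_apply_eq]
  let B₀ : NWB (W := W) (X := X) hpar n (Fin (Module.finrank K (W.H X))) :=
    { v := colB b (h : Matrix _ _ K)
      v' := rowB b' ((h⁻¹ : (Matrix _ _ K)ˣ) : Matrix _ _ K)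
      ξ := fun i => ξ i - ξ i₀
      dual := hdual
      one := hone
      exp := exp_col hd hspan h
      neg := fun m hm Y hY a h0 => (hp m hm Y hY a).1 h0
      pos := fun m hm Y hY a h0 => ((hp m hm Y hY a).2 h0).1 }
  have hs1 : ∑ i, (ξ i - ξ i₀) = 0 := sum_xi B₀ hn
  have hs2 : ∑ i, ξ i = 0 := by
    have h1 := first_order_eq hP (fun ξ' h' => hmin h ξ' h') (fun _ => 1)
      (fun x _ a b _ _ => by unfold wt; simp) (fun x _ a b _ _ => by unfold wt; simp)
    simpa using h1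
  have hi₀ : ξ i₀ = 0 := by
    rw [Finset.sum_sub_distrib, hs2, Finset.sum_const, Finset.card_univ, Fintype.card_fin,
      nsmul_eq_mul, zero_sub, neg_eq_zero] at hs1
    rcases mul_eq_zero.1 hs1 with h1 | h1
    · exact absurd (Nat.cast_eq_zero.1 h1) (by
        have := i₀.2
        omega)
    · exact h1
  let B₁ : NWB (W := W) (X := X) hpar n (Fin (Module.finrank K (W.H X))) :=
    { v := colB b (h : Matrix _ _ K)
      v' := rowB b' ((h⁻¹ : (Matrix _ _ K)ˣ) : Matrix _ _ K)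
      ξ := ξ
      dual := hdual
      one := hone
      exp := exp_col hd hspan h
      neg := fun m hm Y hY a h0 => by
        have h1 := (hp m hm Y hY a).1 h0
        simpa only [hi₀, sub_zero] using h1
      pos := fun m hm Y hY a h0 => by
        have h1 := ((hp m hm Y hY a).2 h0).1
        simpa only [hi₀, sub_zero] using h1 }
  -- rationality
  choose q hq using fun r => rational_of_minimal hP (fun ξ' h' => hmin h ξ' h') r
  obtain ⟨D₀, hD₀, z₀, hz₀⟩ := exists_denom q
  have hz₀R : ∀ r, (z₀ r : ℝ) = D₀ * ξ r := by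
    intro r
    rw [hq]
    have h1 := hz₀ r
    exact_mod_cast h1
  obtain ⟨D, hDdef⟩ : ∃ D : ℕ, D = D₀ * D₀ := ⟨_, rfl⟩
  obtain ⟨z, hzdef⟩ : ∃ z : Fin (Module.finrank K (W.H X)) → ℤ, ∀ r, z r = D₀ * z₀ r := ⟨_, fun r => rfl⟩
  have hD : 0 < D := by rw [hDdef]; positivity
  have hDR : (0 : ℝ) < D := by exact_mod_cast hD
  have hD1 : (1 : ℝ) ≤ D := by exact_mod_cast hD
  have hz : ∀ r, (z r : ℝ) = D * ξ r := by
    intro r
    rw [hzdef, hDdef]
    push_cast
    rw [hz₀R]; ring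
  have hzR : ∀ r, (z r : ℝ) = D * (ξ r - ξ i₀) := by
    intro r
    rw [hz, hi₀, sub_zero]
  have hsumz : ∀ {m : ℕ} (a : Fin m → Fin (Module.finrank K (W.H X))),
      ∑ s, ((z (a s) : ℤ) : ℝ) = D * ∑ s, (ξ (a s) - ξ i₀) := by
    intro m a
    rw [Finset.mul_sum]
    exact Finset.sum_congr rfl fun s _ => hzR _
  let B : NWB (W := W) (X := X) hpar n (Fin (Module.finrank K (W.H X))) :=
    { v := colB b (h : Matrix _ _ K)
      v' := rowB b' ((h⁻¹ : (Matrix _ _ K)ˣ) : Matrix _ _ K)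
      ξ := fun i => (z i : ℝ)
      dual := hdual
      one := hone
      exp := exp_col hd hspan h
      neg := fun m hm Y hY a h0 => by
        have h1 := (hp m hm Y hY a).1 h0
        rw [hsumz]
        refine ⟨mul_nonpos_of_nonneg_of_nonpos hDR.le h1.1, fun hnt => ?_⟩
        have h2 := mul_le_mul_of_nonneg_left (h1.2 hnt) hDR.le
        linarith
      pos := fun m hm Y hY a h0 => by
        rw [hsumz]
        exact mul_nonneg hDR.le ((hp m hm Y hY a).2 h0).1 }
  refine ⟨_, B, z, fun i => rfl, fun T hT => ?_⟩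
  have hr₀ : (((∑ i, z₀ i ^ 2).toNat : ℕ) : ℝ) = D * ∑ i, B₁.ξ i ^ 2 := by
    have h1 : (((∑ i, z₀ i ^ 2).toNat : ℕ) : ℤ) = ∑ i, z₀ i ^ 2 :=
      Int.toNat_of_nonneg (Finset.sum_nonneg fun i _ => sq_nonneg _)
    have h2 : (((∑ i, z₀ i ^ 2).toNat : ℕ) : ℝ) = ((∑ i, z₀ i ^ 2 : ℤ) : ℝ) := by
      rw [← h1]; push_cast; rfl
    rw [h2, hDdef, Finset.mul_sum]
    push_cast
    refine Finset.sum_congr rfl fun i _ => ?_
    rw [hz₀R]
    change _ = (D₀ : ℝ) * D₀ * ξ i ^ 2
    ring
  exact det_main_rat hp' hn hd hspan B₁ (h := h) rfl rfl hP hmin hne hD hz hr₀ hT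

end GTh
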