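import Pool.Agent.W_f569db_g.ThetaT
import Pool.Agent.W_f569db_g.ContrT

set_option autoImplicit false

noncomputable section

namespace GTh

open AlgebraicGeometry CategoryTheory MonoidalCategory
open scoped TensorProduct DirectSum
open Pool.Agent.WeilH_h6 Pool.Agent.WeilH_h6.VarClass Pool.Agent.WeilH_h6.Weil H13F T2F

universe u v w

variable {k : Type u} [Field k] {𝒱 : VarClass k} {K : Type v} [Field K] {W : Weil.{u, v, w} 𝒱 K}

variable [CharZero K] {T : W.RatTheory} {X : 𝒱.Obj}

/-- The inverse of the matching. -/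
private def CramerA_g {M : ℕ} (x₀ : Fin M) : (Fin M ⊕ Unit) ⊕ (Fin M ⊕ Unit) → Fin ((M + M) + 2)
  | Sum.inl (Sum.inl i) => Fin.castAdd 2 (Fin.castAdd M i)
  | Sum.inl (Sum.inr _) => Fin.castAdd 2 (Fin.natAdd M x₀)
  | Sum.inr (Sum.inl i) => if i = x₀ then Fin.natAdd (M + M) 0 else Fin.castAdd 2 (Fin.natAdd M i)
  | Sum.inr (Sum.inr _) => Fin.natAdd (M + M) 1

private theorem CramerA_inj {M : ℕ} (x₀ : Fin M) : Function.Injective (CramerA_g x₀) := by
  rintro ((i | _) | (i | _)) ((j | _) | (j | _)) h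
  all_goals
    simp only [CramerA_g] at h
    try split_ifs at h
    all_goals
      try (have h' := congrArg Fin.val h
           simp only [Fin.val_castAdd, Fin.val_natAdd, Fin.val_zero, Fin.val_one] at h')
      first
        | rfl
        | (exfalso; omega)
        | (have h2 : i = j := Fin.ext (by omega)
           rw [h2])

/-- The matching of the slots of `X^M × X^M × X^2`: for `i ≠ x₀` the slot `i` of the first block with the
slot `i` of the second block, the slot `x₀` of the first block with the slot `0` of the last block, the slot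
`x₀` of the second block with the slot `1` of the last block.

Proof: the inverse map is given; it is injective and the cardinalities agree. -/
theorem exists_match {M : ℕ} (x₀ : Fin M) :
    ∃ e : Fin ((M + M) + 2) ≃ (Fin M ⊕ Unit) ⊕ (Fin M ⊕ Unit),
      (∀ i, e.symm (Sum.inl (Sum.inl i)) = Fin.castAdd 2 (Fin.castAdd M i)) ∧
      e.symm (Sum.inl (Sum.inr ())) = Fin.castAdd 2 (Fin.natAdd M x₀) ∧
      (∀ i, e.symm (Sum.inr (Sum.inl i)) =
        if i = x₀ then Fin.natAdd (M + M) 0 else Fin.castAdd 2 (Fin.natAdd M i)) ∧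
      e.symm (Sum.inr (Sum.inr ())) = Fin.natAdd (M + M) 1 := by
  have hb : Function.Bijective (CramerA_g x₀) := by
    rw [Fintype.bijective_iff_injective_and_card]
    refine ⟨CramerA_inj x₀, ?_⟩
    simp only [Fintype.card_sum, Fintype.card_fin, Fintype.card_unit]
    omega
  exact ⟨(Equiv.ofBijective _ hb).symm, fun i => rfl, rfl, fun i => rfl, rfl⟩

/-- The case of a pure tensor. -/
private theorem CramerA_pure (hpar : W.par X ∈ W.algHom X X) {M : ℕ} (x₀ : Fin M)
    {e : Fin ((M + M) + 2) ≃ (Fin M ⊕ Unit) ⊕ (Fin M ⊕ Unit)}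
    (he1 : ∀ i, e.symm (Sum.inl (Sum.inl i)) = Fin.castAdd 2 (Fin.castAdd M i))
    (he2 : e.symm (Sum.inl (Sum.inr ())) = Fin.castAdd 2 (Fin.natAdd M x₀))
    (he3 : ∀ i, e.symm (Sum.inr (Sum.inl i)) =
        if i = x₀ then Fin.natAdd (M + M) 0 else Fin.castAdd 2 (Fin.natAdd M i))
    (he4 : e.symm (Sum.inr (Sum.inr ())) = Fin.natAdd (M + M) 1)
    {Θ : W.H (X.pow ((M + M) + 2))}
    (hΘ : ∀ w : Fin ((M + M) + 2) → W.H X, fB hpar ((M + M) + 2) Θ (W.pureT w) =
      ∏ t : Fin M ⊕ Unit, W.tr X (w (e.symm (Sum.inl t)) * w (e.symm (Sum.inr t))))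
    (w : Fin M → W.H X) (x v : W.H X) (Y : W.H (X.pow M)) :
    fB hpar ((M + M) + 2) Θ (W.box2 (W.box2 Y (W.pureT w)) (W.pureT ![x, v])) =
      fB hpar M Y (W.pureT (Function.update w x₀ x)) * W.tr X (w x₀ * v) := by
  refine W.pure_induction (P := fun Y => fB hpar ((M + M) + 2) Θ
    (W.box2 (W.box2 Y (W.pureT w)) (W.pureT ![x, v])) =
      fB hpar M Y (W.pureT (Function.update w x₀ x)) * W.tr X (w x₀ * v)) ?_ ?_ ?_ Y
  · intro a b ha hb
    have h1 : W.box2 (a + b) (W.pureT w) = W.box2 a (W.pureT w) + W.box2 b (W.pureT w) := by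
      unfold box2; rw [map_add, add_mul]
    have h2 : W.box2 (W.box2 a (W.pureT w) + W.box2 b (W.pureT w)) (W.pureT ![x, v]) =
        W.box2 (W.box2 a (W.pureT w)) (W.pureT ![x, v]) +
          W.box2 (W.box2 b (W.pureT w)) (W.pureT ![x, v]) := by
      unfold box2; rw [map_add, add_mul]
    rw [h1, h2, fB_add_right, ha, hb, fB_add_left, add_mul]
  · intro c a ha
    have h1 : W.box2 (c • a) (W.pureT w) = c • W.box2 a (W.pureT w) := by
      unfold box2; rw [map_smul, smul_mul_assoc]
    have h2 : W.box2 (c • W.box2 a (W.pureT w)) (W.pureT ![x, v]) =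
        c • W.box2 (W.box2 a (W.pureT w)) (W.pureT ![x, v]) := by
      unfold box2; rw [map_smul, smul_mul_assoc]
    rw [h1, h2, fB_smul_right, ha, fB_smul_left, mul_assoc]
  · intro u
    rw [box2_pureT, box2_pureT, hΘ, Fintype.prod_sum_type, fB_pureT]
    congr 1
    · refine Finset.prod_congr rfl fun i _ => ?_
      rw [he1, he3, Fin.append_left, Fin.append_left]
      by_cases hi : i = x₀
      · subst hi
        rw [if_pos rfl, Function.update_self, Fin.append_right]
        rfl
      · rw [if_neg hi, Function.update_of_ne hi, Fin.append_left, Fin.append_right]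
    · rw [Fintype.prod_unique]
      rw [show (default : Unit) = () from rfl, he2, he4, Fin.append_left, Fin.append_right,
        Fin.append_right]
      rfl

/-- Contraction of two classes of the theory in all slots but one.

Proof.  Let `e` be the matching of `exists_match x₀` and `Θ` the class of `exists_theta_T hp hpar e`;
`exists_contr_cls_T` for `Θ` and `C = W.box2 Y Z` (`box2_mem_T`) gives `A` with
`fB A (pureT ![x, v]) = fB Θ (W.box2 (W.box2 Y Z) (W.pureT ![x, v]))`.  The right hand side is linear in `Y` and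
in `Z` (`box2` is bilinear, see `ContrCls_box2_add_left` etc. in W_f569db_t2/ContrCls.lean, `fBL`), so one
may take `Z = pureT w`, and then, by `W.pure_induction`, `Y = pureT u`.  In this case `box2_pureT` twice and
the formula for `Θ` give (`Fintype.prod_sum_type`)
`(∏ i, tr (u i * (if i = x₀ then x else w i))) * (tr (w x₀ * v))`, and
`fB (pureT u) (pureT (update w x₀ x)) = ∏ i, tr (u i * update w x₀ x i)` by `fB_pureT`. -/
theorem cramer_class (hp : THom T (W.par X)) (hpar : W.par X ∈ W.algHom X X) {M : ℕ} (x₀ : Fin M)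
    {Y Z : W.H (X.pow M)} (hY : Y ∈ T.C _) (hZ : Z ∈ T.C _) :
    ∃ A ∈ T.C (X.pow 2), ∀ (ι : Type) [Fintype ι] (c : ι → K) (w : ι → Fin M → W.H X),
      Z = ∑ i, c i • W.pureT (w i) → ∀ x v, fB hpar 2 A (W.pureT ![x, v]) =
        ∑ i, c i * (fB hpar M Y (W.pureT (Function.update (w i) x₀ x)) * W.tr X (w i x₀ * v)) := by
  obtain ⟨e, he1, he2, he3, he4⟩ := exists_match x₀
  obtain ⟨Θ, hΘ, hΘ2⟩ := exists_theta_T hp hpar e
  obtain ⟨A, hA, hA2⟩ := exists_contr_cls_T hp hpar hΘ (box2_mem_T hY hZ)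
  refine ⟨A, hA, ?_⟩
  intro ι _ c w hZw x v
  rw [hA2]
  let L : W.H (X.pow M) →ₗ[K] K :=
    { toFun := fun z => fB hpar ((M + M) + 2) Θ (W.box2 (W.box2 Y z) (W.pureT ![x, v]))
      map_add' := by
        intro a b
        have h1 : W.box2 Y (a + b) = W.box2 Y a + W.box2 Y b := by
          unfold box2; rw [map_add, mul_add]
        have h2 : W.box2 (W.box2 Y a + W.box2 Y b) (W.pureT ![x, v]) =
            W.box2 (W.box2 Y a) (W.pureT ![x, v]) + W.box2 (W.box2 Y b) (W.pureT ![x, v]) := by
          unfold box2; rw [map_add, add_mul]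
        rw [h1, h2, fB_add_right]
      map_smul' := by
        intro r a
        have h1 : W.box2 Y (r • a) = r • W.box2 Y a := by
          unfold box2; rw [map_smul, mul_smul_comm]
        have h2 : W.box2 (r • W.box2 Y a) (W.pureT ![x, v]) =
            r • W.box2 (W.box2 Y a) (W.pureT ![x, v]) := by
          unfold box2; rw [map_smul, smul_mul_assoc]
        rw [h1, h2, fB_smul_right, RingHom.id_apply, smul_eq_mul] }
  have hL : L Z = fB hpar ((M + M) + 2) Θ (W.box2 (W.box2 Y Z) (W.pureT ![x, v])) := rfl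
  rw [← hL, hZw, map_sum]
  refine Finset.sum_congr rfl fun i _ => ?_
  rw [map_smul, smul_eq_mul]
  congr 1
  exact CramerA_pure hpar x₀ he1 he2 he3 he4 hΘ2 (w i) x v Y

end GTh
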