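import Pool.Agent.W_f569db_g.CramerA
import Pool.Agent.W_f569db_t2.DetConv

set_option autoImplicit false

noncomputable section

namespace GTh

open AlgebraicGeometry CategoryTheory MonoidalCategory
open scoped TensorProduct DirectSum
open Pool.Agent.WeilH_h6 Pool.Agent.WeilH_h6.VarClass Pool.Agent.WeilH_h6.Weil H13F T2F

universe u v w

variable {k : Type u} [Field k] {𝒱 : VarClass k} {K : Type v} [Field K] {W : Weil.{u, v, w} 𝒱 K}

variable [CharZero K] {T : W.RatTheory} {X : 𝒱.Obj}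

/-- Antisymmetrisation of a class of the theory over the permutations which preserve `β`.

Proof: `Y' = ∑ τ, [β ∘ τ = β] sign τ • U_τ Y` with `U_τ` from `exists_uperm_T hp hpar τ`
(`fB (U_τ Y) (pureT v) = fB Y (pureT (v ∘ τ))`), `sign_smul_T`, `sum_mem`. -/
theorem exists_asym_T (hp : THom T (W.par X)) (hpar : W.par X ∈ W.algHom X X) {M : ℕ}
    (β : Fin M → ℤ × ℕ) {Y : W.H (X.pow M)} (hY : Y ∈ T.C _) :
    ∃ Y' ∈ T.C (X.pow M), ∀ v : Fin M → W.H X, fB hpar M Y' (W.pureT v) =
      ∑ τ : Equiv.Perm (Fin M), if ∀ s, β (τ s) = β s then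
        ((Equiv.Perm.sign τ : ℤ) : K) * fB hpar M Y (W.pureT fun s => v (τ s)) else 0 := by
  have hU := fun τ : Equiv.Perm (Fin M) => exists_uperm_T (T := T) hp hpar τ
  choose U hU1 hU2 hU3 using hU
  refine ⟨∑ τ : Equiv.Perm (Fin M), if ∀ s, β (τ s) = β s then
        ((Equiv.Perm.sign τ : ℤ) : K) • U τ Y else 0, ?_, ?_⟩
  · refine sum_mem fun τ _ => ?_
    split_ifs
    · refine sign_smul_T (hU2 τ Y hY) ?_
      rcases Int.units_eq_one_or (Equiv.Perm.sign τ) with h | h <;> rw [h] <;> simp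
    · exact zero_mem _
  · intro v
    rw [← fBL_apply, map_sum, LinearMap.sum_apply]
    refine Finset.sum_congr rfl fun τ _ => ?_
    split_ifs
    · rw [map_smul, LinearMap.smul_apply, fBL_apply, hU3, smul_eq_mul]
    · rw [map_zero, LinearMap.zero_apply]

/-- The sign is its own inverse. -/
theorem CramerB_sign_mul (K : Type v) [Field K] {M : ℕ} (τ : Equiv.Perm (Fin M)) :
    ((Equiv.Perm.sign τ : ℤ) : K) * ((Equiv.Perm.sign τ : ℤ) : K) = 1 := by
  rw [← Int.cast_mul, ← Units.val_mul, Int.units_mul_self, Units.val_one, Int.cast_one]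

omit [CharZero K] in
/-- An alternating sum over the permutations which preserve `β` changes by the sign under such a
permutation.  Proof: as `T2F.flatI_asym_perm` (file W_f569db_t2/AltNT.lean). -/
theorem asym_perm {M : ℕ} (β : Fin M → ℤ × ℕ) (y : (Fin M → W.H X) → K) (v : Fin M → W.H X)
    (σ : Equiv.Perm (Fin M)) (hσ : ∀ s, β (σ s) = β s) :
    (∑ τ : Equiv.Perm (Fin M), if ∀ s, β (τ s) = β s then
      ((Equiv.Perm.sign τ : ℤ) : K) * y (fun s => v (σ (τ s))) else 0) =
      ((Equiv.Perm.sign σ : ℤ) : K) * ∑ τ : Equiv.Perm (Fin M), if ∀ s, β (τ s) = β s then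
        ((Equiv.Perm.sign τ : ℤ) : K) * y (fun s => v (τ s)) else 0 := by
  rw [← Equiv.sum_comp (Equiv.mulLeft σ) (fun τ : Equiv.Perm (Fin M) =>
    if ∀ s, β (τ s) = β s then
      ((Equiv.Perm.sign τ : ℤ) : K) * y (fun s => v (τ s)) else 0), Finset.mul_sum]
  refine Finset.sum_congr rfl fun τ _ => ?_
  have hiff : (∀ x, β ((Equiv.mulLeft σ τ) x) = β x) ↔ ∀ x, β (τ x) = β x := by
    refine forall_congr' fun x => ?_
    rw [Equiv.coe_mulLeft, Equiv.Perm.mul_apply, hσ]
  by_cases h : ∀ x, β (τ x) = β x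
  · rw [if_pos h, if_pos (hiff.2 h), Equiv.coe_mulLeft, Equiv.Perm.sign_mul]
    have h1 := CramerB_sign_mul K σ
    have h2 : (((Equiv.Perm.sign σ * Equiv.Perm.sign τ : ℤˣ) : ℤ) : K)
        = ((Equiv.Perm.sign σ : ℤ) : K) * ((Equiv.Perm.sign τ : ℤ) : K) := by
      rw [Units.val_mul, Int.cast_mul]
    rw [h2, ← mul_assoc, ← mul_assoc, h1, one_mul]
    rfl
  · rw [if_neg h, if_neg (fun h' => h (hiff.1 h')), mul_zero]

/-- It vanishes if two vectors with the same value of `β` are equal.  Proof: as `T2F.flatI_asym_zero`. -/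
theorem asym_zero {M : ℕ} (β : Fin M → ℤ × ℕ) (y : (Fin M → W.H X) → K) (v : Fin M → W.H X)
    {s s' : Fin M} (hs : s ≠ s') (hβ : β s = β s') (hv : v s = v s') :
    (∑ τ : Equiv.Perm (Fin M), if ∀ s, β (τ s) = β s then
      ((Equiv.Perm.sign τ : ℤ) : K) * y (fun s => v (τ s)) else 0) = 0 := by
  have hτ : ∀ z, β (Equiv.swap s s' z) = β z := by
    intro z
    rw [Equiv.swap_apply_def]
    split_ifs with h1 h2
    · rw [h1, hβ]
    · rw [h2, hβ]
    · rfl
  have hvτ : (fun z => v (Equiv.swap s s' z)) = v := by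
    funext z
    rw [Equiv.swap_apply_def]
    split_ifs with h1 h2
    · rw [h1, hv]
    · rw [h2, hv]
    · rfl
  have h1 := asym_perm (W := W) (X := X) β y v (Equiv.swap s s') hτ
  rw [Equiv.Perm.sign_swap hs] at h1
  have h2 : ((((-1 : ℤˣ) : ℤ)) : K) = -1 := by simp
  rw [h2, neg_one_mul] at h1
  have h3 : ∀ τ : Equiv.Perm (Fin M), (fun z => v (Equiv.swap s s' (τ z))) = fun z => v (τ z) := by
    intro τ
    funext z
    exact congrFun hvτ (τ z)
  simp only [h3] at h1
  exact self_eq_neg.1 h1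

/-- The number of the permutations preserving `β` which map `x₀` to `s` does not depend on `s`,
`β s = β x₀`.  Proof: `σ ↦ Equiv.swap x₀ s * σ` is a bijection (`Finset.card_bij` or
`Fintype.card_congr`). -/
theorem card_perm_eq {M : ℕ} (β : Fin M → ℤ × ℕ) {x₀ s : Fin M} (hs : β s = β x₀) :
    (Finset.univ.filter fun σ : Equiv.Perm (Fin M) => (∀ s, β (σ s) = β s) ∧ σ x₀ = s).card =
      (Finset.univ.filter fun σ : Equiv.Perm (Fin M) => (∀ s, β (σ s) = β s) ∧ σ x₀ = x₀).card := by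
  have hτ : ∀ z, β (Equiv.swap x₀ s z) = β z := by
    intro z
    rw [Equiv.swap_apply_def]
    split_ifs with h1 h2
    · rw [h1, hs]
    · rw [h2, hs]
    · rfl
  refine Finset.card_bij (fun σ _ => Equiv.swap x₀ s * σ) ?_ ?_ ?_
  · intro σ hσ
    rw [Finset.mem_filter] at hσ ⊢
    refine ⟨Finset.mem_univ _, fun z => ?_, ?_⟩
    · rw [Equiv.Perm.mul_apply, hτ, hσ.2.1]
    · rw [Equiv.Perm.mul_apply, hσ.2.2, Equiv.swap_apply_right]
  · intro σ _ σ' _ h
    exact mul_left_cancel h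
  · intro σ hσ
    rw [Finset.mem_filter] at hσ
    refine ⟨Equiv.swap x₀ s * σ, ?_, ?_⟩
    · rw [Finset.mem_filter]
      refine ⟨Finset.mem_univ _, fun z => ?_, ?_⟩
      · rw [Equiv.Perm.mul_apply, hτ, hσ.2.1]
      · rw [Equiv.Perm.mul_apply, hσ.2.2, Equiv.swap_apply_left]
    · exact Equiv.swap_mul_self_mul x₀ s σ

/-- A class of the theory with a nonzero value of the unsigned form. -/
theorem CramerB_exists (hp : THom T (W.par X)) (hpar : W.par X ∈ W.algHom X X) {M : ℕ}
    {Z : W.H (X.pow M)} (hZ : Z ∈ T.C (X.pow M)) (hne : Z ≠ 0) (hT : T.NumEq (X.pow M)) :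
    ∃ Y ∈ T.C (X.pow M), fB hpar M Y Z ≠ 0 := by
  by_contra hcon
  push Not at hcon
  refine hne (hT Z hZ fun b hb => ?_)
  by_contra hb0
  have h1 : W.tr (X.pow M) (b * Z) ≠ 0 := by
    rw [central_T hb]
    exact hb0
  obtain ⟨π, hπ⟩ := exists_powPr_ne hpar h1
  exact hπ (hcon _ (powPr_mem_T hp π hb))

/-- Cramer's rule: the operator attached to the determinant class.

Proof.  Put `Z = S • detClass W w β ∈ T.C`, `Z ≠ 0`.  By `hT` there is `w₀ ∈ T.C` with
`tr (Z * w₀) ≠ 0`, so `tr (w₀ * Z) ≠ 0` (`central_T`), and by `exists_powPr_ne` and `powPr_mem_T` there is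
`Y₀ ∈ T.C` with `fB Y₀ Z ≠ 0`.  Let `Y` be the antisymmetrisation of `Y₀` (`exists_asym_T`) and write
`y v = fB Y (pureT v)`.  Expanding `detClass` (`fBL`, linearity), `fB Y₀ Z = S * y w` (the sum over `τ` in
the formula for `Y` is the sum over `σ` in `detClass`), so `y w ≠ 0`.  Let `A` be the class of
`cramer_class hp hpar x₀` for `Y`, `Z`; with `Z = ∑ σ, (if β ∘ σ = β then S * sign σ else 0) • pureT (w ∘ σ)`
`fB A (pureT ![x, v]) = ∑ σ, (if β ∘ σ = β then S * sign σ else 0) *
(y (update (w ∘ σ) x₀ x) * tr (w (σ x₀) * v))`.  Define the linear map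
`e x = ∑ σ, ((if β ∘ σ = β then S * sign σ else 0) * y (update (w ∘ σ) x₀ x)) • w (σ x₀)`
(`LinearMap.smulRight`; `x ↦ y (update u x₀ x)` is linear: `(W.pureM X M).toLinearMap u x₀` composed with
`fBL hpar M Y`), so `fB A (pureT ![x, v]) = tr (e x * v)` and `THom T e` by `end_of_fB_T`.  The values of
`e` are in the span of the `w (σ x₀)` with `β (σ x₀) = β x₀`.  Let `β s = β x₀`.  In `e (w s)` a term with
`β ∘ σ = β` and `σ x₀ ≠ s` is zero: with `x₁ = σ⁻¹ s ≠ x₀` the family `update (w ∘ σ) x₀ (w s)` has the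
same value at `x₀` and at `x₁`, and `β x₁ = β s = β x₀` (`asym_zero`, through the formula for `Y`).  If
`σ x₀ = s` then `update (w ∘ σ) x₀ (w s) = w ∘ σ` and `y (w ∘ σ) = sign σ * y w` (`asym_perm`), so the
term is `S * y w • w s`.  Hence `e (w s) = κ • w s` with `κ = N * (S * y w)`, where `N` is the number of
`card_perm_eq`, which is positive (`σ = 1`). -/
theorem exists_operator (hp : THom T (W.par X)) (hpar : W.par X ∈ W.algHom X X) {M : ℕ}
    {w : Fin M → W.H X} {β : Fin M → ℤ × ℕ} {S : K} (hS : S ≠ 0)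
    (hZ : S • detClass W w β ∈ T.C (X.pow M)) (hne : detClass W w β ≠ 0)
    (hT : T.NumEq (X.pow M)) (x₀ : Fin M) :
    ∃ (e : W.H X →ₗ[K] W.H X) (κ : K), κ ≠ 0 ∧ THom T e ∧
      (∀ x, e x ∈ Submodule.span K (w '' {s | β s = β x₀})) ∧
      ∀ s, β s = β x₀ → e (w s) = κ • w s := by
  obtain ⟨Y₀, hY₀, hY₀Z⟩ := CramerB_exists hp hpar hZ (smul_ne_zero hS hne) hT
  obtain ⟨Y, hY, hYv⟩ := exists_asym_T hp hpar β hY₀
  obtain ⟨c, hc⟩ : ∃ c : Equiv.Perm (Fin M) → K, ∀ σ, c σ =
      if ∀ s, β (σ s) = β s then S * ((Equiv.Perm.sign σ : ℤ) : K) else 0 := ⟨_, fun σ => rfl⟩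
  have hZs : S • detClass W w β =
      ∑ σ : Equiv.Perm (Fin M), c σ • W.pureT (fun s => w (σ s)) := by
    unfold detClass
    rw [Finset.smul_sum]
    refine Finset.sum_congr rfl fun σ _ => ?_
    rw [hc]
    split_ifs
    · rw [smul_smul]
    · rw [smul_zero, zero_smul]
  -- the value of the alternating form
  have hyw : fB hpar M Y₀ (S • detClass W w β) = S * fB hpar M Y (W.pureT w) := by
    rw [hZs, ← fBL_apply, map_sum, hYv, Finset.mul_sum]
    refine Finset.sum_congr rfl fun σ _ => ?_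
    rw [map_smul, fBL_apply, hc, smul_eq_mul]
    split_ifs
    · rw [mul_assoc]
    · rw [zero_mul, mul_zero]
  have hyw0 : fB hpar M Y (W.pureT w) ≠ 0 := by
    intro h0
    rw [hyw, h0, mul_zero] at hY₀Z
    exact hY₀Z rfl
  obtain ⟨A, hA, hAv⟩ := cramer_class hp hpar x₀ hY hZ
  have hAv' := hAv (Equiv.Perm (Fin M)) c (fun σ s => w (σ s)) hZs
  -- the operator
  obtain ⟨e, he⟩ : ∃ e : W.H X →ₗ[K] W.H X, ∀ x, e x = ∑ σ : Equiv.Perm (Fin M),
      (c σ * fB hpar M Y (W.pureT (Function.update (fun s => w (σ s)) x₀ x))) • w (σ x₀) := by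
    refine ⟨∑ σ : Equiv.Perm (Fin M), (c σ • ((fBL hpar M Y) ∘ₗ
      ((W.pureM X M).toLinearMap (fun s => w (σ s)) x₀))).smulRight (w (σ x₀)), fun x => ?_⟩
    rw [LinearMap.sum_apply]
    refine Finset.sum_congr rfl fun σ _ => ?_
    rw [LinearMap.smulRight_apply, LinearMap.smul_apply, LinearMap.comp_apply,
      MultilinearMap.toLinearMap_apply, pureM_apply, fBL_apply, smul_eq_mul]
  have heT : THom T e := by
    refine end_of_fB_T hp hpar hA fun x v => ?_
    rw [hAv', he, Finset.sum_mul, map_sum]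
    refine Finset.sum_congr rfl fun σ _ => ?_
    rw [smul_mul_assoc, map_smul, smul_eq_mul, mul_assoc]
  obtain ⟨N, hN⟩ : ∃ N : ℕ, N = (Finset.univ.filter fun σ : Equiv.Perm (Fin M) =>
      (∀ s, β (σ s) = β s) ∧ σ x₀ = x₀).card := ⟨_, rfl⟩
  have hN0 : (N : K) ≠ 0 := by
    rw [Nat.cast_ne_zero, hN]
    apply Finset.card_ne_zero_of_mem (a := (1 : Equiv.Perm (Fin M)))
    rw [Finset.mem_filter]
    exact ⟨Finset.mem_univ _, fun s => rfl, rfl⟩
  refine ⟨e, (N : K) * (S * fB hpar M Y (W.pureT w)),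
    mul_ne_zero hN0 (mul_ne_zero hS hyw0), heT, fun x => ?_, fun s hs => ?_⟩
  · rw [he]
    refine Submodule.sum_mem _ fun σ _ => ?_
    by_cases hσ : ∀ s, β (σ s) = β s
    · exact Submodule.smul_mem _ _ (Submodule.subset_span ⟨σ x₀, hσ x₀, rfl⟩)
    · rw [hc, if_neg hσ, zero_mul, zero_smul]
      exact Submodule.zero_mem _
  · rw [he]
    have hterm : ∀ σ : Equiv.Perm (Fin M),
        (c σ * fB hpar M Y (W.pureT (Function.update (fun s => w (σ s)) x₀ (w s)))) •
          w (σ x₀) = if (∀ s, β (σ s) = β s) ∧ σ x₀ = s then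
            (S * fB hpar M Y (W.pureT w)) • w s else 0 := by
      intro σ
      by_cases hσ : ∀ s, β (σ s) = β s
      · by_cases hsx : σ x₀ = s
        · rw [if_pos ⟨hσ, hsx⟩, hc, if_pos hσ]
          have h1 : Function.update (fun s => w (σ s)) x₀ (w s) = fun s => w (σ s) := by
            rw [Function.update_eq_self_iff]
            exact (congrArg w hsx).symm
          have h2 : fB hpar M Y (W.pureT fun s => w (σ s)) =
              ((Equiv.Perm.sign σ : ℤ) : K) * fB hpar M Y (W.pureT w) := by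
            rw [hYv, hYv]
            exact asym_perm (W := W) (X := X) β (fun v => fB hpar M Y₀ (W.pureT v)) w σ hσ
          have h3 : S * ((Equiv.Perm.sign σ : ℤ) : K) *
              (((Equiv.Perm.sign σ : ℤ) : K) * fB hpar M Y (W.pureT w)) =
              S * fB hpar M Y (W.pureT w) := by
            have h4 := CramerB_sign_mul K σ
            linear_combination (S * fB hpar M Y (W.pureT w)) * h4
          rw [h1, h2, h3, hsx]
        · rw [if_neg (fun h => hsx h.2)]
          have h1 : fB hpar M Y (W.pureT (Function.update (fun s => w (σ s)) x₀ (w s))) = 0 := by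
            rw [hYv]
            have hne' : x₀ ≠ σ.symm s := by
              intro h
              apply hsx
              rw [h, Equiv.apply_symm_apply]
            refine asym_zero (W := W) (X := X) β (fun v => fB hpar M Y₀ (W.pureT v))
              (Function.update (fun s => w (σ s)) x₀ (w s)) hne' ?_ ?_
            · have h2 := hσ (σ.symm s)
              rw [Equiv.apply_symm_apply] at h2
              rw [← h2, hs]
            · rw [Function.update_self, Function.update_of_ne hne'.symm, Equiv.apply_symm_apply]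
          rw [h1, mul_zero, zero_smul]
      · rw [if_neg (fun h => hσ h.1), hc, if_neg hσ, zero_mul, zero_smul]
    rw [Finset.sum_congr rfl fun σ _ => hterm σ, ← Finset.sum_filter, Finset.sum_const,
      card_perm_eq β hs, ← hN, ← Nat.cast_smul_eq_nsmul K, smul_smul]

end GTh
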