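import Pool.Agent.WeilH_h6.CondIDefs
import Pool.Agent.WeilH_h6.Pow

set_option autoImplicit false

/-!
# Theories of rational classes, polarised generators
-/

noncomputable section

namespace Pool.Agent.WeilH_h6.Weil

open AlgebraicGeometry CategoryTheory MonoidalCategory
open VarClass

universe u v w

variable {k : Type u} [Field k] {𝒱 : VarClass k} {K : Type v} [Field K] (W : Weil.{u, v, w} 𝒱 K)

/-- A family of sets `C(Y)` of cohomology classes, stable under sums, for all varieties `Y` of the class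
`𝒱`. -/
abbrev ClassFam : Type _ := ∀ Y : 𝒱.Obj, AddSubmonoid (W.H Y)

namespace ClassFam

variable {W} (C : W.ClassFam)

/-- The `C(Y)` are stable under multiplication by rational numbers. -/
def RatStable : Prop := ∀ (Y : 𝒱.Obj) (q : ℚ) (a : W.H Y), a ∈ C Y → (q : K) • a ∈ C Y

/-- The classes in `C(Y)` are sums of classes of even degree. -/
def Even : Prop := ∀ (Y : 𝒱.Obj) (a : W.H Y), a ∈ C Y → a ∈ ⨆ i : ℕ, W.grad Y (2 * i)

/-- The `C(Y)` contain the classes of cycles with rational coefficients. -/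
def HasCycles : Prop := ∀ (Y : 𝒱.Obj) (i : ℕ) (z : Cyc Y i), W.cl z ∈ C Y

/-- The `C(Y)` are stable under products. -/
def MulStable : Prop := ∀ (Y : 𝒱.Obj) (a b : W.H Y), a ∈ C Y → b ∈ C Y → a * b ∈ C Y

/-- The `C(Y)` are stable under pull-backs. -/
def PullStable : Prop := ∀ (Y Z : 𝒱.Obj) (f : Y ⟶ Z) (a : W.H Z), a ∈ C Z → W.pb f a ∈ C Y

/-- The `C(Y)` are stable under push-forwards: the push-forward of `a` along `f : Y → Z` is the element `b`
of `H(Z)` with `Tr_Z (b y) = Tr_Y (a f^* y)` for all `y`. -/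
def PushStable : Prop := ∀ (Y Z : 𝒱.Obj) (f : Y ⟶ Z) (a : W.H Y), a ∈ C Y →
  ∃ b ∈ C Z, ∀ y : W.H Z, W.deg (b * y) = W.deg (a * W.pb f y)

end ClassFam

/-- A theory of rational classes: for every variety `Y` of the class `𝒱` a set `C(Y)` of sums of classes of
even degree in `H(Y)`, stable under sums and multiplication by rational numbers, containing the classes of
the cycles with rational coefficients, and stable under products, pull-backs and push-forwards. -/
structure RatTheory where
  C : W.ClassFam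
  C_rat : C.RatStable
  C_even : C.Even
  C_cycles : C.HasCycles
  C_mul : C.MulStable
  C_pull : C.PullStable
  C_push : C.PushStable

/-- The endomorphism `φ` of `H(X)` is given by a class `α` on `X × X` with the property `A`:
`Tr (φ(v) v') = Tr (α · v × v')`. -/
def InducedBy {X : 𝒱.Obj} (A : W.H (X.prod X) → Prop) (φ : W.Hom X X) : Prop :=
  ∃ α, A α ∧ ∀ v v' : W.H X, W.deg (W.ap φ v * v') = W.deg (α * W.cross v v')

/-- The endomorphism `φ` of `H(X)` is algebraic: it is given by a class in the `K`-span of the classes of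
cycles on `X × X`. -/
def IsAlg {X : 𝒱.Obj} (φ : W.Hom X X) : Prop := W.InducedBy (fun α => α ∈ W.algSpan (X.prod X)) φ

/-- The endomorphism `φ` of `H(X)` is given by a cycle on `X × X` with rational coefficients. -/
def IsRat {X : 𝒱.Obj} (φ : W.Hom X X) : Prop := W.InducedBy (fun α => α ∈ W.ratSpan (X.prod X)) φ

/-- The parity operator of `H(X)` (multiplication by `(-1)^i` on `H^i(X)`) is given by a cycle on `X × X`
with rational coefficients. -/
def ParityRat (X : 𝒱.Obj) : Prop :=
  ∃ φ : W.Hom X X, W.IsRat φ ∧ ∀ (i : ℕ), ∀ x ∈ W.grad X i, W.ap φ x = ((-1 : K) ^ i) • x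

/-- A polarised generator `U = p H(X)` of `H(X)`: the projector `p` onto `U` is given by a cycle with
rational coefficients, `θ` and `θ'` are algebraic endomorphisms of `H(X)`, `θ'` has values in `U` and `θ` is
inverse to it in the sense that `Tr (p x · θ (θ' y)) = Tr (p x · y)`, and `H(X)` is generated, as a ring, by
`U` and the algebraic classes.  For an abelian variety one can take `U = H^1(X)` and for `θ` the Lefschetz
operator `H^1(X) → H^(2 dim X - 1)(X)`; if `X` satisfies the Lefschetz standard conjecture `B(X)` one can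
take `U = H(X)` and for `θ`, `θ'` the Hodge star operator `⋆` and its inverse. -/
structure Polarised (X : 𝒱.Obj) where
  p : W.Hom X X
  θ : W.Hom X X
  θ' : W.Hom X X
  p_rat : W.IsRat p
  θ_alg : W.IsAlg θ
  θ'_alg : W.IsAlg θ'
  p_p : ∀ x, W.ap p (W.ap p x) = W.ap p x
  p_θ' : ∀ x, W.ap p (W.ap θ' x) = W.ap θ' x
  tr_θ : ∀ x y, W.deg (W.ap p x * W.ap θ (W.ap θ' y)) = W.deg (W.ap p x * y)
  gen : Algebra.adjoin K (Set.range p ∪ (W.algSpan X : Set (W.H X))) = ⊤

variable {W}

/-- The theory is nondegenerate on `X`: only `0` is orthogonal to all classes of the theory on `X`. -/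
def RatTheory.NumEq (T : W.RatTheory) (X : 𝒱.Obj) : Prop :=
  ∀ a ∈ T.C X, (∀ b ∈ T.C X, W.deg (a * b) = 0) → a = 0

/-- The map `g` of `H(X)` to itself, semilinear for the automorphism `σ` of `K`, preserves the algebraic
classes: for all `m` a class `a ∈ H(X^m)` lies in the `K`-span of the algebraic classes if and only if its
transform `b` under `g` does: `Tr (a · q_1^* g(v_1) ⋯ q_m^* g(v_m)) = σ (Tr (b · q_1^* v_1 ⋯ q_m^* v_m))` for
all `v_1, …, v_m`, where the `q_s` are the projections `X^m → X`. -/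
def PreservesAlg {X : 𝒱.Obj} (σ : K ≃+* K) (g : W.H X → W.H X) : Prop :=
  ∀ (m : ℕ) (a b : W.H (X.pow m)),
    (∀ v, W.deg (a * W.pureT fun s => g (v s)) = σ (W.deg (b * W.pureT v))) →
      (a ∈ W.algSpan (X.pow m) ↔ b ∈ W.algSpan (X.pow m))

/-- A symmetry of `H(X)`: a map `g` of `H(X)` to itself, semilinear with respect to an automorphism `σ` of
`K` (for example linear, `σ = id`), which is compatible with Poincaré duality up to a factor `μ`, and
preserves the algebraic classes on the powers of `X`. -/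
structure Symmetry (W : Weil.{u, v, w} 𝒱 K) (X : 𝒱.Obj) where
  σ : K ≃+* K
  g : W.H X → W.H X
  μ : K
  μ_ne : μ ≠ 0
  g_add : ∀ x y, g (x + y) = g x + g y
  g_smul : ∀ (c : K) (x : W.H X), g (c • x) = σ c • g x
  duality : ∀ x y, W.deg (g x * g y) = μ * σ (W.deg (x * y))
  alg : PreservesAlg σ g

/-- The subspace `I` of the generator `U = p H(X)` is isotropic for all forms `Tr (x · ψ(y))`, and stable
under all `p ψ` and all `p g`, where `ψ` is an algebraic endomorphism and `g` a symmetry of `H(X)`. -/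
def Polarised.IsotropicStable {X : 𝒱.Obj} (P : W.Polarised X) (I : Submodule K (W.H X)) : Prop :=
  (∀ x ∈ I, W.ap P.p x = x) ∧
  (∀ ψ : W.Hom X X, W.IsAlg ψ → ∀ x ∈ I, W.ap P.p (W.ap ψ x) ∈ I ∧ ∀ y ∈ I, W.deg (x * W.ap ψ y) = 0) ∧
  ∀ S : Symmetry W X, ∀ x ∈ I, W.ap P.p (S.g x) ∈ I

/-- The subspace `I` of the generator `U = p H(X)` is cut out by the classes with the property `A` on
`X × X`: there is an endomorphism `φ = p φ p` given by a class with this property whose image is `I` and
which is the multiplication by a nonzero constant on `I`. -/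
def Polarised.CutOut {X : 𝒱.Obj} (P : W.Polarised X) (A : W.H (X.prod X) → Prop)
    (I : Submodule K (W.H X)) : Prop :=
  ∃ (φ : W.Hom X X) (c : K), W.InducedBy A φ ∧ c ≠ 0 ∧
    (∀ x, W.ap P.p (W.ap φ x) = W.ap φ x ∧ W.ap φ (W.ap P.p x) = W.ap φ x ∧ W.ap φ x ∈ I) ∧
    ∀ x ∈ I, W.ap φ x = c • x

end Pool.Agent.WeilH_h6.Weil
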