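import Pool.Agent.W_f569db_g.Th
import Pool.Agent.W_f569db_t2.DetConv
import Pool.Agent.W_f569db_t2.DetNe

set_option autoImplicit false

noncomputable section

namespace GTh

open AlgebraicGeometry CategoryTheory MonoidalCategory
open scoped TensorProduct DirectSum
open Pool.Agent.WeilH_h6 Pool.Agent.WeilH_h6.VarClass Pool.Agent.WeilH_h6.Weil H13F T2F

universe u v w

variable {k : Type u} [Field k] {𝒱 : VarClass k} {K : Type v} [Field K] {W : Weil.{u, v, w} 𝒱 K}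

/-- For some `N ≥ 1` the line `⨂_{t ≥ 1} det(F^t)^{⊗ N}` in `H(X)^{⊗ M} = H(X^M)` is spanned by a
numerically trivial sum of classes of cycles with rational coefficients. -/
def DetRat {X : 𝒱.Obj} (B : Filt W X) : Prop :=
  ∃ (N M : ℕ) (w : Fin M → W.H X) (β : Fin M → ℤ × ℕ) (S : K), 0 < N ∧ S ≠ 0 ∧
    (∀ s, 1 ≤ (β s).1 ∧ (β s).2 < N) ∧
    (∀ t : ℤ, 1 ≤ t → ∀ j < N, IsBasisOf w β (t, j) (B.F t)) ∧
    S • detClass W w β ∈ W.ratSpan (X.pow M) ∧
    ∀ a ∈ W.algSpan (X.pow M), W.deg (detClass W w β * a) = 0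

variable [CharZero K] {X : 𝒱.Obj}

/-- Proof: the proof of `T2F.detNum_of_altI` (file W_f569db_t2/DetConv.lean); the class `detClass W w β` is
there equal to the class `altI` (`hcls`). -/
theorem detRat_of_altI {hpar : W.par X ∈ W.algHom X X} {n : ℕ} (hn : 2 ≤ n) {α : Type} [Fintype α]
    [DecidableEq α] (B : NWB (W := W) (X := X) hpar n α) {ζ : α → ℤ} (hζ : ∀ i, B.ξ i = ζ i) {T : ℕ}
    (hT : ∀ i, |ζ i| ≤ T) {m : ℕ} (hm : 0 < m) {S : K} (hS : S ≠ 0)
    (hrat : S • altI W (fun x : Blk ζ T × Fin m => W.par X (B.v' x.1.2.1)) (fun x => (x.1.1, x.2)) ∈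
      W.ratSpan (X.pow (Fintype.card (Blk ζ T × Fin m))))
    (h : W.NT (altI W (fun x : Blk ζ T × Fin m => W.par X (B.v' x.1.2.1)) fun x => (x.1.1, x.2)))
    (FB : Filt W X) (hF : ∀ t : ℤ, FB.F t = B.Fil (t : ℝ)) : DetRat FB := by
  obtain ⟨e, he⟩ : ∃ e : Blk ζ T × Fin m ≃ Fin (Fintype.card (Blk ζ T × Fin m)),
      e = Fintype.equivFin (Blk ζ T × Fin m) := ⟨_, rfl⟩
  have hcls : detClass W (fun s => W.par X (B.v' (e.symm s).1.2.1))
      (fun s => ((((e.symm s).1.1 : ℕ) : ℤ) + 1, ((e.symm s).2 : ℕ))) =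
      altI W (fun x : Blk ζ T × Fin m => W.par X (B.v' x.1.2.1)) fun x => (x.1.1, x.2) := by
    rw [he]
    refine (detClass_eq_altI (W := W) (X := X)
      (fun x : Blk ζ T × Fin m => W.par X (B.v' x.1.2.1))
      (fun x : Blk ζ T × Fin m => (((x.1.1 : ℕ) : ℤ) + 1, (x.2 : ℕ)))).trans ?_
    refine altI_congr _ _ _ fun x y => ?_
    simp only [Prod.mk.injEq]
    constructor
    · rintro ⟨h1, h2⟩
      exact ⟨Fin.ext (by omega), Fin.ext h2⟩
    · rintro ⟨h1, h2⟩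
      rw [h1, h2]
      exact ⟨rfl, rfl⟩
  refine ⟨m, Fintype.card (Blk ζ T × Fin m), fun s => W.par X (B.v' (e.symm s).1.2.1),
    fun s => ((((e.symm s).1.1 : ℕ) : ℤ) + 1, ((e.symm s).2 : ℕ)), S, hm, hS, ?_, ?_, ?_, ?_⟩
  · intro s
    exact ⟨by simp only; omega, (e.symm s).2.2⟩
  · intro t ht j hj
    rw [hF]
    obtain ⟨hli, hsp⟩ := basis_fil hn B hζ t
    obtain ⟨f, hf⟩ : ∃ f : {s // (fun s => ((((e.symm s).1.1 : ℕ) : ℤ) + 1,
        ((e.symm s).2 : ℕ)) : Fin (Fintype.card (Blk ζ T × Fin m)) → ℤ × ℕ) s = (t, j)} →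
        {i // ζ i ≤ -t}, ∀ s, (f s : α) = (e.symm s.1).1.2.1 := by
      refine ⟨fun s => ⟨(e.symm s.1).1.2.1, ?_⟩, fun s => rfl⟩
      have h1 := (e.symm s.1).1.2.2
      have h2 : (((e.symm s.1).1.1 : ℕ) : ℤ) + 1 = t := congrArg Prod.fst s.2
      omega
    have hinj : Function.Injective f := by
      intro s s' hss
      have h1 : (e.symm s.1).1.2.1 = (e.symm s'.1).1.2.1 := by rw [← hf, ← hf, hss]
      have h2 : (((e.symm s.1).1.1 : ℕ) : ℤ) + 1 = t := congrArg Prod.fst s.2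
      have h3 : (((e.symm s'.1).1.1 : ℕ) : ℤ) + 1 = t := congrArg Prod.fst s'.2
      have h4 : ((e.symm s.1).2 : ℕ) = j := congrArg Prod.snd s.2
      have h5 : ((e.symm s'.1).2 : ℕ) = j := congrArg Prod.snd s'.2
      apply Subtype.ext
      apply e.symm.injective
      apply Prod.ext
      · exact DetConv_ext _ _ (Fin.ext (by omega)) h1
      · exact Fin.ext (by omega)
    have hsur : Function.Surjective f := by
      intro i
      have h1 := i.2
      have h2 := abs_le.1 (hT i.1)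
      have h3 : (t - 1).toNat < T := by omega
      have h4 : (((t - 1).toNat : ℕ) : ℤ) + 1 = t := by omega
      have h5 : ζ i.1 ≤ -((((⟨(t - 1).toNat, h3⟩ : Fin T) : ℕ) : ℤ) + 1) := by
        change ζ i.1 ≤ -((((t - 1).toNat : ℕ) : ℤ) + 1)
        rw [h4]
        exact h1
      refine ⟨⟨e ((⟨⟨(t - 1).toNat, h3⟩, ⟨i.1, h5⟩⟩ : Blk ζ T), (⟨j, hj⟩ : Fin m)), ?_⟩, ?_⟩
      · simp only [Equiv.symm_apply_apply]
        rw [h4]
      · apply Subtype.ext
        rw [hf]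
        change (e.symm (e ((⟨⟨(t - 1).toNat, h3⟩, ⟨i.1, h5⟩⟩ : Blk ζ T),
          (⟨j, hj⟩ : Fin m)))).1.2.1 = i.1
        rw [Equiv.symm_apply_apply]
    have hfun : (fun s : {s // (fun s => ((((e.symm s).1.1 : ℕ) : ℤ) + 1,
        ((e.symm s).2 : ℕ)) : Fin (Fintype.card (Blk ζ T × Fin m)) → ℤ × ℕ) s = (t, j)} =>
        (fun s => W.par X (B.v' (e.symm s).1.2.1) :
          Fin (Fintype.card (Blk ζ T × Fin m)) → W.H X) s) =
        (fun i : {i // ζ i ≤ -t} => W.par X (B.v' i)) ∘ f := by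
      funext s
      simp only [Function.comp_apply]
      rw [hf]
    refine ⟨?_, ?_⟩
    · rw [hfun]
      exact hli.comp f hinj
    · rw [hfun, hsur.range_comp, hsp]
  · rw [hcls]
    exact hrat
  · intro a ha
    rw [hcls]
    exact h.2 a ha

/-- The determinant class of `DetRat` is not zero.  Proof: `T2F.detClass_ne_zero`, as in the proof of
`T2F.not_homEqNum_of_detNum` (file W_f569db_t2/Main3.lean). -/
theorem detClass_ne (hpar : W.par X ∈ W.algHom X X) {B : Filt W X} {N M : ℕ} {w : Fin M → W.H X}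
    {β : Fin M → ℤ × ℕ} (hβ : ∀ s, 1 ≤ (β s).1 ∧ (β s).2 < N)
    (hbas : ∀ t : ℤ, 1 ≤ t → ∀ j < N, IsBasisOf w β (t, j) (B.F t)) : detClass W w β ≠ 0 := by
  refine detClass_ne_zero hpar w β fun p => ?_
  by_cases hp : 1 ≤ p.1 ∧ p.2 < N
  · exact (hbas p.1 hp.1 p.2 hp.2).1
  · have : IsEmpty {s // β s = p} := ⟨fun s => hp (by rw [← s.2]; exact hβ s.1)⟩
    exact linearIndependent_empty_type

end GTh
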