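import Pool.Agent.W_f569db_g.FinalS
import Pool.Agent.W_f569db_g.Spec

/-!
# The standard conjecture D for all powers of a variety and larger theories of rational classes
-/

namespace Pool.Agent.W_f569db_g.EnlargementResult

open Pool.Agent.WeilH_h6 Pool.Agent.WeilH_h6.VarClass Pool.Agent.WeilH_h6.Weil

universe u v w u' w'

/-- Let `W` be a Weil cohomology theory with coefficients in the field `K` of characteristic `0` and let
`X` be a variety such that the parity operator of `H(X)` is given by a cycle on `X × X`, with a polarised
generator `U = p H(X)` of `H(X)` (for an abelian variety `U = H^1(X)`; if `X` satisfies `B(X)`,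
`U = H(X)`).

1. If the standard conjecture `D` fails for some power of `X`, there is a subspace `I ≠ 0` of `U` which is
   isotropic for all forms `Tr (x · ψ(y))`, `ψ` an algebraic endomorphism of `H(X)`, and stable under the
   algebraic endomorphisms and all symmetries of `H(X)` (`IsotropicStable`), and which is cut out by every
   theory `T` of rational classes, containing the classes of cycles, which is nondegenerate on all powers of
   `X`: there is an endomorphism `φ = p φ p` given by a class of `T` on `X × X` with image `I` which is the
   multiplication by a nonzero constant on `I` (`CutOut`).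
2. Let `S` be a specialisation from the varieties over `k` to the varieties over another field `k₀`.  If
   `D` is true for the specialisations of all powers of `X`, and the cycles on the specialisation of `X × X`
   do not cut out a subspace `I ≠ 0` of `U` as in 1. (this is true if `Tr (φ' φ) ≠ 0` for all
   `φ = p φ p ≠ 0` given by these cycles, where `φ'` is the adjoint of `φ` for the form `Tr (x · θ(y))`, for
   instance if the form `Tr (φ' ψ)` is positive definite), then `D` is true for all powers of `X`. -/
theorem result {k : Type u} [Field k] {𝒱 : VarClass k} {K : Type v} [Field K] [CharZero K]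
    (W : Weil.{u, v, w} 𝒱 K) (X : 𝒱.Obj) (hpar : W.ParityRat X) (P : W.Polarised X) :
    ((∃ m, ¬ W.HomEqNum (X.pow m)) →
      ∃ I : Submodule K (W.H X), I ≠ ⊥ ∧ P.IsotropicStable I ∧
        ∀ T : W.RatTheory, (∀ m, T.NumEq (X.pow m)) → P.CutOut (fun α => α ∈ T.C (X.prod X)) I) ∧
    ∀ {k₀ : Type u'} [Field k₀] {𝒱₀ : VarClass k₀} (W₀ : Weil.{u', v, w'} 𝒱₀ K)
      (S : Specialisation W W₀), (∀ m, W₀.HomEqNum (S.obj (X.pow m))) →
        (∀ I : Submodule K (W.H X), P.IsotropicStable I → P.CutOut S.IsRat I → I = ⊥) →
          ∀ m, W.HomEqNum (X.pow m) := by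
  refine ⟨GTh.exists_obstruction X hpar P, ?_⟩
  intro k₀ _ 𝒱₀ W₀ S hS hA m
  by_contra hm
  obtain ⟨I, h0, h1, h2⟩ := GTh.exists_obstruction X hpar P ⟨m, hm⟩
  exact h0 (hA I h1 (h2 (GTh.specT S) fun m => GTh.specT_numEq S (hS m)))

end Pool.Agent.W_f569db_g.EnlargementResult
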