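import Pool.Agent.W_f569db_g.RepFamR
import Pool.Agent.W_f569db_t2.ExA

set_option autoImplicit false

noncomputable section

namespace GTh

open AlgebraicGeometry CategoryTheory MonoidalCategory
open scoped TensorProduct DirectSum
open Pool.Agent.WeilH_h6 Pool.Agent.WeilH_h6.VarClass Pool.Agent.WeilH_h6.Weil H13F T2F

universe u v w

variable {k : Type u} [Field k] {𝒱 : VarClass k} {K : Type v} [Field K] {W : Weil.{u, v, w} 𝒱 K}

variable [CharZero K] {X : 𝒱.Obj} {hpar : W.par X ∈ W.algHom X X} {n : ℕ} {α : Type} [Fintype α]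
  [DecidableEq α] (B : NWB (W := W) (X := X) hpar n α) {b b' : α → W.H X}

/-- The rational version of `T2F.exists_A`.

Proof.  By `not_pos_rat` and `core_K` (for the index set `LamR W b n r₀` and the distinguished set
`{l | l.1 ∈ Set.range Sum.inr}`) some trace invariant of the rational family with a distinguished member
is not `0`.  Then the proof of `T2F.exists_A` (file W_f569db_t2/ExA.lean), with `rep_total_rat` and
`exists_contr_rat`. -/
theorem exists_A_rat (hp : THom (cycT W) (W.par X)) (hn : 2 ≤ n)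
    (hd : ∀ i j, W.tr X (b i * b' j) = if i = j then 1 else 0)
    (hb : ∀ x, x ∈ Submodule.span K (Set.range b)) {P : Type} [Fintype P]
    [DecidableEq P] {o o' e : (P → α) → K} (ho : RatA (cycT W) b o) (ho' : RatA (cycT W) b o')
    (hwo : WtA B b o 0) (hwo' : WtA B b o' 0) {r₀ : ℕ} (hr₀ : 0 < r₀)
    (hnp : ¬ ∃ (h : (Matrix α α K)ˣ) (ξ : α → ℝ), PosS
      (Set.range (famT (W := W) (b := b) (n := n) (r₀ := r₀) o o' e))
      (famT (W := W) (b := b) (n := n) (r₀ := r₀) o o' e '' Set.range Sum.inr) h ξ) :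
    ∃ N : ℕ, 0 < N ∧ ∃ A : (P × Fin (2 * N) → α) → K, RatA (cycT W) b A ∧ NTA W b A ∧
      WtA B b A (N * r₀) ∧
      ∑ p : P × Fin (2 * N) → α, (∏ j, e fun s => p (s, j)) * flatI W b A (fun s => b (p s)) ≠ 0 := by
  have hnp' := not_pos_rat (o := o) (o' := o') (e := e) (r₀ := r₀) hpar hd hb hnp
  have h1 : ∃ (d : ℕ) (v : Fin (d + 1) → LamR W b n r₀), (∃ j, (v j).1 ∈ Set.range Sum.inr) ∧
      ∃ σ : Equiv.Perm (Fin (d + 1) × ((Fin r₀ × Fin n) ⊕ P)),
      ∑ a : Fin (d + 1) × ((Fin r₀ × Fin n) ⊕ P) → α,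
        ∏ j, famT (W := W) (b := b) (n := n) (r₀ := r₀) o o' e (v j).1 (fun s => a (j, s))
          (fun s => a (σ (j, s))) ≠ 0 := by
    by_contra hcon
    apply hnp'
    refine core_K {l : LamR W b n r₀ | l.1 ∈ Set.range Sum.inr}
      (fun l : LamR W b n r₀ => famT (W := W) (b := b) (n := n) (r₀ := r₀) o o' e l.1) ?_
    intro d v hv σ
    by_contra h0
    exact hcon ⟨d, v, hv, σ, h0⟩
  obtain ⟨d, v, hv, σ, hne⟩ := h1
  have hne2 := hne
  simp only [famT] at hne2
  rw [trace_eq] at hne2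
  obtain ⟨N, hN, Q, hQ, hQ', C, g, hC, hCN, hCw, hT⟩ := rep_total_rat B hp ho ho' hwo hwo' v hv σ
  have hw : (0 : ℝ) < N * r₀ := mul_pos (Nat.cast_pos.2 hN) (Nat.cast_pos.2 hr₀)
  obtain ⟨A, hAR, hAN, hAf⟩ := exists_contr_rat hp hpar hd hb g hC
  refine ⟨N, hN, A, hAR, hAN (hCN hw), WtA.contr B hn g hCw hAf, ?_⟩
  rw [matchA_eq g (E := fun p => ∏ j, e (fun s => p (s, j))) hAf hT] at hne2
  exact hne2

end GTh
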