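import Pool.Agent.W_f569db_g.SpanR
import Pool.Agent.W_f569db_g.ArrT
import Pool.Agent.W_f569db_t2.RepFam
import Pool.Agent.W_f569db_h13.Canon2

set_option autoImplicit false

noncomputable section

namespace GTh

open AlgebraicGeometry CategoryTheory MonoidalCategory
open scoped TensorProduct DirectSum
open Pool.Agent.WeilH_h6 Pool.Agent.WeilH_h6.VarClass Pool.Agent.WeilH_h6.Weil H13F T2F

universe u v w

variable {k : Type u} [Field k] {𝒱 : VarClass k} {K : Type v} [Field K] {W : Weil.{u, v, w} 𝒱 K}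

variable {X : 𝒱.Obj} {α : Type} [Fintype α]

/-- The pair of arrays on `X^n` consists of rational classes, and if one of them is numerically trivial
this is recorded by `famZ` (see `LamR`). -/
def RatPair (b : α → W.H X) (n : ℕ) (p : PairS W b n) : Prop :=
  cls W b n p.1.1 ∈ W.ratSpan (X.pow n) ∧ cls W b n p.2.1 ∈ W.ratSpan (X.pow n)

/-- A member of the family all of whose pairs are rational. -/
def RatLam (b : α → W.H X) (n r₀ : ℕ) : Lam W b n r₀ → Prop
  | Sum.inl q => ∀ j, RatPair b n (q j)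
  | Sum.inr q => ∀ j, RatPair b n (q j).1

/-- The index set of the rational family. -/
abbrev LamR (W : Weil.{u, v, w} 𝒱 K) {X : 𝒱.Obj} (b : α → W.H X) (n r₀ : ℕ) : Type v :=
  {l : Lam W b n r₀ // RatLam b n r₀ l}

variable [CharZero K] {b : α → W.H X}

omit [Fintype α] [CharZero K] in
theorem FamR_prod {J B : Type} [Fintype J] [DecidableEq J] (x : J → (B → K)) (i : J) (v : B → K)
    (E : J → B) : ∏ j, Function.update x i v j (E j) =
      v (E i) * ∏ j ∈ Finset.univ.erase i, x j (E j) := by
  rw [← Finset.mul_prod_erase Finset.univ _ (Finset.mem_univ i), Function.update_self]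
  congr 1
  refine Finset.prod_congr rfl fun j hj => ?_
  rw [Function.update_of_ne (Finset.ne_of_mem_erase hj)]

/-- Matrices whose entries are multilinear in a family of arrays. -/
def FamR_f {J A C B : Type} [Fintype J] [Fintype C] (D : A → A → C → K) (E : A → C → J → B)
    (x : J → (B → K)) : Matrix A A K :=
  Matrix.of fun a a' => ∑ c, D a a' c * ∏ i, x i (E a c i)

omit [Fintype α] [CharZero K] in
theorem FamR_add {J A C B : Type} [Fintype J] [DecidableEq J] [Fintype C] (D : A → A → C → K)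
    (E : A → C → J → B) (x : J → (B → K)) (i : J) (u v : B → K) :
    FamR_f D E (Function.update x i (u + v)) =
      FamR_f D E (Function.update x i u) + FamR_f D E (Function.update x i v) := by
  ext a a'
  rw [Matrix.add_apply]
  unfold FamR_f
  rw [Matrix.of_apply, Matrix.of_apply, Matrix.of_apply, ← Finset.sum_add_distrib]
  refine Finset.sum_congr rfl fun c _ => ?_
  rw [FamR_prod, FamR_prod, FamR_prod, Pi.add_apply]
  ring

omit [Fintype α] [CharZero K] in
theorem FamR_smul {J A C B : Type} [Fintype J] [DecidableEq J] [Fintype C] (D : A → A → C → K)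
    (E : A → C → J → B) (x : J → (B → K)) (i : J) (t : K) (u : B → K) :
    FamR_f D E (Function.update x i (t • u)) = t • FamR_f D E (Function.update x i u) := by
  ext a a'
  rw [Matrix.smul_apply]
  unfold FamR_f
  rw [Matrix.of_apply, Matrix.of_apply, smul_eq_mul, Finset.mul_sum]
  refine Finset.sum_congr rfl fun c _ => ?_
  rw [FamR_prod, FamR_prod, Pi.smul_apply, smul_eq_mul]
  ring

/-- The operator of a family of arrays. -/
def FamR_op (W : Weil.{u, v, w} 𝒱 K) {X : 𝒱.Obj} {α : Type} [Fintype α] (b : α → W.H X)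
    {n r₀ : ℕ} {P : Type} [Fintype P] [DecidableEq P] (o o' : (P → α) → K)
    (x : Fin r₀ ⊕ Fin r₀ → ((Fin n → α) → K)) :
    Matrix ((Fin r₀ × Fin n) ⊕ P → α) ((Fin r₀ × Fin n) ⊕ P → α) K :=
  rkI W b (fun c => (∏ j, x (Sum.inl j) fun s => c (Sum.inl (j, s))) * o fun s => c (Sum.inr s))
    (fun c => (∏ j, x (Sum.inr j) fun s => c (Sum.inl (j, s))) * o' fun s => c (Sum.inr s))

omit [CharZero K] in
theorem FamR_op_eq {n r₀ : ℕ} {P : Type} [Fintype P] [DecidableEq P] (o o' : (P → α) → K) :
    ∃ (D : ((Fin r₀ × Fin n) ⊕ P → α) → ((Fin r₀ × Fin n) ⊕ P → α) →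
        ((Fin r₀ × Fin n) ⊕ P → α) → K)
      (E : ((Fin r₀ × Fin n) ⊕ P → α) → ((Fin r₀ × Fin n) ⊕ P → α) → Fin r₀ ⊕ Fin r₀ →
        (Fin n → α)), ∀ x : Fin r₀ ⊕ Fin r₀ → ((Fin n → α) → K),
      FamR_op W b o o' x = FamR_f D E x := by
  refine ⟨fun a a' c => o (fun s => a (Sum.inr s)) * (o' (fun s => c (Sum.inr s)) *
    ∏ i, W.tr X (b (c i) * b (a' i))), fun a c => Sum.elim (fun j s => a (Sum.inl (j, s)))
      (fun j s => c (Sum.inl (j, s))), fun x => ?_⟩
  ext a a'
  unfold FamR_op FamR_f rkI flatI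
  rw [Matrix.of_apply, Matrix.of_apply, Finset.mul_sum]
  refine Finset.sum_congr rfl fun c _ => ?_
  have h1 : ∏ i : Fin r₀ ⊕ Fin r₀, x i (Sum.elim (fun j s => a (Sum.inl (j, s)))
      (fun j s => c (Sum.inl (j, s))) i) = (∏ j, x (Sum.inl j) fun s => a (Sum.inl (j, s))) *
      ∏ j, x (Sum.inr j) fun s => c (Sum.inl (j, s)) := Fintype.prod_sum_type _
  rw [h1]
  ring

omit [CharZero K] in
theorem FamR_mem {n r₀ : ℕ} {P : Type} [Fintype P] [DecidableEq P] (o o' : (P → α) → K)
    (S : Fin r₀ ⊕ Fin r₀ → Set ((Fin n → α) → K)) (x : Fin r₀ ⊕ Fin r₀ → ((Fin n → α) → K))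
    (hx : ∀ i, x i ∈ Submodule.span K (S i)) :
    FamR_op W b o o' x ∈ Submodule.span K
      {m | ∃ y : Fin r₀ ⊕ Fin r₀ → ((Fin n → α) → K), (∀ i, y i ∈ S i) ∧
        FamR_op W b o o' y = m} := by
  obtain ⟨D, E, h⟩ := FamR_op_eq (W := W) (b := b) (n := n) (r₀ := r₀) o o'
  have h1 := mem_span_multi (K := K) (FamR_f D E) (FamR_add D E) (FamR_smul D E) S x hx
  rw [h]
  simp only [h]
  exact h1

omit [CharZero K] in
theorem FamR_cls_add {n : ℕ} (y z : (Fin n → α) → K) :
    cls W b n (y + z) = cls W b n y + cls W b n z := by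
  unfold cls
  rw [← Finset.sum_add_distrib]
  exact Finset.sum_congr rfl fun c _ => by rw [Pi.add_apply, add_smul]

omit [CharZero K] in
theorem FamR_cls_smul {n : ℕ} (t : K) (y : (Fin n → α) → K) :
    cls W b n (t • y) = t • cls W b n y := by
  unfold cls
  rw [Finset.smul_sum]
  exact Finset.sum_congr rfl fun c _ => by rw [Pi.smul_apply, smul_eq_mul, mul_smul]

omit [CharZero K] in
theorem FamR_cls_zero {n : ℕ} : cls W b n (0 : (Fin n → α) → K) = 0 := by
  unfold cls
  simp

/-- The coordinates of the elements of a span.  Proof: `cls W b n` is linear and (as `b` generates)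
surjective, and it is injective by `hd` (`fB_cls`, or `H13F.cls_inj`, compare `NeFam_flat`): so the array
of a class in the span of `S` is in the span of the arrays of the elements of `S`
(`Submodule.span_induction` on the class, with chosen arrays `exists_cls b hb`). -/
theorem arr_mem_span [DecidableEq α] (hpar : W.par X ∈ W.algHom X X) {b' : α → W.H X}
    (hd : ∀ i j, W.tr X (b i * b' j) = if i = j then 1 else 0)
    (hb : ∀ x, x ∈ Submodule.span K (Set.range b)) {n : ℕ} {S : Set (W.H (X.pow n))}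
    {y : (Fin n → α) → K} (hy : cls W b n y ∈ Submodule.span K S) :
    y ∈ Submodule.span K {z : (Fin n → α) → K | cls W b n z ∈ S} := by
  have key : ∀ x ∈ Submodule.span K S, ∀ y : (Fin n → α) → K, cls W b n y = x →
      y ∈ Submodule.span K {z : (Fin n → α) → K | cls W b n z ∈ S} := by
    intro x hx
    induction hx using Submodule.span_induction with
    | mem x hx =>
      intro y hy
      refine Submodule.subset_span ?_
      rw [Set.mem_ofPred_eq, hy]
      exact hx
    | zero =>
      intro y hy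
      rw [← FamR_cls_zero (W := W) (b := b)] at hy
      rw [cls_inj hpar hd hy]
      exact Submodule.zero_mem _
    | add x₁ x₂ _ _ h₁ h₂ =>
      intro y hy
      obtain ⟨y₁, hy₁⟩ := exists_cls b hb x₁
      obtain ⟨y₂, hy₂⟩ := exists_cls b hb x₂
      rw [← hy₁, ← hy₂, ← FamR_cls_add] at hy
      rw [cls_inj hpar hd hy]
      exact Submodule.add_mem _ (h₁ y₁ hy₁) (h₂ y₂ hy₂)
    | smul t x₁ _ h₁ =>
      intro y hy
      obtain ⟨y₁, hy₁⟩ := exists_cls b hb x₁
      rw [← hy₁, ← FamR_cls_smul] at hy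
      rw [cls_inj hpar hd hy]
      exact Submodule.smul_mem _ _ (h₁ y₁ hy₁)
  exact key _ hy y rfl

/-- Every ordinary member of the family is a linear combination of rational ordinary members.

Proof.  Consider the map `f` on families `x : Fin r₀ ⊕ Fin r₀ → ((Fin n → α) → K)` of arrays with values in
the matrices, `f x a a' = (∏ j, x (inl j) (fun s => a (inl (j, s)))) * o (fun s => a (inr s)) *
flatI W b (fun c => (∏ j, x (inr j) (fun s => c (inl (j, s)))) * o' (fun s => c (inr s))) (b ∘ a')`; it is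
additive and homogeneous in each variable (`Finset.prod_update_of_mem`; unfold `flatI` for the variables
`inr j`), and `famT o o' e (inl q) = f x` for `x (inl j) = (q j).1.1`, `x (inr j) = (q j).2.1`.  Apply
`mem_span_multi` with `S i = {z | cls W b n z ∈ W.ratSpan _}`; the hypothesis holds by `arr_mem_span` and
`algSpan_le_span_rat`.  The `f y` with `y i ∈ S i` are the rational ordinary members (`ratSpan_le` gives the
membership in `algSpan`). -/
theorem famT_inl_mem [DecidableEq α] (hpar : W.par X ∈ W.algHom X X) {b' : α → W.H X}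
    (hd : ∀ i j, W.tr X (b i * b' j) = if i = j then 1 else 0)
    (hb : ∀ x, x ∈ Submodule.span K (Set.range b)) {n r₀ : ℕ} {P : Type} [Fintype P]
    [DecidableEq P] (o o' e : (P → α) → K) (q : Fin r₀ → PairS W b n) :
    famT (W := W) (b := b) (n := n) (r₀ := r₀) o o' e (Sum.inl q) ∈ Submodule.span K
      (Set.range fun l : LamR W b n r₀ => famT (W := W) (b := b) (n := n) (r₀ := r₀) o o' e l.1) := by
  have h1 : ∀ i, Sum.elim (fun j => (q j).1.1) (fun j => (q j).2.1) i ∈ Submodule.span K
      {z : (Fin n → α) → K | cls W b n z ∈ (W.ratSpan (X.pow n) : Set (W.H (X.pow n)))} := by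
    rintro (j | j)
    · exact arr_mem_span hpar hd hb (algSpan_le_span_rat _ (q j).1.2)
    · exact arr_mem_span hpar hd hb (algSpan_le_span_rat _ (q j).2.2)
  have h2 := FamR_mem (W := W) (b := b) o o' (fun _ => {z : (Fin n → α) → K |
    cls W b n z ∈ (W.ratSpan (X.pow n) : Set (W.H (X.pow n)))}) _ h1
  refine Submodule.span_mono ?_ h2
  rintro m ⟨y, hy, rfl⟩
  refine ⟨⟨Sum.inl fun j => (⟨y (Sum.inl j), W.ratSpan_le (hy (Sum.inl j))⟩,
    ⟨y (Sum.inr j), W.ratSpan_le (hy (Sum.inr j))⟩), fun j => ⟨hy (Sum.inl j), hy (Sum.inr j)⟩⟩, rfl⟩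

/-- Every distinguished member of the family is a linear combination of rational distinguished members.

Proof.  The same with `o' := e`, `o := e`; for each `j` the pair `(q j).1` has a first or a second array
which is numerically trivial (`(q j).2`); take `S (inl j)` and `S (inr j)` to be the set of the arrays of
rational classes, respectively of rational numerically trivial classes (for the numerically trivial member
of the pair), and use `nt_mem_span_rat` for the latter. -/
theorem famT_inr_mem [DecidableEq α] (hpar : W.par X ∈ W.algHom X X) {b' : α → W.H X}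
    (hd : ∀ i j, W.tr X (b i * b' j) = if i = j then 1 else 0)
    (hb : ∀ x, x ∈ Submodule.span K (Set.range b)) {n r₀ : ℕ} {P : Type} [Fintype P]
    [DecidableEq P] (o o' e : (P → α) → K) (q : Fin r₀ → famZ (W := W) b n) :
    famT (W := W) (b := b) (n := n) (r₀ := r₀) o o' e (Sum.inr q) ∈ Submodule.span K
      ((fun l : LamR W b n r₀ => famT (W := W) (b := b) (n := n) (r₀ := r₀) o o' e l.1) ''
        {l | l.1 ∈ Set.range Sum.inr}) := by
  classical
  set S : Prop → Set ((Fin n → α) → K) := fun p =>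
    {z | cls W b n z ∈ {r : W.H (X.pow n) | r ∈ W.ratSpan (X.pow n) ∧ (p → W.NT r)}} with hS
  have h0 : ∀ (p : Prop) (z : (Fin n → α) → K), cls W b n z ∈ W.algSpan (X.pow n) →
      (p → W.NT (cls W b n z)) → z ∈ Submodule.span K (S p) := by
    intro p z hz hp
    refine arr_mem_span hpar hd hb ?_
    by_cases h : p
    · refine Submodule.span_mono ?_ (nt_mem_span_rat (hp h))
      rintro r ⟨h1, h2⟩
      exact ⟨h1, fun _ => h2⟩
    · refine Submodule.span_mono ?_ (algSpan_le_span_rat _ hz)
      intro r h1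
      exact ⟨h1, fun h' => absurd h' h⟩
  have h1 : ∀ i, Sum.elim (fun j => (q j).1.1.1) (fun j => (q j).1.2.1) i ∈ Submodule.span K
      (Sum.elim (fun j => S (W.NT (cls W b n (q j).1.1.1)))
        (fun j => S (W.NT (cls W b n (q j).1.2.1))) i) := by
    rintro (j | j)
    · exact h0 _ _ (q j).1.1.2 fun h => h
    · exact h0 _ _ (q j).1.2.2 fun h => h
  have h2 := FamR_mem (W := W) (b := b) e e _ _ h1
  refine Submodule.span_mono ?_ h2
  rintro m ⟨y, hy, rfl⟩
  have hl : ∀ j, cls W b n (y (Sum.inl j)) ∈ W.ratSpan (X.pow n) ∧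
      (W.NT (cls W b n (q j).1.1.1) → W.NT (cls W b n (y (Sum.inl j)))) := fun j => hy (Sum.inl j)
  have hr : ∀ j, cls W b n (y (Sum.inr j)) ∈ W.ratSpan (X.pow n) ∧
      (W.NT (cls W b n (q j).1.2.1) → W.NT (cls W b n (y (Sum.inr j)))) := fun j => hy (Sum.inr j)
  refine ⟨⟨Sum.inr fun j => ⟨(⟨y (Sum.inl j), W.ratSpan_le (hl j).1⟩,
    ⟨y (Sum.inr j), W.ratSpan_le (hr j).1⟩), ?_⟩, fun j => ⟨(hl j).1, (hr j).1⟩⟩, ⟨_, rfl⟩, rfl⟩
  rcases (q j).2 with h | h
  · exact Or.inl ((hl j).2 h)
  · exact Or.inr ((hr j).2 h)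

/-- If the whole family is not destabilised by any weighted basis, then neither is the rational family.
Proof: `posS_span`, `famT_inl_mem`, `famT_inr_mem` (`Submodule.span_mono` and the image in the range for
the distinguished members in the first set). -/
theorem not_pos_rat [DecidableEq α] (hpar : W.par X ∈ W.algHom X X) {b' : α → W.H X}
    (hd : ∀ i j, W.tr X (b i * b' j) = if i = j then 1 else 0)
    (hb : ∀ x, x ∈ Submodule.span K (Set.range b)) {n r₀ : ℕ} {P : Type} [Fintype P]
    [DecidableEq P] {o o' e : (P → α) → K}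
    (hnp : ¬ ∃ (h : (Matrix α α K)ˣ) (ξ : α → ℝ), PosS
      (Set.range (famT (W := W) (b := b) (n := n) (r₀ := r₀) o o' e))
      (famT (W := W) (b := b) (n := n) (r₀ := r₀) o o' e '' Set.range Sum.inr) h ξ) :
    ¬ ∃ (h : (Matrix α α K)ˣ) (ξ : α → ℝ), PosS
      (Set.range fun l : LamR W b n r₀ => famT (W := W) (b := b) (n := n) (r₀ := r₀) o o' e l.1)
      ((fun l : LamR W b n r₀ => famT (W := W) (b := b) (n := n) (r₀ := r₀) o o' e l.1) ''
        {l | l.1 ∈ Set.range Sum.inr}) h ξ := by
  rintro ⟨h, ξ, hp⟩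
  refine hnp ⟨h, ξ, posS_span hp ?_ ?_⟩
  · rintro x ⟨l, rfl⟩
    rcases l with q | q
    · exact famT_inl_mem hpar hd hb o o' e q
    · exact Submodule.span_mono (Set.image_subset_range _ _) (famT_inr_mem hpar hd hb o o' e q)
  · rintro x ⟨l, ⟨q, rfl⟩, rfl⟩
    exact famT_inr_mem hpar hd hb o o' e q

end GTh
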