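import Pool.Agent.W_f569db_g.CramerB
import Pool.Agent.W_f569db_g.AnisDefs
import Pool.Agent.W_f569db_g.MainR

set_option autoImplicit false

noncomputable section

namespace GTh

open AlgebraicGeometry CategoryTheory MonoidalCategory
open scoped TensorProduct DirectSum
open Pool.Agent.WeilH_h6 Pool.Agent.WeilH_h6.VarClass Pool.Agent.WeilH_h6.Weil H13F T2F

universe u v w

variable {k : Type u} [Field k] {𝒱 : VarClass k} {K : Type v} [Field K] {W : Weil.{u, v, w} 𝒱 K}

/-- The enlargement theorem.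

Proof.  Suppose that `D` fails for a power of `X`; `exists_flag_rat` gives the filtration `F = B.F` with
`DetRat B`: `N`, `M`, `w`, `β`, `S`.  As `B.F 1 ≠ ⊥` and the `w s` with `β s = (1, 0)` are a basis of it
(`0 < N`), there is `x₀` with `β x₀ = (1, 0)`.  `exists_operator` (with `par_tHom`, `par_algHom_of_rat`,
`ratSpan_le_T`, `detClass_ne`, `hT M`) gives `e`, `κ`: by linearity `e x ∈ F^1` for all `x` and
`e x = κ • x` for `x ∈ F^1`.  Let `u = p ∘ e ∘ p`: it is given by a class of the theory (`THom.of_rat P.p_rat`,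
`THom.comp`, `isEnd_iff`), `p u = u = u p` (`P.p_p`).  For all `x`, `y`: `u x ∈ F^1` and `θ (u y) ∈ F^1`
(`AlgStable`: `p` is algebraic because it is rational (`ratSpan_le`), `P.θ_alg`), so
`tr (u x * θ (u y)) = 0` because `F^1 ⊆ F^0 = (F^1)^⊥` (`SelfDual` with `t = 1`, `B.anti`).  By `hA` `u = 0`.
So `x ∈ F^1`, `p x = x` imply `x = 0`: `0 = u x = p (e (p x)) = κ • p x = κ • x`.  For `y ∈ F^1`: `θ' y ∈ F^1`
(`AlgStable`) and `p (θ' y) = θ' y`, hence `θ' y = 0` and `tr (p x * y) = tr (p x * θ (θ' y)) = 0` for all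
`x`.  So `p x ∈ F^0` (`SelfDual`, `t = 1`: `x ∈ F^(1-1) ↔ ∀ y ∈ F^1, tr (x * y) = 0`).  `F^0` is a
subalgebra: stable under products (`Mult` with `s = t = 0`) and contains `algSpan X`, in particular the
scalars (`one_mem_algSpan`); so `F^0 = ⊤` by `P.gen` (`Algebra.adjoin_induction`), and every `y ∈ F^1` is
orthogonal to everything, so `F^1 = ⊥`, a contradiction. -/
theorem enlargement [CharZero K] (X : 𝒱.Obj) (hpr : W.ParityRat X) (P : W.Polarised X)
    (T : W.RatTheory) (hT : ∀ m, T.NumEq (X.pow m)) (hA : T.Anisotropic P) (m : ℕ) :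
    W.HomEqNum (X.pow m) := by
  by_contra hcon
  obtain ⟨B, hSD, hne, hMult, hAlg, hStab, N, M, w, β, S, hN, hS, hβ, hbas, hrat, -⟩ :=
    exists_flag_rat X hpr ⟨m, hcon⟩
  have hpar := par_algHom_of_rat hpr
  have hpT : THom T (W.par X) := par_tHom hpr
  have hne' := detClass_ne hpar hβ hbas
  have hb0 := hbas 1 le_rfl 0 hN
  obtain ⟨x₀, hx₀⟩ : ∃ x₀, β x₀ = ((1 : ℤ), 0) := by
    by_contra h
    push Not at h
    apply hne
    rw [← hb0.2]
    have h2 : Set.range (fun s : {s // β s = ((1 : ℤ), 0)} => w s) = ∅ := by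
      rw [Set.range_eq_empty_iff]
      exact ⟨fun s => h s.1 s.2⟩
    rw [h2, Submodule.span_empty]
  obtain ⟨e, κ, hκ, heT, he1, he2⟩ := exists_operator hpT hpar hS (ratSpan_le_T T _ hrat) hne'
    (hT M) x₀
  have heF : ∀ x, e x ∈ B.F 1 := by
    intro x
    rw [← hb0.2]
    refine Submodule.span_mono ?_ (he1 x)
    rintro _ ⟨s, hs, rfl⟩
    exact ⟨⟨s, Eq.trans hs hx₀⟩, rfl⟩
  have heκ : ∀ x ∈ B.F 1, e x = κ • x := by
    intro x hx
    rw [← hb0.2] at hx
    refine Submodule.span_induction (p := fun x _ => e x = κ • x) ?_ ?_ ?_ ?_ hx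
    · rintro _ ⟨s, rfl⟩
      exact he2 s.1 (s.2.trans hx₀.symm)
    · rw [map_zero, smul_zero]
    · intro x y _ _ hx hy
      rw [map_add, hx, hy, smul_add]
    · intro a x _ hx
      rw [map_smul, hx, smul_comm]
  have hpalg : W.IsAlgEnd X P.p := by
    obtain ⟨α, hα, h⟩ := P.p_rat
    exact ⟨α, W.ratSpan_le hα, h⟩
  have hp2 : ∀ x, P.p (P.p x) = P.p x := P.p_p
  let u : W.Hom X X := P.p ∘ₗ e ∘ₗ P.p
  have hux : ∀ x, u x = P.p (e (P.p x)) := fun _ => rfl
  have hu : T.IsEnd X u :=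
    isEnd_iff.2 (((THom.of_rat P.p_rat).comp heT).comp (THom.of_rat P.p_rat))
  have huF : ∀ x, u x ∈ B.F 1 := fun x => hStab P.p hpalg 1 _ (heF _)
  have hu0 : u = 0 := by
    refine hA u hu ?_ ?_ ?_
    · intro x
      show P.p (u x) = u x
      rw [hux, hp2]
    · intro x
      show u (P.p x) = u x
      rw [hux, hux, hp2]
    · intro x y
      have h2 : W.ap P.θ (W.ap u y) ∈ B.F 1 := hStab P.θ P.θ_alg 1 _ (huF y)
      have h3 : W.ap u x ∈ B.F (1 - 1) := B.anti (1 - 1) 1 (by norm_num) (huF x)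
      exact (hSD 1 _).1 h3 _ h2
  have hz : ∀ x ∈ B.F 1, P.p x = x → x = 0 := by
    intro x hx hpx
    have h1 : u x = 0 := by
      rw [hu0]
      rfl
    have h2 : u x = κ • x := by
      rw [hux, hpx, heκ x hx, map_smul, hpx]
    rw [h1] at h2
    exact (smul_eq_zero.1 h2.symm).resolve_left hκ
  have hpx : ∀ x, P.p x ∈ B.F 0 := by
    intro x
    have h0 : P.p x ∈ B.F (1 - 1) := by
      rw [hSD 1]
      intro y hy
      have h1 : P.θ' y = 0 := hz _ (hStab P.θ' P.θ'_alg 1 _ hy) (P.p_θ' y)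
      have h2 := P.tr_θ x y
      have h3 : W.ap P.θ (W.ap P.θ' y) = 0 := by
        show P.θ (P.θ' y) = 0
        rw [h1, map_zero]
      rw [h3, mul_zero] at h2
      show W.deg (W.ap P.p x * y) = 0
      rw [← h2]
      exact map_zero _
    rwa [sub_self] at h0
  have hF0 : ∀ x, x ∈ B.F 0 := by
    intro x
    have hx : x ∈ Algebra.adjoin K (Set.range P.p ∪ (W.algSpan X : Set (W.H X))) := by
      rw [P.gen]
      exact Algebra.mem_top
    refine Algebra.adjoin_induction (p := fun x _ => x ∈ B.F 0) ?_ ?_ ?_ ?_ hx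
    · rintro x (⟨y, rfl⟩ | h)
      · exact hpx y
      · exact hAlg h
    · intro r
      rw [Algebra.algebraMap_eq_smul_one]
      exact Submodule.smul_mem _ _ (hAlg (W.one_mem_algSpan X))
    · intro x y _ _ hx hy
      exact Submodule.add_mem _ hx hy
    · intro x y _ _ hx hy
      have h := hMult 0 0 x hx y hy
      rwa [add_zero] at h
  apply hne
  rw [eq_bot_iff]
  intro y hy
  rw [Submodule.mem_bot]
  have hy' : y ∈ B.F (1 - 0) := by rwa [sub_zero]
  exact W.axDuality X y fun z => (hSD 0 y).1 hy' z (hF0 z)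

end GTh
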