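import Pool.Agent.W_f569db_g.CanonS
import Pool.Agent.W_f569db_g.DetRatR
import Pool.Agent.W_f569db_t2.Main3

set_option autoImplicit false

noncomputable section

namespace GTh

open AlgebraicGeometry CategoryTheory MonoidalCategory
open scoped TensorProduct DirectSum
open Pool.Agent.WeilH_h6 Pool.Agent.WeilH_h6.VarClass Pool.Agent.WeilH_h6.Weil H13F T2F

universe u v w

variable {k : Type u} [Field k] {𝒱 : VarClass k} {K : Type v} [Field K] {W : Weil.{u, v, w} 𝒱 K}

/-- If `D` fails for some power of `X` then there is a filtration of `H(X)` with a rational determinant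
class.

Proof: the proof of `1 → 3` in `T2F.criterion3` (file W_f569db_t2/Main3.lean), for `n = max m 3`, with
`exists_canonical_rat` instead of `exists_canonical3` and `detRat_of_altI` instead of
`detNum_of_altI`.  (The property `Graded` and the symmetries are not needed.) -/
theorem exists_flag_sym [CharZero K] (X : 𝒱.Obj) (hp : W.ParityRat X)
    (h : ∃ m, ¬ W.HomEqNum (X.pow m)) :
    ∃ B : Filt W X, B.SelfDual ∧ B.F 1 ≠ ⊥ ∧ B.Mult ∧ W.algSpan X ≤ B.F 0 ∧ B.AlgStable ∧
      (∀ (S : Symmetry W X) (t : ℤ), ∀ x ∈ B.F t, S.g x ∈ B.F t) ∧ DetRat B := by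
  obtain ⟨m₀, hD⟩ := h
  have hpT : THom (cycT W) (W.par X) := par_tHom hp
  have hpar' : W.par X ∈ W.algHom X X := par_algHom_of_rat hp
  obtain ⟨n, hn'⟩ : ∃ n : ℕ, n = max m₀ 3 := ⟨_, rfl⟩
  have hn : 3 ≤ n := by rw [hn']; exact le_max_right _ _
  have hm₀ : m₀ ≤ n := by rw [hn']; exact le_max_left _ _
  obtain ⟨a₀, hnt, ha₀⟩ := exists_nt_of_not_homEqNum hD
  obtain ⟨r, B, ζ, hζ, hB, hcl⟩ := exists_canonical_sym (W := W) (X := X) hpT hpar' (n := n)
    (by omega) ⟨m₀, hm₀, a₀, hnt, ha₀⟩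
  have hmem : ∀ (t : ℤ) x, x ∈ B.Fil (t : ℝ) ↔ ∀ i, ζ i < t → W.tr X (x * B.v' i) = 0 := by
    intro t x
    rw [NWB.mem_Fil]
    constructor
    · intro hx i hi
      exact hx i (by rw [hζ]; exact_mod_cast hi)
    · intro hx i hi
      rw [hζ] at hi
      exact hx i (by exact_mod_cast hi)
  let FB : Filt W X :=
    { F := fun t => B.Fil (t : ℝ)
      anti := fun s t hst x hx => B.Fil_anti (by exact_mod_cast hst) hx
      top := by
        obtain ⟨t, ht⟩ := B.exists_top
        refine ⟨⌊t⌋, ?_⟩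
        rw [eq_top_iff, ← ht]
        exact fun x hx => B.Fil_anti (Int.floor_le t) hx
      bot := by
        obtain ⟨t, ht⟩ := B.exists_bot
        refine ⟨⌈t⌉, ?_⟩
        rw [eq_bot_iff, ← ht]
        exact fun x hx => B.Fil_anti (Int.le_ceil t) hx }
  have hself : FB.SelfDual := by
    intro t x
    change x ∈ B.Fil ((1 - t : ℤ) : ℝ) ↔ ∀ y ∈ B.Fil (t : ℝ), W.tr X (x * y) = 0
    rw [B.orth (by omega)]
    constructor
    · intro hx
      exact ⟨((1 - t : ℤ) : ℝ), by push_cast; linarith, hx⟩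
    · rintro ⟨s, hs, hx⟩
      rw [hmem]
      intro i hi
      refine hx i ?_
      rw [hζ]
      have h1 : (ζ i : ℝ) ≤ -t := by
        have : ζ i ≤ -t := by omega
        exact_mod_cast this
      linarith
  have hgt : ∀ m ≤ n, ∀ a : W.H (X.pow m), W.NT a → FB.Gt a := by
    intro m hm a ha t x hx ht
    refine B.tr_eq_zero (by omega) hm ha.1 (t := fun s => ((t s : ℤ) : ℝ)) hx (Or.inr ⟨ha, ?_⟩)
    have h1 : (0 : ℝ) ≤ ((∑ s, t s : ℤ) : ℝ) := by exact_mod_cast ht
    push_cast at h1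
    linarith
  have hsym : FB.SymStable n := by
    intro S t x hx
    obtain ⟨S', h1, h2, h3, h4⟩ := S.exists_G hpar'
    have h5 := hB S' (h4 n le_rfl) t x hx
    rw [h2] at h5
    exact h5
  refine ⟨FB, hself, ?_, ?_, ?_, ?_, fun S t x hx => ?_, ?_⟩
  · intro hbot
    change B.Fil ((1 : ℤ) : ℝ) = ⊥ at hbot
    -- then `F^0 = H(X)`
    have h1 : ∀ x : W.H X, x ∈ B.Fil ((0 : ℤ) : ℝ) := by
      intro x
      rw [hmem]
      intro i hi
      have h2 : B.v' i ∈ B.Fil ((1 : ℤ) : ℝ) := by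
        refine B.Fil_anti ?_ (B.v'_mem (by omega) i)
        rw [hζ]
        have : (1 : ℤ) ≤ -ζ i := by omega
        exact_mod_cast this
      rw [hbot, Submodule.mem_bot] at h2
      rw [h2, mul_zero, map_zero]
    apply ha₀
    refine W.ext_tr fun w => ?_
    rw [zero_mul, map_zero]
    refine W.pure_induction (P := fun w => W.tr _ (a₀ * w) = 0) ?_ ?_ ?_ w
    · intro a b ha hb; rw [mul_add, map_add, ha, hb, add_zero]
    · intro c a ha; rw [mul_smul_comm, map_smul, ha, smul_zero]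
    · intro v
      refine hgt m₀ hm₀ a₀ hnt (fun _ => 0) v (fun s => h1 _) ?_
      rw [Finset.sum_const_zero]
  · intro s t x hx y hy
    change x * y ∈ B.Fil ((s + t : ℤ) : ℝ)
    push_cast
    exact B.mul_mem hn hx hy
  · intro a ha
    change a ∈ B.Fil ((0 : ℤ) : ℝ)
    push_cast
    exact B.alg_mem (by omega) ha
  · intro φ hφ t x hx
    exact B.T_mem (by omega) (W.isAlgEnd_iff.1 hφ) hx
  · exact hsym ⟨S.σ, S.g, S.μ, S.μ_ne, S.g_add, S.g_smul, S.duality,
      fun m _ a b h => S.alg m a b h⟩ t x hx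
  · obtain ⟨T, hT⟩ : ∃ T : ℕ, ∀ i, |ζ i| ≤ T := by
      refine ⟨∑ i, (ζ i).natAbs, fun i => ?_⟩
      have h1 : (ζ i).natAbs ≤ ∑ i, (ζ i).natAbs :=
        Finset.single_le_sum (f := fun i => (ζ i).natAbs) (fun _ _ => Nat.zero_le _)
          (Finset.mem_univ i)
      rw [Int.abs_eq_natAbs]
      exact_mod_cast h1
    obtain ⟨m, S, hm, hS, hrat, hNT⟩ := hcl T hT
    exact detRat_of_altI (by omega) B hζ hT hm hS hrat hNT FB fun t => rfl

end GTh
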