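import Pool.Agent.W_f569db_g.CramerB
import Pool.Agent.W_f569db_g.MainS

set_option autoImplicit false

noncomputable section

namespace GTh

open AlgebraicGeometry CategoryTheory MonoidalCategory
open scoped TensorProduct DirectSum
open Pool.Agent.WeilH_h6 Pool.Agent.WeilH_h6.VarClass Pool.Agent.WeilH_h6.Weil H13F T2F

universe u v w

variable {k : Type u} [Field k] {𝒱 : VarClass k} {K : Type v} [Field K] {W : Weil.{u, v, w} 𝒱 K}

/-- If `D` fails for a power of `X` there is a nonzero isotropic stable subspace of the generator `U` which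
is cut out by every nondegenerate theory of rational classes. -/
theorem exists_obstruction [CharZero K] (X : 𝒱.Obj) (hpr : W.ParityRat X) (P : W.Polarised X)
    (hcon : ∃ m, ¬ W.HomEqNum (X.pow m)) : ∃ I : Submodule K (W.H X), I ≠ ⊥ ∧ P.IsotropicStable I ∧
      ∀ T : W.RatTheory, (∀ m, T.NumEq (X.pow m)) → P.CutOut (fun α => α ∈ T.C (X.prod X)) I := by
  obtain ⟨B, hSD, hne, hMult, hAlg, hStab, hSym, N, M, w, β, S, hN, hS, hβ, hbas, hrat, -⟩ :=
    exists_flag_sym X hpr hcon
  have hpar := par_algHom_of_rat hpr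
  have hne' := detClass_ne hpar hβ hbas
  have hb0 := hbas 1 le_rfl 0 hN
  have hpalg : W.IsAlgEnd X P.p := by
    obtain ⟨α, hα, h⟩ := P.p_rat
    exact ⟨α, W.ratSpan_le hα, h⟩
  have hp2 : ∀ x, P.p (P.p x) = P.p x := P.p_p
  -- the subspace `F^1 ∩ U`
  let I : Submodule K (W.H X) := B.F 1 ⊓ LinearMap.eqLocus P.p LinearMap.id
  have hI : ∀ x, x ∈ I ↔ x ∈ B.F 1 ∧ P.p x = x := by
    intro x
    rw [Submodule.mem_inf, LinearMap.mem_eqLocus, LinearMap.id_apply]
  have hpI : ∀ x ∈ B.F 1, P.p x ∈ I := fun x hx => (hI _).2 ⟨hStab P.p hpalg 1 x hx, hp2 x⟩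
  refine ⟨I, ?_, ⟨fun x hx => ((hI x).1 hx).2,
    fun ψ hψ x hx => ⟨hpI _ (hStab ψ hψ 1 x ((hI x).1 hx).1), fun y hy => ?_⟩,
    fun S x hx => hpI _ (hSym S 1 x ((hI x).1 hx).1)⟩, ?_⟩
  · intro hbot
    have hz : ∀ x ∈ B.F 1, P.p x = x → x = 0 := by
      intro x hx hpx
      have h1 : x ∈ I := (hI x).2 ⟨hx, hpx⟩
      rwa [hbot, Submodule.mem_bot] at h1
    have hpx : ∀ x, P.p x ∈ B.F 0 := by
      intro x
      have h0 : P.p x ∈ B.F (1 - 1) := by
        rw [hSD 1]
        intro y hy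
        have h1 : P.θ' y = 0 := hz _ (hStab P.θ' P.θ'_alg 1 _ hy) (P.p_θ' y)
        have h2 := P.tr_θ x y
        have h3 : W.ap P.θ (W.ap P.θ' y) = 0 := by
          show P.θ (P.θ' y) = 0
          rw [h1, map_zero]
        rw [h3, mul_zero] at h2
        show W.deg (W.ap P.p x * y) = 0
        rw [← h2]
        exact map_zero _
      rwa [sub_self] at h0
    have hF0 : ∀ x, x ∈ B.F 0 := by
      intro x
      have hx : x ∈ Algebra.adjoin K (Set.range P.p ∪ (W.algSpan X : Set (W.H X))) := by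
        rw [P.gen]
        exact Algebra.mem_top
      refine Algebra.adjoin_induction (p := fun x _ => x ∈ B.F 0) ?_ ?_ ?_ ?_ hx
      · rintro x (⟨y, rfl⟩ | h)
        · exact hpx y
        · exact hAlg h
      · intro r
        rw [Algebra.algebraMap_eq_smul_one]
        exact Submodule.smul_mem _ _ (hAlg (W.one_mem_algSpan X))
      · intro x y _ _ hx hy
        exact Submodule.add_mem _ hx hy
      · intro x y _ _ hx hy
        have h := hMult 0 0 x hx y hy
        rwa [add_zero] at h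
    apply hne
    rw [eq_bot_iff]
    intro y hy
    rw [Submodule.mem_bot]
    have hy' : y ∈ B.F (1 - 0) := by rwa [sub_zero]
    exact W.axDuality X y fun z => (hSD 0 y).1 hy' z (hF0 z)
  · have h2 : W.ap ψ y ∈ B.F 1 := hStab ψ hψ 1 _ ((hI y).1 hy).1
    have h3 : x ∈ B.F (1 - 1) := B.anti (1 - 1) 1 (by norm_num) ((hI x).1 hx).1
    exact (hSD 1 _).1 h3 _ h2
  · intro T hT
    have hpT : THom T (W.par X) := par_tHom hpr
    obtain ⟨x₀, hx₀⟩ : ∃ x₀, β x₀ = ((1 : ℤ), 0) := by
      by_contra h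
      push Not at h
      apply hne
      rw [← hb0.2]
      have h2 : Set.range (fun s : {s // β s = ((1 : ℤ), 0)} => w s) = ∅ := by
        rw [Set.range_eq_empty_iff]
        exact ⟨fun s => h s.1 s.2⟩
      rw [h2, Submodule.span_empty]
    obtain ⟨e, κ, hκ, heT, he1, he2⟩ := exists_operator hpT hpar hS (ratSpan_le_T T _ hrat) hne'
      (hT M) x₀
    have heF : ∀ x, e x ∈ B.F 1 := by
      intro x
      rw [← hb0.2]
      refine Submodule.span_mono ?_ (he1 x)
      rintro _ ⟨s, hs, rfl⟩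
      exact ⟨⟨s, Eq.trans hs hx₀⟩, rfl⟩
    have heκ : ∀ x ∈ B.F 1, e x = κ • x := by
      intro x hx
      rw [← hb0.2] at hx
      refine Submodule.span_induction (p := fun x _ => e x = κ • x) ?_ ?_ ?_ ?_ hx
      · rintro _ ⟨s, rfl⟩
        exact he2 s.1 (s.2.trans hx₀.symm)
      · rw [map_zero, smul_zero]
      · intro x y _ _ hx hy
        rw [map_add, hx, hy, smul_add]
      · intro a x _ hx
        rw [map_smul, hx, smul_comm]
    refine ⟨P.p ∘ₗ e ∘ₗ P.p, κ,
      isEnd_iff.2 (((THom.of_rat P.p_rat).comp heT).comp (THom.of_rat P.p_rat)), hκ,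
      fun x => ⟨?_, ?_, hpI _ (heF _)⟩, ?_⟩
    · show P.p (P.p (e (P.p x))) = P.p (e (P.p x))
      rw [hp2]
    · show P.p (e (P.p (P.p x))) = P.p (e (P.p x))
      rw [hp2]
    · intro x hx
      obtain ⟨h1, h2⟩ := (hI x).1 hx
      show P.p (e (P.p x)) = κ • x
      rw [h2, heκ x h1, map_smul, h2]

end GTh
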