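import Pool.Agent.W_f569db_g.RepR
import Pool.Agent.W_f569db_g.FamR
import Pool.Agent.W_f569db_t2.RepTot

set_option autoImplicit false

noncomputable section

namespace GTh

open AlgebraicGeometry CategoryTheory MonoidalCategory
open scoped TensorProduct DirectSum
open Pool.Agent.WeilH_h6 Pool.Agent.WeilH_h6.VarClass Pool.Agent.WeilH_h6.Weil H13F T2F

universe u v w

variable {k : Type u} [Field k] {𝒱 : VarClass k} {K : Type v} [Field K] {W : Weil.{u, v, w} 𝒱 K}

variable [CharZero K] {X : 𝒱.Obj} {hpar : W.par X ∈ W.algHom X X} {n : ℕ} {α : Type} [Fintype α]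
  (B : NWB (W := W) (X := X) hpar n α) {b : α → W.H X}

/-- An array on `Fin n` whose class is rational.  Proof: as `T2F.RepFam_alg`, with `ratA_iff`. -/
theorem repFam_rat (hp : THom (cycT W) (W.par X)) (hpar : W.par X ∈ W.algHom X X)
    {y : (Fin n → α) → K} (h : cls W b n y ∈ W.ratSpan (X.pow n)) : RatA (cycT W) b y :=
  (ratA_iff hp hpar (Equiv.refl (Fin n)) y).2 h

/-- The proof of `T2F.rep_pair` for a rational pair. -/
theorem rep_pair_rat (hp : THom (cycT W) (W.par X)) {P : Type} (e : (P → α) → K) (p : PairS W b n)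
    (hr : RatPair b n p) :
    RepR B b e (fun u : Fin n ⊕ Fin n → α =>
      (p.2.1 fun s => u (Sum.inl s)) * p.1.1 fun s => u (Sum.inr s)) 0 0 := by
  have h1 : RatA (cycT W) b p.1.1 := repFam_rat hp hpar hr.1
  have h2 : RatA (cycT W) b p.2.1 := repFam_rat hp hpar hr.2
  have hc : Fintype.card (Fin n) ≤ n := (Fintype.card_fin n).le
  have h3 := WtA.box B (WtA.of_alg B hc h2.alg) (WtA.of_alg B hc h1.alg)
  rw [add_zero] at h3
  exact RepR.of_rat B (RatA.box hp hpar h2 h1) (fun h => absurd h (lt_irrefl _)) h3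

/-- The proof of `T2F.rep_pairZ` for a rational pair. -/
theorem rep_pairZ_rat (hp : THom (cycT W) (W.par X)) {P : Type} (e : (P → α) → K)
    (p : famZ (W := W) b n) (hr : RatPair b n p.1) :
    RepR B b e (fun u : Fin n ⊕ Fin n → α =>
      (p.1.2.1 fun s => u (Sum.inl s)) * p.1.1.1 fun s => u (Sum.inr s)) 0 1 := by
  have h1 : RatA (cycT W) b p.1.1.1 := repFam_rat hp hpar hr.1
  have h2 : RatA (cycT W) b p.1.2.1 := repFam_rat hp hpar hr.2
  have hc : Fintype.card (Fin n) ≤ n := (Fintype.card_fin n).le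
  rcases p.2 with h | h
  · have hn : NTA W b p.1.1.1 := RepFam_nt hpar h
    have h3 := WtA.box B (WtA.of_alg B hc h2.alg) (WtA.of_nt B hc hn)
    rw [zero_add] at h3
    exact RepR.of_rat B (RatA.box hp hpar h2 h1) (fun _ => NTA.box_right hpar h2.alg hn) h3
  · have hn : NTA W b p.1.2.1 := RepFam_nt hpar h
    have h3 := WtA.box B (WtA.of_nt B hc hn) (WtA.of_alg B hc h1.alg)
    rw [add_zero] at h3
    exact RepR.of_rat B (RatA.box hp hpar h2 h1) (fun _ => NTA.box_left hpar hn h1.alg) h3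

/-- The proof of `T2F.rep_inl` for a rational member. -/
theorem rep_inl_rat (hp : THom (cycT W) (W.par X)) {P : Type} [Fintype P] [DecidableEq P]
    {o o' e : (P → α) → K} (ho : RatA (cycT W) b o) (ho' : RatA (cycT W) b o') (hwo : WtA B b o 0)
    (hwo' : WtA B b o' 0) {r₀ : ℕ} (q : Fin r₀ → PairS W b n) (hr : ∀ j, RatPair b n (q j)) :
    RepR B b e (fun u : ((Fin r₀ × Fin n) ⊕ P) ⊕ ((Fin r₀ × Fin n) ⊕ P) → α =>
      (bigZ o' q fun s => u (Sum.inl s)) * bigY o q fun s => u (Sum.inr s)) 0 0 := by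
  have h1 := RepR.prod B hp (fun _ : Fin r₀ => le_refl (0 : ℝ)) fun j : Fin r₀ =>
    rep_pair_rat B hp e (q j) (hr j)
  have h3 := WtA.box B hwo' hwo
  rw [add_zero] at h3
  have h2 : RepR B b e (fun c : P ⊕ P → α => (o' fun i => c (Sum.inl i)) * o fun i => c (Sum.inr i))
      0 0 := RepR.of_rat B (RatA.box hp hpar ho' ho) (fun h => absurd h (lt_irrefl _)) h3
  have h4 := RepR.mul B hp (Finset.sum_nonneg fun _ _ => le_refl (0 : ℝ)) (le_refl (0 : ℝ)) h1 h2
  have h5 := RepR.reindex B (RepFam_g r₀ n P) h4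
  rw [Finset.sum_const_zero, Finset.sum_const_zero, add_zero, add_zero] at h5
  have h6 : (fun u : ((Fin r₀ × Fin n) ⊕ P) ⊕ ((Fin r₀ × Fin n) ⊕ P) → α =>
      (bigZ o' q fun s => u (Sum.inl s)) * bigY o q fun s => u (Sum.inr s)) =
      fun u : ((Fin r₀ × Fin n) ⊕ P) ⊕ ((Fin r₀ × Fin n) ⊕ P) → α =>
        (∏ j, ((q j).2.1 fun s => u (RepFam_g r₀ n P (Sum.inl (j, Sum.inl s)))) *
          (q j).1.1 fun s => u (RepFam_g r₀ n P (Sum.inl (j, Sum.inr s)))) *
        ((o' fun s => u (RepFam_g r₀ n P (Sum.inr (Sum.inl s)))) *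
          o fun s => u (RepFam_g r₀ n P (Sum.inr (Sum.inr s)))) := by
    funext u
    rw [Finset.prod_mul_distrib, mul_mul_mul_comm]
    rfl
  rw [h6]
  exact h5

/-- The proof of `T2F.rep_inr` for a rational member. -/
theorem rep_inr_rat (hp : THom (cycT W) (W.par X)) {P : Type} {e : (P → α) → K} {r₀ : ℕ}
    (q : Fin r₀ → famZ (W := W) b n) (hr : ∀ j, RatPair b n (q j).1) :
    RepR B b e (fun u : ((Fin r₀ × Fin n) ⊕ P) ⊕ ((Fin r₀ × Fin n) ⊕ P) → α =>
      (bigZ e (fun j => (q j).1) fun s => u (Sum.inl s)) * bigY e (fun j => (q j).1) fun s =>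
        u (Sum.inr s)) 2 r₀ := by
  have h1 := RepR.prod B hp (fun _ : Fin r₀ => zero_le_one (α := ℝ)) fun j : Fin r₀ =>
    rep_pairZ_rat B hp e (q j) (hr j)
  have h2 := RepR.mul B hp (le_refl (0 : ℝ)) (le_refl (0 : ℝ)) (RepR.single B hp (b := b) (e := e))
    (RepR.single B hp (b := b) (e := e))
  have h4 := RepR.mul B hp (Finset.sum_nonneg fun _ _ => zero_le_one (α := ℝ))
    (add_nonneg (le_refl (0 : ℝ)) (le_refl (0 : ℝ))) h1 h2
  have h5 := RepR.reindex B (RepFam_g r₀ n P) h4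
  rw [Finset.sum_const_zero, Finset.sum_const, Finset.card_univ, Fintype.card_fin, nsmul_eq_mul,
    mul_one, add_zero, add_zero, zero_add] at h5
  have h6 : (fun u : ((Fin r₀ × Fin n) ⊕ P) ⊕ ((Fin r₀ × Fin n) ⊕ P) → α =>
      (bigZ e (fun j => (q j).1) fun s => u (Sum.inl s)) * bigY e (fun j => (q j).1) fun s =>
        u (Sum.inr s)) =
      fun u : ((Fin r₀ × Fin n) ⊕ P) ⊕ ((Fin r₀ × Fin n) ⊕ P) → α =>
        (∏ j, ((q j).1.2.1 fun s => u (RepFam_g r₀ n P (Sum.inl (j, Sum.inl s)))) *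
          (q j).1.1.1 fun s => u (RepFam_g r₀ n P (Sum.inl (j, Sum.inr s)))) *
        ((e fun s => u (RepFam_g r₀ n P (Sum.inr (Sum.inl s)))) *
          e fun s => u (RepFam_g r₀ n P (Sum.inr (Sum.inr s)))) := by
    funext u
    rw [Finset.prod_mul_distrib, mul_mul_mul_comm]
    rfl
  rw [h6]
  exact h5

/-- The proof of `T2F.rep_total` (file W_f569db_t2/RepTot.lean) for rational members. -/
theorem rep_total_rat (hp : THom (cycT W) (W.par X)) {P : Type} [Fintype P] [DecidableEq P]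
    {o o' e : (P → α) → K} (ho : RatA (cycT W) b o) (ho' : RatA (cycT W) b o')
    (hwo : WtA B b o 0) (hwo' : WtA B b o' 0) {r₀ : ℕ} {d : ℕ} (v : Fin (d + 1) → LamR W b n r₀)
    (hv : ∃ j, (v j).1 ∈ Set.range Sum.inr)
    (σ : Equiv.Perm (Fin (d + 1) × ((Fin r₀ × Fin n) ⊕ P))) :
    ∃ N : ℕ, 0 < N ∧ RepR B b e
      (fun u : (Fin (d + 1) × ((Fin r₀ × Fin n) ⊕ P)) ⊕ (Fin (d + 1) × ((Fin r₀ × Fin n) ⊕ P)) → α =>
        ∏ j, ((lamZ o' e (v j).1 fun s => u (Sum.inl (j, s))) *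
          lamY o e (v j).1 fun s => u (Sum.inr (σ.symm (j, s))))) (2 * N) (N * r₀) := by
  have h1 : ∀ j, RepR B b e
      (fun u : ((Fin r₀ × Fin n) ⊕ P) ⊕ ((Fin r₀ × Fin n) ⊕ P) → α =>
        (lamZ o' e (v j).1 fun s => u (Sum.inl s)) * lamY o e (v j).1 fun s => u (Sum.inr s))
      (if (v j).1.isRight = true then 2 else 0)
      (if (v j).1.isRight = true then (r₀ : ℝ) else 0) := by
    intro j
    rcases v j with ⟨q | q, hq⟩
    · exact rep_inl_rat B hp ho ho' hwo hwo' q hq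
    · exact rep_inr_rat B hp q hq
  have h2 : ∀ j, (0 : ℝ) ≤ (if (v j).1.isRight = true then (r₀ : ℝ) else 0) := by
    intro j
    split_ifs
    · exact Nat.cast_nonneg _
    · exact le_rfl
  have h3 := RepR.prod B hp h2 h1
  have h4 := RepR.reindex B ((Equiv.prodSumDistrib (Fin (d + 1)) ((Fin r₀ × Fin n) ⊕ P)
    ((Fin r₀ × Fin n) ⊕ P)).trans (Equiv.sumCongr (Equiv.refl _) σ.symm)) h3
  have e1 : ∑ j, (if (v j).1.isRight = true then 2 else 0) =
      2 * (Finset.univ.filter fun j => (v j).1.isRight = true).card := by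
    rw [← Finset.sum_filter, Finset.sum_const, smul_eq_mul, mul_comm]
  have e2 : ∑ j, (if (v j).1.isRight = true then (r₀ : ℝ) else 0) =
      ((Finset.univ.filter fun j => (v j).1.isRight = true).card : ℝ) * r₀ := by
    rw [← Finset.sum_filter, Finset.sum_const, nsmul_eq_mul]
  rw [e1, e2] at h4
  refine ⟨(Finset.univ.filter fun j => (v j).1.isRight = true).card, ?_, h4⟩
  obtain ⟨j, q, hq⟩ := hv
  refine Finset.card_pos.2 ⟨j, Finset.mem_filter.2 ⟨Finset.mem_univ _, ?_⟩⟩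
  rw [← hq]
  rfl

end GTh
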