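import Pool.Agent.W_f569db_g.ArrT
import Pool.Agent.W_f569db_t2.Rep

set_option autoImplicit false

noncomputable section

namespace GTh

open AlgebraicGeometry CategoryTheory MonoidalCategory
open scoped TensorProduct DirectSum
open Pool.Agent.WeilH_h6 Pool.Agent.WeilH_h6.VarClass Pool.Agent.WeilH_h6.Weil H13F T2F

universe u v w

variable {k : Type u} [Field k] {𝒱 : VarClass k} {K : Type v} [Field K] {W : Weil.{u, v, w} 𝒱 K}

section defs

variable [CharZero K] {X : 𝒱.Obj} {hpar : W.par X ∈ W.algHom X X} {n : ℕ} {α : Type} [Fintype α]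

/-- `T2F.RepA` with a rational class `C`: the array `T` is, up to reindexing, the product of a rational
array `C` of weight `≥ w` (numerically trivial if `w > 0`) and of `m` copies of the array `e`. -/
def RepR (B : NWB (W := W) (X := X) hpar n α) (b : α → W.H X) {P : Type} (e : (P → α) → K)
    {ι : Type} (T : (ι → α) → K) (m : ℕ) (w : ℝ) : Prop :=
  ∃ (Q : Type) (_ : Fintype Q) (_ : DecidableEq Q) (C : (Q → α) → K) (g : Q ⊕ (P × Fin m) ≃ ι),
    RatA (cycT W) b C ∧ (0 < w → NTA W b C) ∧ WtA B b C w ∧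
      ∀ c : ι → α, T c = C (fun q => c (g (Sum.inl q))) *
        ∏ j : Fin m, e (fun s => c (g (Sum.inr (s, j))))

end defs

variable [CharZero K] {X : 𝒱.Obj} {hpar : W.par X ∈ W.algHom X X} {n : ℕ} {α : Type} [Fintype α]
  (B : NWB (W := W) (X := X) hpar n α) {b : α → W.H X} {P : Type} {e : (P → α) → K}

/-- The proof of `T2F.RepA.of_alg`. -/
theorem RepR.of_rat {ι : Type} [Fintype ι] [DecidableEq ι] {T : (ι → α) → K} {w : ℝ}
    (h : RatA (cycT W) b T) (h0 : 0 < w → NTA W b T) (hw : WtA B b T w) : RepR B b e T 0 w := by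
  refine ⟨ι, inferInstance, inferInstance, T, Equiv.sumEmpty ι (P × Fin 0), h, h0, hw, fun c => ?_⟩
  rw [Fin.prod_univ_zero, mul_one]
  rfl

/-- The proof of `T2F.RepA.single`, with `RatA.empty`. -/
theorem RepR.single (hp : THom (cycT W) (W.par X)) : RepR B b e e 1 0 := by
  refine ⟨Empty, inferInstance, inferInstance, fun _ => 1,
    (Equiv.emptySum Empty (P × Fin 1)).trans (Equiv.prodUnique P (Fin 1)), RatA.empty hp hpar,
    fun h => absurd h (lt_irrefl _), WtA.empty B, fun c => ?_⟩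
  rw [Fin.prod_univ_one, one_mul]
  rfl

/-- The proof of `T2F.RepA.reindex`. -/
theorem RepR.reindex {ι κ : Type} (g : ι ≃ κ) {T : (ι → α) → K} {m : ℕ} {w : ℝ}
    (h : RepR B b e T m w) : RepR B b e (fun c : κ → α => T fun i => c (g i)) m w := by
  obtain ⟨Q, _, _, C, g₀, h1, h2, h3, h4⟩ := h
  exact ⟨Q, inferInstance, inferInstance, C, g₀.trans g, h1, h2, h3, fun c => h4 fun i => c (g i)⟩

/-- The proof of `T2F.RepA.mul`, with `RatA.box`, `RatA.alg`. -/
theorem RepR.mul (hp : THom (cycT W) (W.par X)) {ι κ : Type} {T : (ι → α) → K} {T' : (κ → α) → K}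
    {m m' : ℕ} {w w' : ℝ} (hw : 0 ≤ w) (hw' : 0 ≤ w') (h : RepR B b e T m w)
    (h' : RepR B b e T' m' w') :
    RepR B b e (fun c : ι ⊕ κ → α => (T fun i => c (Sum.inl i)) * T' fun i => c (Sum.inr i))
      (m + m') (w + w') := by
  obtain ⟨Q, _, _, C, g, h1, h2, h3, h4⟩ := h
  obtain ⟨Q', _, _, C', g', h1', h2', h3', h4'⟩ := h'
  refine ⟨Q ⊕ Q', inferInstance, inferInstance,
    fun c => (C fun q => c (Sum.inl q)) * C' fun q => c (Sum.inr q), Rep_mulEquiv g g',
    RatA.box hp hpar h1 h1', fun hpos => ?_, WtA.box B h3 h3', fun c => ?_⟩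
  · rcases hw.lt_or_eq with h5 | h5
    · exact NTA.box_left hpar (h2 h5) h1'.alg
    · have h6 : 0 < w' := by linarith
      exact NTA.box_right hpar h1.alg (h2' h6)
  · rw [Fin.prod_univ_add]
    simp only [Rep_mulEquiv_castAdd, Rep_mulEquiv_natAdd, Rep_mulEquiv_inl_inl,
      Rep_mulEquiv_inl_inr]
    have e1 := h4 fun i => c (Sum.inl i)
    have e2 := h4' fun i => c (Sum.inr i)
    rw [e1, e2]
    exact mul_mul_mul_comm _ _ _ _

/-- The proof of `T2F.RepA.prod`. -/
theorem RepR.prod (hp : THom (cycT W) (W.par X)) {ι : Type} {N : ℕ} {T : Fin N → (ι → α) → K}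
    {m : Fin N → ℕ} {w : Fin N → ℝ} (hw : ∀ j, 0 ≤ w j) (h : ∀ j, RepR B b e (T j) (m j) (w j)) :
    RepR B b e (fun c : Fin N × ι → α => ∏ j, T j fun i => c (j, i)) (∑ j, m j) (∑ j, w j) := by
  induction N with
  | zero =>
    classical
    let _ : Fintype (Fin 0 × ι) := Fintype.ofIsEmpty
    rw [Fin.sum_univ_zero, Fin.sum_univ_zero]
    have h1 : (fun c : Fin 0 × ι → α => ∏ j, T j fun i => c (j, i)) = fun _ => 1 := by
      funext c
      exact Fin.prod_univ_zero _
    rw [h1]
    exact RepR.of_rat B (RatA.empty hp hpar) (fun h => absurd h (lt_irrefl _)) (WtA.empty B)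
  | succ N ih =>
    have h1 := ih (T := fun j => T j.castSucc) (m := fun j => m j.castSucc)
      (w := fun j => w j.castSucc) (fun j => hw _) fun j => h _
    have h2 := RepR.mul B hp (Finset.sum_nonneg fun j _ => hw _) (hw (Fin.last N)) h1
      (h (Fin.last N))
    have h3 := RepR.reindex B (Rep_succEquiv N ι) h2
    rw [Fin.sum_univ_castSucc, Fin.sum_univ_castSucc]
    have h4 : (fun c : Fin (N + 1) × ι → α => ∏ j, T j fun i => c (j, i)) =
        fun c : Fin (N + 1) × ι → α => (∏ j : Fin N, T j.castSucc fun i =>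
          c (Rep_succEquiv N ι (Sum.inl (j, i)))) *
            T (Fin.last N) fun i => c (Rep_succEquiv N ι (Sum.inr i)) := by
      funext c
      exact Fin.prod_univ_castSucc _
    rw [h4]
    exact h3

end GTh
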