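import Pool.Agent.W_f569db_g.Th
import Pool.Agent.WeilH_h6.RatNT
import Pool.Agent.W_f569db_t2.Defs

set_option autoImplicit false

noncomputable section

namespace GTh

open AlgebraicGeometry CategoryTheory MonoidalCategory
open scoped TensorProduct DirectSum
open Pool.Agent.WeilH_h6 Pool.Agent.WeilH_h6.VarClass Pool.Agent.WeilH_h6.Weil H13F T2F

universe u v w

variable {k : Type u} [Field k] {𝒱 : VarClass k} {K : Type v} [Field K] {W : Weil.{u, v, w} 𝒱 K}

variable [CharZero K]

/-- Proof: `Submodule.span_le`, the generators `W.cl z` are in `W.ratSpan Y`. -/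
theorem algSpan_le_span_rat (Y : 𝒱.Obj) :
    W.algSpan Y ≤ Submodule.span K (W.ratSpan Y : Set (W.H Y)) := by
  refine Submodule.span_le.2 ?_
  rintro _ ⟨i, z, rfl⟩
  exact Submodule.subset_span (W.cl_mem_ratSpan z)

/-- One codimension. -/
theorem SpanR_one {Y : 𝒱.Obj} {i : ℕ} {b : W.H Y}
    (hb : b ∈ Submodule.span K {a | ∃ z : Cyc Y i, W.cl z = a})
    (hn : ∀ (j : ℕ) (z' : Cyc Y j), i + j = Y.dim → W.tr Y (b * W.cl z') = 0) :
    b ∈ Submodule.span K {r : W.H Y | r ∈ W.ratSpan Y ∧ W.NT r} := by
  obtain ⟨w, hw⟩ := W.RatNT_repr (Module.Basis.ofVectorSpace ℚ K) hb 1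
  rw [one_smul] at hw
  obtain ⟨β, hβ⟩ : ∃ β, β = Module.Basis.ofVectorSpace ℚ K := ⟨_, rfl⟩
  rw [← hβ] at hw
  have hcl : ∀ t ∈ w.support, ∀ (j : ℕ) (z' : Cyc Y j), W.tr Y (W.cl (w t) * W.cl z') = 0 := by
    intro t ht j z'
    by_cases hij : i + j = Y.dim
    · choose q hq using fun s => W.exists_rat hij (w s) z'
      have h1 := hn j z' hij
      rw [hw, Finsupp.sum, Finset.sum_mul, map_sum] at h1
      have h2 : ∑ s ∈ w.support, q s • β s = 0 := by
        rw [← h1]
        refine Finset.sum_congr rfl fun s _ => ?_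
        rw [smul_mul_assoc, map_smul, hq, smul_eq_mul, Rat.smul_def, mul_comm]
      have h3 := linearIndependent_iff'.1 β.linearIndependent w.support q h2 t ht
      rw [hq, h3, Rat.cast_zero]
    · refine W.tr_grad Y (2 * i + 2 * j) _
        (W.mul_mem_grad (W.cl_mem_grad (w t)) (W.cl_mem_grad z')) ?_
      omega
  have hNT : ∀ t ∈ w.support, W.NT (W.cl (w t)) := by
    intro t ht
    refine ⟨W.cl_mem_algSpan _, fun b' hb' => ?_⟩
    unfold algSpan at hb'
    induction hb' using Submodule.span_induction with
    | mem x hx =>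
      obtain ⟨j, z', rfl⟩ := hx
      exact hcl t ht j z'
    | zero => rw [mul_zero, map_zero]
    | add x y _ _ hx hy => rw [mul_add, map_add, hx, hy, add_zero]
    | smul c x _ hx => rw [mul_smul_comm, map_smul, hx, smul_zero]
  rw [hw]
  refine Submodule.sum_mem _ fun t ht => ?_
  exact Submodule.smul_mem _ _ (Submodule.subset_span ⟨W.cl_mem_ratSpan _, hNT t ht⟩)

/-- The numerically trivial elements of the `K`-span of the algebraic classes are `K`-combinations of
numerically trivial sums of classes of cycles with rational coefficients.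

Proof.  As in the proof of `nt_eq_zero_of_homEqNum` (file WeilH_h6/RatNT.lean): `a = ∑ i, f i` with `f i` in
the span of the classes of cycles of codimension `i`, and `Tr (f i · cl z') = 0` for all cycles `z'` of
codimension `dim Y - i` (the other components of `a` do not contribute).  By `RatNT_repr`
(`β = Module.Basis.ofVectorSpace ℚ K`) `f i = ∑ t, β t • cl (w t)`, and as in the proof of `RatNT_span` all
the numbers `Tr (cl (w t) · cl z')`, which are rational (`exists_rat`), are zero.  So `cl (w t)` is in
`W.ratSpan Y` and numerically trivial: by linearity (`Submodule.span_induction`) it is enough to show that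
`Tr (cl (w t) · cl z') = 0` for all cycles `z'` of codimension `j`; if `i + j = dim Y` this was just shown,
otherwise it holds by `tr_grad` (`mul_mem_grad`, `cl_mem_grad`). -/
theorem nt_mem_span_rat {Y : 𝒱.Obj} {a : W.H Y} (ha : W.NT a) :
    a ∈ Submodule.span K {r : W.H Y | r ∈ W.ratSpan Y ∧ W.NT r} := by
  obtain ⟨V, hV⟩ : ∃ V : ℕ → Submodule K (W.H Y),
    ∀ i, V i = Submodule.span K {a | ∃ z : Cyc Y i, W.cl z = a} := ⟨_, fun _ => rfl⟩
  have hVg : ∀ i, V i ≤ W.grad Y (2 * i) := by
    intro i
    rw [hV, Submodule.span_le]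
    rintro _ ⟨z, rfl⟩
    exact W.cl_mem_grad z
  have hle : W.algSpan Y ≤ ⨆ i, V i := by
    unfold algSpan
    rw [Submodule.span_le]
    rintro _ ⟨i, z, rfl⟩
    refine (le_iSup V i) ?_
    rw [hV]
    exact Submodule.subset_span ⟨z, rfl⟩
  obtain ⟨f, hf, hfa⟩ := (Submodule.mem_iSup_iff_exists_finsupp V a).1 (hle ha.1)
  rw [← hfa]
  refine Submodule.sum_mem _ fun i _ => ?_
  refine SpanR_one (i := i) (by rw [← hV]; exact hf i) ?_
  intro j z' hij
  have h1 : W.tr Y (a * W.cl z') = 0 := ha.2 _ (W.cl_mem_algSpan z')
  rw [← hfa, Finsupp.sum, Finset.sum_mul, map_sum, Finset.sum_eq_single i] at h1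
  · exact h1
  · intro l _ hl
    refine W.tr_grad Y (2 * l + 2 * j) _ (W.mul_mem_grad (hVg l (hf l)) (W.cl_mem_grad z')) ?_
    omega
  · intro hi
    rw [Finsupp.notMem_support_iff] at hi
    rw [hi, zero_mul, map_zero]

omit [CharZero K] in
/-- Multilinear maps and spans.  Proof: by induction on a finite set `s` of indices `i` one shows: if
`x i ∈ S i` for `i ∉ s` and `x i ∈ span (S i)` for `i ∈ s` then `f x` is in the span; for the step
`insert i s` use `Submodule.span_induction` for `x i`, with `f (Function.update x i ·)`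
(`Function.update_eq_self`). -/
theorem mem_span_multi {ι : Type} [Fintype ι] [DecidableEq ι] {M N : Type*} [AddCommGroup M]
    [Module K M] [AddCommGroup N] [Module K N] (f : (ι → M) → N)
    (hadd : ∀ (x : ι → M) (i : ι) (a b : M), f (Function.update x i (a + b)) =
      f (Function.update x i a) + f (Function.update x i b))
    (hsmul : ∀ (x : ι → M) (i : ι) (c : K) (a : M), f (Function.update x i (c • a)) =
      c • f (Function.update x i a))
    (S : ι → Set M) (x : ι → M) (hx : ∀ i, x i ∈ Submodule.span K (S i)) :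
    f x ∈ Submodule.span K {n | ∃ y : ι → M, (∀ i, y i ∈ S i) ∧ f y = n} := by
  classical
  -- the induction on the set of the indices which are already arbitrary
  have key : ∀ (s : Finset ι) (x : ι → M), (∀ i ∈ s, x i ∈ Submodule.span K (S i)) →
      (∀ i, i ∉ s → x i ∈ S i) →
      f x ∈ Submodule.span K {n | ∃ y : ι → M, (∀ i, y i ∈ S i) ∧ f y = n} := by
    intro s
    induction s using Finset.induction_on with
    | empty =>
      intro x _ h2
      exact Submodule.subset_span ⟨x, fun i => h2 i (Finset.notMem_empty i), rfl⟩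
    | insert i s his ih =>
      intro x h1 h2
      have h3 : ∀ a ∈ Submodule.span K (S i), f (Function.update x i a) ∈
          Submodule.span K {n | ∃ y : ι → M, (∀ i, y i ∈ S i) ∧ f y = n} := by
        intro a ha
        induction ha using Submodule.span_induction with
        | mem a ha =>
          refine ih (Function.update x i a) (fun j hj => ?_) (fun j hj => ?_)
          · have hji : j ≠ i := fun h => his (h ▸ hj)
            rw [Function.update_of_ne hji]
            exact h1 j (Finset.mem_insert_of_mem hj)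
          · by_cases hji : j = i
            · subst hji
              rw [Function.update_self]
              exact ha
            · rw [Function.update_of_ne hji]
              exact h2 j (fun h => (Finset.mem_insert.1 h).elim hji hj)
        | zero =>
          have h4 := hsmul x i 0 0
          rw [smul_zero, zero_smul] at h4
          rw [h4]
          exact Submodule.zero_mem _
        | add a b _ _ ha hb =>
          rw [hadd]
          exact Submodule.add_mem _ ha hb
        | smul c a _ ha =>
          rw [hsmul]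
          exact Submodule.smul_mem _ _ ha
      have h4 := h3 (x i) (h1 i (Finset.mem_insert_self _ _))
      rwa [Function.update_eq_self] at h4
  exact key Finset.univ x (fun i _ => hx i) (fun i hi => absurd (Finset.mem_univ i) hi)

omit [CharZero K] in
/-- The condition `PosS` is linear in the operators.  Proof: for `x` in the span of `A` with
`cj g⁻¹ x a b ≠ 0` there is `x' ∈ A` with `cj g⁻¹ x' a b ≠ 0`, as `x ↦ cj g⁻¹ x a b` is linear
(`H69.kempfA_cj_inv` and the linearity of the matrix product, or the definition of `H69.cj`). -/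
theorem posS_span {α : Type} [Fintype α] [DecidableEq α] {ι : Type} [Fintype ι] [DecidableEq ι]
    {A A' N N' : Set (Matrix (ι → α) (ι → α) K)} {g : (Matrix α α K)ˣ} {ξ : α → ℝ}
    (h : PosS A N g ξ) (hA : ∀ x ∈ A', x ∈ Submodule.span K A)
    (hN : ∀ x ∈ N', x ∈ Submodule.span K N) : PosS A' N' g ξ := by
  have key : ∀ (B : Set (Matrix (ι → α) (ι → α) K)) (r : ℝ),
      (∀ x ∈ B, ∀ a b, H69.cj g⁻¹ x a b ≠ 0 → r ≤ wt ξ a b) →
      ∀ x ∈ Submodule.span K B, ∀ a b, H69.cj g⁻¹ x a b ≠ 0 → r ≤ wt ξ a b := by
    intro B r hB x hx a b hab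
    by_contra hr
    apply hab
    clear hab
    induction hx using Submodule.span_induction with
    | mem x hx =>
      by_contra h0
      exact hr (hB x hx a b h0)
    | zero =>
      unfold H69.cj
      rw [Matrix.mul_zero, Matrix.zero_mul]
      rfl
    | add x y _ _ hx hy =>
      have h1 : H69.cj g⁻¹ (x + y) = H69.cj g⁻¹ x + H69.cj g⁻¹ y := by
        unfold H69.cj
        rw [Matrix.mul_add, Matrix.add_mul]
      rw [h1, Matrix.add_apply, hx, hy, add_zero]
    | smul c x _ hx =>
      have h1 : H69.cj g⁻¹ (c • x) = c • H69.cj g⁻¹ x := by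
        unfold H69.cj
        rw [Matrix.mul_smul, Matrix.smul_mul]
      rw [h1, Matrix.smul_apply, hx, smul_zero]
  exact ⟨fun x hx => key A 0 h.1 x (hA x hx), fun x hx => key N 1 h.2 x (hN x hx)⟩

end GTh
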