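import Pool.Agent.W_f569db_g.Defs

set_option autoImplicit false

/-!
# Specialisations
-/

noncomputable section

namespace Pool.Agent.WeilH_h6.Weil

open AlgebraicGeometry CategoryTheory MonoidalCategory
open VarClass

universe u v w u' w'

variable {k : Type u} [Field k] {𝒱 : VarClass k} {K : Type v} [Field K] (W : Weil.{u, v, w} 𝒱 K)
  {k₀ : Type u'} [Field k₀] {𝒱₀ : VarClass k₀} (W₀ : Weil.{u', v, w'} 𝒱₀ K)

/-- Varieties `Y₀ = obj Y` over `k₀` for all varieties `Y` over `k` of the class `𝒱`, morphisms
`(Y × Z)₀ → Y₀` and `(Y × Z)₀ → Z₀`, and isomorphisms of `K`-algebras `sp : H(Y) ≅ H(Y₀)`. -/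
structure SpecData where
  obj : 𝒱.Obj → 𝒱₀.Obj
  fst : ∀ Y Z : 𝒱.Obj, obj (Y.prod Z) ⟶ obj Y
  snd : ∀ Y Z : 𝒱.Obj, obj (Y.prod Z) ⟶ obj Z
  sp : ∀ Y : 𝒱.Obj, W.H Y ≃ₐ[K] W₀.H (obj Y)

namespace SpecData

variable {W W₀} (S : SpecData W W₀)

/-- The specialisation of the class `x`. -/
def app {Y : 𝒱.Obj} (x : W.H Y) : W₀.H (S.obj Y) := S.sp Y x

/-- Specialisation is compatible with the degrees. -/
def Graded : Prop := ∀ (Y : 𝒱.Obj) (i : ℕ), ∀ x ∈ W.grad Y i, S.app x ∈ W₀.grad (S.obj Y) i

/-- Specialisation is compatible with the traces. -/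
def Traces : Prop := ∀ (Y : 𝒱.Obj) (x : W.H Y), W₀.deg (S.app x) = W.deg x

/-- Specialisation is compatible with the pull-backs along the first projections. -/
def Fst : Prop := ∀ (Y Z : 𝒱.Obj) (y : W.H Y), S.app (W.pb (Obj.fst Y Z) y) = W₀.pb (S.fst Y Z) (S.app y)

/-- Specialisation is compatible with the pull-backs along the second projections. -/
def Snd : Prop := ∀ (Y Z : 𝒱.Obj) (z : W.H Z), S.app (W.pb (Obj.snd Y Z) z) = W₀.pb (S.snd Y Z) (S.app z)

/-- Specialisation maps the classes of cycles to classes of cycles. -/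
def Cycles : Prop :=
  ∀ (Y : 𝒱.Obj) (i : ℕ) (z : Cyc Y i), ∃ z₀ : Cyc (S.obj Y) i, S.app (W.cl z) = W₀.cl z₀

end SpecData

/-- A specialisation of the varieties of the class `𝒱` over `k` to varieties over another field `k₀`, with
Weil cohomologies `W` and `W₀` (for instance, reduction for the class of all products of varieties with good
reduction): every variety `Y` of the class `𝒱` has a specialisation `Y₀`, the projections `Y × Z → Y` and
`Y × Z → Z` have specialisations `(Y × Z)₀ → Y₀` and `(Y × Z)₀ → Z₀`, and there are isomorphisms of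
`K`-algebras `H(Y) ≅ H(Y₀)` which are compatible with the degrees, the traces and the pull-backs along the
projections, and which map the classes of cycles to classes of cycles.  (Not every class of a cycle on `Y₀`
comes from a cycle on `Y`.) -/
structure Specialisation extends SpecData W W₀ where
  graded : toSpecData.Graded
  traces : toSpecData.Traces
  pull_fst : toSpecData.Fst
  pull_snd : toSpecData.Snd
  cycles : toSpecData.Cycles

variable {W W₀}

/-- The specialisation of the class `a` is the class of a cycle with rational coefficients. -/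
def SpecData.IsRat (S : SpecData W W₀) {Y : 𝒱.Obj} (a : W.H Y) : Prop := S.app a ∈ W₀.ratSpan (S.obj Y)

end Pool.Agent.WeilH_h6.Weil
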