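import Pool.Agent.W_f569db_g.Api
import Pool.Agent.WeilH_h6.RatHom

set_option autoImplicit false

/-!
# Theories of rational classes: correspondences
-/

noncomputable section

namespace GTh

open AlgebraicGeometry CategoryTheory MonoidalCategory
open scoped TensorProduct DirectSum
open Pool.Agent.WeilH_h6 Pool.Agent.WeilH_h6.VarClass Pool.Agent.WeilH_h6.Weil

universe u v w

variable {k : Type u} [Field k] {𝒱 : VarClass k} {K : Type v} [Field K] {W : Weil.{u, v, w} 𝒱 K}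

/-- The theory of the classes of cycles.  Proof of the fields: `ratSpan_smul`, `ratSpan_le` and the
definition of `algSpan` (`cl_mem_grad`: closure induction, `Submodule.mem_iSup_of_mem`), `cl_mem_ratSpan`,
`mul_mem_ratSpan`, `pull_mem_ratSpan`, `push_ratSpan`. -/
def cycT [CharZero K] (W : Weil.{u, v, w} 𝒱 K) : W.RatTheory where
  C := W.ratSpan
  C_rat := fun Y q a ha => W.ratSpan_smul ha q
  C_even := by
    intro Y a ha
    refine AddSubmonoid.closure_induction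
      (motive := fun a _ => a ∈ ⨆ i : ℕ, W.grad Y (2 * i)) ?_ ?_ ?_ ha
    · rintro _ ⟨i, z, rfl⟩
      exact Submodule.mem_iSup_of_mem (p := fun i : ℕ => W.grad Y (2 * i)) i (W.cl_mem_grad z)
    · exact Submodule.zero_mem _
    · intro x y _ _ hx hy
      exact Submodule.add_mem _ hx hy
  C_cycles := fun Y i z => W.cl_mem_ratSpan z
  C_mul := fun Y a b ha hb => W.mul_mem_ratSpan ha hb
  C_pull := fun Y Z f a ha => W.pull_mem_ratSpan f ha
  C_push := fun Y Z f a ha => W.push_ratSpan f ha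

variable (T : W.RatTheory)

/-- The classes of cycles are in every theory.  Proof: `AddSubmonoid.closure_le`, `T.cl_mem`. -/
theorem ratSpan_le_T (Y : 𝒱.Obj) : W.ratSpan Y ≤ T.C Y := by
  refine (AddSubmonoid.closure_le).2 ?_
  rintro _ ⟨i, z, rfl⟩
  exact T.cl_mem Y i z

/-- Proof: `one_mem_ratSpan`. -/
theorem one_mem_T [CharZero K] (Y : 𝒱.Obj) : (1 : W.H Y) ∈ T.C Y :=
  ratSpan_le_T T Y (W.one_mem_ratSpan Y)

variable {T}

/-- Proof: `T.even` and `par_apply` (induction on the element of the supremum, `Submodule.iSup_induction`). -/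
theorem par_T {Y : 𝒱.Obj} {a : W.H Y} (ha : a ∈ T.C Y) : W.par Y a = a := by
  refine Submodule.iSup_induction (fun i : ℕ => W.grad Y (2 * i))
    (motive := fun a => W.par Y a = a) (T.even Y a ha) ?_ ?_ ?_
  · intro i x hx
    rw [W.par_apply hx, pow_mul]
    simp
  · exact map_zero _
  · intro x y hx hy
    rw [map_add, hx, hy]

/-- Proof: `par_T` and `W.even_central` (`2 ≠ 0`). -/
theorem central_T [CharZero K] {Y : 𝒱.Obj} {a : W.H Y} (ha : a ∈ T.C Y) (x : W.H Y) :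
    a * x = x * a := by
  have h := W.even_central a x
  rw [par_T ha, ← two_smul K a, smul_mul_assoc, mul_smul_comm] at h
  exact smul_right_injective _ (two_ne_zero' K) h

/-- Sums and differences.  `neg` from `smul_mem` with `q = -1`. -/
theorem sub_mem_T [CharZero K] {Y : 𝒱.Obj} {a b : W.H Y} (ha : a ∈ T.C Y) (hb : b ∈ T.C Y) :
    a - b ∈ T.C Y := by
  have h := T.smul_mem Y (-1) b hb
  rw [Rat.cast_neg, Rat.cast_one, neg_smul, one_smul] at h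
  rw [sub_eq_add_neg]
  exact add_mem ha h

/-- Multiples by signs. -/
theorem sign_smul_T [CharZero K] {Y : 𝒱.Obj} {a : W.H Y} (ha : a ∈ T.C Y) {ε : K}
    (hε : ε = 1 ∨ ε = -1) : ε • a ∈ T.C Y := by
  rcases hε with rfl | rfl
  · rwa [one_smul]
  · have h := T.smul_mem Y (-1) a ha
    rwa [Rat.cast_neg, Rat.cast_one] at h

variable (T)

/-- Maps given by classes of the theory. -/
def THom {Y Z : 𝒱.Obj} (φ : W.H Y →ₗ[K] W.H Z) : Prop := ∃ α ∈ T.C (Y.prod Z), W.act α = φ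

variable {T}

/-- The proof of `ratHom_iff`. -/
theorem tHom_iff {Y Z : 𝒱.Obj} {φ : W.H Y →ₗ[K] W.H Z} :
    THom T φ ↔ ∃ α ∈ T.C (Y.prod Z), ∀ v w,
      W.tr Z (φ v * w) = W.tr (Y.prod Z) (α * (W.p1 Y Z v * W.p2 Y Z w)) := by
  constructor
  · rintro ⟨α, hα, rfl⟩
    exact ⟨α, hα, W.tr_act α⟩
  · rintro ⟨α, hα, h⟩
    refine ⟨α, hα, ?_⟩
    ext v
    refine W.ext_tr fun w => ?_
    rw [W.tr_act, h]

/-- `tHom_iff` (the definitions agree up to unfolding `cross`, `p1`, `p2`). -/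
theorem isEnd_iff {X : 𝒱.Obj} {φ : W.H X →ₗ[K] W.H X} : T.IsEnd X φ ↔ THom T φ :=
  tHom_iff.symm

/-- Endomorphisms given by cycles with rational coefficients. -/
theorem THom.of_rat {X : 𝒱.Obj} {φ : W.H X →ₗ[K] W.H X} (h : W.IsRatEnd X φ) : THom T φ := by
  obtain ⟨α, hα, h⟩ := h
  exact tHom_iff.2 ⟨α, ratSpan_le_T T _ hα, h⟩

/-- The proof of `par_algHom` with `par_T`. -/
theorem THom.par_comm {Y Z : 𝒱.Obj} {φ : W.H Y →ₗ[K] W.H Z} (hφ : THom T φ) (v : W.H Y) :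
    φ (W.par Y v) = W.par Z (φ v) := by
  obtain ⟨α, hα, rfl⟩ := hφ
  refine W.ext_tr fun w => ?_
  have h1 : W.par _ (α * (W.p1 Y Z v * W.p2 Y Z (W.par Z w))) =
      α * (W.p1 Y Z (W.par Y v) * W.p2 Y Z w) := by
    rw [W.par_mul, W.par_mul, par_T hα, W.par_pull, W.par_pull, W.par_par]
  have h2 : W.par _ (W.act α v * W.par Z w) = W.par Z (W.act α v) * w := by
    rw [W.par_mul, W.par_par]
  rw [W.tr_act, ← h1, W.tr_par, ← W.tr_act, ← W.tr_par, h2]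

/-- The proof of `RatHom.apply_mem`. -/
theorem THom.apply_mem {Y Z : 𝒱.Obj} {φ : W.H Y →ₗ[K] W.H Z} (h : THom T φ) {a : W.H Y}
    (ha : a ∈ T.C Y) : φ a ∈ T.C Z := by
  obtain ⟨α, hα, rfl⟩ := h
  obtain ⟨b, hb, h⟩ := T.push_mem (Obj.snd Y Z) _
    (T.mul_mem _ _ _ hα (T.pull_mem (Obj.fst Y Z) _ ha))
  have : W.act α a = b := by
    refine W.ext_tr fun w => ?_
    have h2 := h w
    unfold WeilData.deg WeilData.pb at h2
    rw [h2, W.tr_act, mul_assoc]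
  rwa [this]

/-- The proof of `RatHom.id`. -/
theorem THom.id [CharZero K] (Y : 𝒱.Obj) : THom T (LinearMap.id : W.H Y →ₗ[K] W.H Y) := by
  obtain ⟨δ, hδ, h⟩ := T.push_mem (diag Y) _ (one_mem_T T Y)
  rw [tHom_iff]
  refine ⟨δ, hδ, fun v w => ?_⟩
  have h2 := h (W.p1 Y Y v * W.p2 Y Y w)
  unfold WeilData.deg WeilData.pb at h2
  rw [h2, one_mul, map_mul (W.pull (diag Y)), W.pull_diag_p1, W.pull_diag_p2]
  rfl

/-- `act_add`. -/
theorem THom.add {Y Z : 𝒱.Obj} {φ ψ : W.H Y →ₗ[K] W.H Z} (hφ : THom T φ) (hψ : THom T ψ) :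
    THom T (φ + ψ) := by
  obtain ⟨α, hα, rfl⟩ := hφ
  obtain ⟨β, hβ, rfl⟩ := hψ
  exact ⟨α + β, add_mem hα hβ, W.act_add α β⟩

/-- `act_smul`. -/
theorem THom.smulQ {Y Z : 𝒱.Obj} {φ : W.H Y →ₗ[K] W.H Z} (hφ : THom T φ) (q : ℚ) :
    THom T ((q : K) • φ) := by
  obtain ⟨α, hα, rfl⟩ := hφ
  exact ⟨(q : K) • α, T.smul_mem _ q α hα, W.act_smul (q : K) α⟩

/-- The proof of `comp_mem_algHom` (file Corr.lean), with `T.pull_mem`, `T.mul_mem`, `T.push_mem` and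
`central_T`. -/
theorem THom.comp [CharZero K] {Y Z Z' : 𝒱.Obj} {φ : W.H Y →ₗ[K] W.H Z} {ψ : W.H Z →ₗ[K] W.H Z'}
    (hφ : THom T φ) (hψ : THom T ψ) : THom T (ψ ∘ₗ φ) := by
  obtain ⟨α, hα, rfl⟩ := hφ
  obtain ⟨β, hβ, rfl⟩ := hψ
  let P := Y.prod (Z.prod Z')
  let A : W.H P := W.pull (assocM Y Z Z' ≫ Obj.fst (Y.prod Z) Z') α
  let B : W.H P := W.p2 Y (Z.prod Z') β
  have hA : A ∈ T.C P := T.pull_mem _ _ hα
  have hB : B ∈ T.C P := T.pull_mem _ _ hβ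
  let f : P ⟶ Y.prod Z' := Obj.lift (Obj.fst Y (Z.prod Z')) (Obj.snd Y (Z.prod Z') ≫ Obj.snd Z Z')
  obtain ⟨γ, hγ, h⟩ := T.push_mem f _ (T.mul_mem _ _ _ hA hB)
  rw [tHom_iff]
  refine ⟨γ, hγ, fun v w => ?_⟩
  have h2 := h (W.p1 Y Z' v * W.p2 Y Z' w)
  unfold WeilData.deg WeilData.pb at h2
  rw [h2]
  have hf : W.pull f (W.p1 Y Z' v * W.p2 Y Z' w) =
      W.p1 Y (Z.prod Z') v * W.p2 Y (Z.prod Z') (W.p2 Z Z' w) := by
    simp only [map_mul, ← W.pull_comp, f, Obj.lift_fst, Obj.lift_snd]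
  have e : A * B * (W.p1 Y (Z.prod Z') v * W.p2 Y (Z.prod Z') (W.p2 Z Z' w)) =
      A * (W.p1 Y (Z.prod Z') v * W.p2 Y (Z.prod Z') (β * W.p2 Z Z' w)) := by
    rw [mul_assoc, map_mul, ← mul_assoc B, central_T hB, mul_assoc]
  rw [hf, e, W.tr_assoc_key, ← mul_assoc, ← central_T hβ, mul_assoc, ← W.tr_act]
  rfl

/-- The proof of `RatHom.extHom`, with `central_T`, `par_T`, `THom.par_comm`. -/
theorem THom.extHom [CharZero K] {Y Z Y' Z' : 𝒱.Obj} {φ : W.H Y →ₗ[K] W.H Z}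
    {ψ : W.H Y' →ₗ[K] W.H Z'} (hφ : THom T φ) (hψ : THom T ψ) : THom T (W.extHom φ ψ) := by
  have hψ' := hψ
  obtain ⟨α, hα, rfl⟩ := hφ
  obtain ⟨β, hβ, rfl⟩ := hψ
  have hA : W.pull (mid1 Y Y' Z Z') α ∈ T.C _ := T.pull_mem _ _ hα
  have hB : W.pull (mid2 Y Y' Z Z') β ∈ T.C _ := T.pull_mem _ _ hβ
  rw [tHom_iff]
  refine ⟨_, T.mul_mem _ _ _ hA hB, fun v w => ?_⟩
  refine W.kunneth_induction Y Y' (P := fun v => W.tr (Z.prod Z') (W.extHom (W.act α) (W.act β) v *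
    w) = W.tr _ (W.pull (mid1 Y Y' Z Z') α * W.pull (mid2 Y Y' Z Z') β *
      (W.p1 (Y.prod Y') (Z.prod Z') v * W.p2 (Y.prod Y') (Z.prod Z') w))) ?_ ?_ v
  · intro a b ha hb
    simp only [map_add, mul_add, add_mul] at ha hb ⊢
    rw [ha, hb]
  intro y y'
  refine W.kunneth_induction Z Z' (P := fun w => W.tr (Z.prod Z') (W.extHom (W.act α) (W.act β)
    (W.p1 Y Y' y * W.p2 Y Y' y') *
    w) = W.tr _ (W.pull (mid1 Y Y' Z Z') α * W.pull (mid2 Y Y' Z Z') β *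
      (W.p1 (Y.prod Y') (Z.prod Z') (W.p1 Y Y' y * W.p2 Y Y' y') *
        W.p2 (Y.prod Y') (Z.prod Z') w))) ?_ ?_ w
  · intro a b ha hb
    simp only [map_add, mul_add] at ha hb ⊢
    rw [ha, hb]
  intro z z'
  rw [W.extHom_apply]
  refine W.hom_induction (P := fun z => W.tr (Z.prod Z') (W.p1 Z Z' (W.act α y) *
    W.p2 Z Z' (W.act β y') * (W.p1 Z Z' z * W.p2 Z Z' z')) =
    W.tr _ (W.pull (mid1 Y Y' Z Z') α * W.pull (mid2 Y Y' Z Z') β *
      (W.p1 (Y.prod Y') (Z.prod Z') (W.p1 Y Y' y * W.p2 Y Y' y') *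
        W.p2 (Y.prod Y') (Z.prod Z') (W.p1 Z Z' z * W.p2 Z Z' z')))) (by simp) ?_ ?_ z
  · intro a b ha hb
    simp only [map_add, mul_add, add_mul] at ha hb ⊢
    rw [ha, hb]
  intro j z hz
  refine W.hom_induction (P := fun y' => W.tr (Z.prod Z') (W.p1 Z Z' (W.act α y) *
    W.p2 Z Z' (W.act β y') * (W.p1 Z Z' z * W.p2 Z Z' z')) =
    W.tr _ (W.pull (mid1 Y Y' Z Z') α * W.pull (mid2 Y Y' Z Z') β *
      (W.p1 (Y.prod Y') (Z.prod Z') (W.p1 Y Y' y * W.p2 Y Y' y') *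
        W.p2 (Y.prod Y') (Z.prod Z') (W.p1 Z Z' z * W.p2 Z Z' z')))) (by simp) ?_ ?_ y'
  · intro a b ha hb
    simp only [map_add, mul_add, add_mul] at ha hb ⊢
    rw [ha, hb]
  intro i y' hy'
  -- left hand side
  have hl : W.p2 Z Z' (W.act β y') * W.p1 Z Z' z =
      ((-1 : K) ^ (i * j)) • (W.p1 Z Z' z * W.p2 Z Z' (W.act β y')) := by
    refine W.supercomm ?_ ?_
    · rw [W.par_pull, ← THom.par_comm hψ', W.par_apply hy', map_smul, map_smul]
    · rw [W.par_pull, W.par_apply hz, map_smul]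
  have e1 : W.p1 Z Z' (W.act α y) * W.p2 Z Z' (W.act β y') * (W.p1 Z Z' z * W.p2 Z Z' z') =
      ((-1 : K) ^ (i * j)) • (W.p1 Z Z' (W.act α y * z) * W.p2 Z Z' (W.act β y' * z')) := by
    rw [map_mul, map_mul, mul_assoc, ← mul_assoc (W.p2 Z Z' (W.act β y')), hl,
      smul_mul_assoc, mul_smul_comm, mul_assoc, mul_assoc]
  have hr : W.p2 (Y.prod Y') (Z.prod Z') (W.p1 Z Z' z) *
      W.p1 (Y.prod Y') (Z.prod Z') (W.p2 Y Y' y') =
      ((-1 : K) ^ (i * j)) • (W.p1 (Y.prod Y') (Z.prod Z') (W.p2 Y Y' y') *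
        W.p2 (Y.prod Y') (Z.prod Z') (W.p1 Z Z' z)) :=
    W.mid_comm (by rw [W.par_pull, W.par_apply hy', map_smul])
      (by rw [W.par_pull, W.par_apply hz, map_smul])
  have hs : ((-1 : K) ^ (i * j)) * ((-1 : K) ^ (i * j)) = 1 := by
    rw [← mul_pow]; simp
  have hr' : W.p1 (Y.prod Y') (Z.prod Z') (W.p2 Y Y' y') *
        W.p2 (Y.prod Y') (Z.prod Z') (W.p1 Z Z' z) = ((-1 : K) ^ (i * j)) •
      (W.p2 (Y.prod Y') (Z.prod Z') (W.p1 Z Z' z) *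
      W.p1 (Y.prod Y') (Z.prod Z') (W.p2 Y Y' y')) := by
    rw [hr, smul_smul, hs, one_smul]
  have e2 : W.pull (mid1 Y Y' Z Z') α * W.pull (mid2 Y Y' Z Z') β *
      (W.p1 (Y.prod Y') (Z.prod Z') (W.p1 Y Y' y * W.p2 Y Y' y') *
        W.p2 (Y.prod Y') (Z.prod Z') (W.p1 Z Z' z * W.p2 Z Z' z')) =
      ((-1 : K) ^ (i * j)) • W.pull (midM Y Y' Z Z')
        (W.p1 (Y.prod Z) (Y'.prod Z') (α * (W.p1 Y Z y * W.p2 Y Z z)) *
          W.p2 (Y.prod Z) (Y'.prod Z') (β * (W.p1 Y' Z' y' * W.p2 Y' Z' z'))) := by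
    have a1 : W.pull (midM Y Y' Z Z') (W.p1 (Y.prod Z) (Y'.prod Z') α) =
        W.pull (mid1 Y Y' Z Z') α := by rw [← W.pull_comp, Obj.lift_fst]
    have a2 : W.pull (midM Y Y' Z Z') (W.p2 (Y.prod Z) (Y'.prod Z') β) =
        W.pull (mid2 Y Y' Z Z') β := by rw [← W.pull_comp, Obj.lift_snd]
    have a3 := W.pull_mid y y' z z'
    rw [map_mul] at a3
    have c1 : W.p1 (Y.prod Z) (Y'.prod Z') (W.p1 Y Z y * W.p2 Y Z z) *
        W.p2 (Y.prod Z) (Y'.prod Z') β =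
        W.p2 (Y.prod Z) (Y'.prod Z') β *
          W.p1 (Y.prod Z) (Y'.prod Z') (W.p1 Y Z y * W.p2 Y Z z) :=
      (central_T (T.pull_mem (Obj.snd (Y.prod Z) (Y'.prod Z')) _ hβ) _).symm
    have a4 : W.pull (midM Y Y' Z Z')
        (W.p1 (Y.prod Z) (Y'.prod Z') (α * (W.p1 Y Z y * W.p2 Y Z z)) *
          W.p2 (Y.prod Z) (Y'.prod Z') (β * (W.p1 Y' Z' y' * W.p2 Y' Z' z'))) =
        W.pull (mid1 Y Y' Z Z') α * (W.pull (mid2 Y Y' Z Z') β *
          (W.pull (midM Y Y' Z Z') (W.p1 (Y.prod Z) (Y'.prod Z') (W.p1 Y Z y * W.p2 Y Z z)) *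
          W.pull (midM Y Y' Z Z')
            (W.p2 (Y.prod Z) (Y'.prod Z') (W.p1 Y' Z' y' * W.p2 Y' Z' z')))) := by
      rw [map_mul (W.p1 (Y.prod Z) (Y'.prod Z')) α, map_mul (W.p2 (Y.prod Z) (Y'.prod Z')) β,
        mul_assoc (W.p1 (Y.prod Z) (Y'.prod Z') α),
        ← mul_assoc (W.p1 (Y.prod Z) (Y'.prod Z') (W.p1 Y Z y * W.p2 Y Z z)), c1,
        mul_assoc (W.p2 (Y.prod Z) (Y'.prod Z') β),
        map_mul (W.pull (midM Y Y' Z Z')) (W.p1 (Y.prod Z) (Y'.prod Z') α),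
        map_mul (W.pull (midM Y Y' Z Z')) (W.p2 (Y.prod Z) (Y'.prod Z') β),
        map_mul (W.pull (midM Y Y' Z Z')) (W.p1 (Y.prod Z) (Y'.prod Z') _), a1, a2]
    rw [a4, a3]
    simp only [map_mul]
    rw [mul_assoc (W.pull (mid1 Y Y' Z Z') α), ← mul_smul_comm, ← mul_smul_comm]
    congr 2
    simp only [mul_assoc]
    rw [← mul_assoc (W.p1 (Y.prod Y') (Z.prod Z') (W.p2 Y Y' y')), hr', smul_mul_assoc,
      mul_smul_comm]
    simp only [mul_assoc]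
  rw [e1, e2, map_smul, map_smul, W.tr_pull_mid, W.tr_prod, W.tr_prod, W.tr_act, W.tr_act]

/-- The proof of `RatHom.powMap`. -/
theorem THom.powMap [CharZero K] {X : 𝒱.Obj} {m : ℕ} {φ : Fin m → Module.End K (W.H X)}
    (h : ∀ s, THom T (Y := X) (Z := X) (φ s)) :
    THom T (Y := X.pow m) (Z := X.pow m) (W.powMap m φ) := by
  induction m with
  | zero => exact THom.id _
  | succ m ih =>
    exact THom.extHom (Y := X.pow m) (Z := X.pow m) (Y' := X) (Z' := X)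
      (ih fun s => h s.castSucc) (h (Fin.last m))

/-- An operator which is `(-1)^i` on `H^i(X)` is the parity operator. -/
theorem Th_eq_par {X : 𝒱.Obj} {φ : W.Hom X X}
    (h : ∀ (i : ℕ), ∀ x ∈ W.grad X i, W.ap φ x = ((-1 : K) ^ i) • x) : φ = W.par X := by
  ext v
  refine W.hom_induction (P := fun v => φ v = W.par X v) ?_ ?_ ?_ v
  · rw [map_zero, map_zero]
  · intro x y hx hy
    rw [map_add, map_add, hx, hy]
  · intro i x hx
    rw [W.par_apply hx]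
    exact h i x hx

/-- The rational parity operator.  Proof: the `φ` of `ParityRat` is `W.par X` (`par_apply`,
`hom_induction`); `THom.of_rat`. -/
theorem par_tHom {X : 𝒱.Obj} (h : W.ParityRat X) : THom T (W.par X) := by
  obtain ⟨φ, hφ, h⟩ := h
  have e : φ = W.par X := Th_eq_par h
  rw [← e]
  exact THom.of_rat hφ

/-- Proof: as `par_tHom`, `W.isAlgEnd_iff`, `ratSpan_le`. -/
theorem par_algHom_of_rat {X : 𝒱.Obj} (h : W.ParityRat X) : W.par X ∈ W.algHom X X := by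
  obtain ⟨φ, hφ, h⟩ := h
  have e : φ = W.par X := Th_eq_par h
  rw [← e]
  obtain ⟨α, hα, h'⟩ := hφ
  exact W.isAlgEnd_iff.1 ⟨α, W.ratSpan_le hα, h'⟩

end GTh
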