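import Pool.Agent.W_f569db_g.TwoT
import Pool.Agent.W_f569db_t2.Theta

set_option autoImplicit false

noncomputable section

namespace GTh

open AlgebraicGeometry CategoryTheory MonoidalCategory
open scoped TensorProduct DirectSum
open Pool.Agent.WeilH_h6 Pool.Agent.WeilH_h6.VarClass Pool.Agent.WeilH_h6.Weil H13F T2F

universe u v w

variable {k : Type u} [Field k] {𝒱 : VarClass k} {K : Type v} [Field K] {W : Weil.{u, v, w} 𝒱 K}

variable [CharZero K] {T : W.RatTheory} {X : 𝒱.Obj}

/-- The class of the product of the diagonals is in every theory.  Proof: the proof of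
`T2F.exists_theta` (file W_f569db_t2/Theta.lean) with `fB_end_T` for `THom.id`, `exists_uperm_T`,
`box_mem_T` (and `T2F.fB_box`, which holds for all classes). -/
theorem exists_theta_T (hp : THom T (W.par X)) (hpar : W.par X ∈ W.algHom X X) {N : ℕ} {S : Type}
    [Fintype S] (e : Fin N ≃ S ⊕ S) :
    ∃ Θ ∈ T.C (X.pow N), ∀ w : Fin N → W.H X, fB hpar N Θ (W.pureT w) =
      ∏ t : S, W.tr X (w (e.symm (Sum.inl t)) * w (e.symm (Sum.inr t))) := by
  classical
  obtain ⟨Y, hY, hY2⟩ := fB_end_T hp hpar (THom.id (T := T) X)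
  let f : S ≃ Fin (Fintype.card S) := Fintype.equivFin S
  let e' : Fin (Fintype.card S * 2) ≃ Fin N :=
    finProdFinEquiv.symm.trans ((sumTwo (Fintype.card S)).symm.trans
      ((Equiv.sumCongr f f).symm.trans e.symm))
  obtain ⟨U, -, hU2, hU4⟩ := exists_uperm_T hp hpar e'
  refine ⟨U (W.box fun _ : Fin (Fintype.card S) => Y), hU2 _ (box_mem_T fun _ => hY), fun w => ?_⟩
  rw [hU4]
  have h1 : (W.pureT fun s => w (e' s)) = W.pureT fun j =>
      (fun (k : Fin (Fintype.card S)) (i : Fin 2) => w (e' (finProdFinEquiv (k, i))))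
        (finProdFinEquiv.symm j).1 (finProdFinEquiv.symm j).2 := by
    congr 1
    funext j
    simp only [Prod.mk.eta, Equiv.apply_symm_apply]
  have h3 := fB_box hpar (fun _ : Fin (Fintype.card S) => Y)
    (fun (k : Fin (Fintype.card S)) (i : Fin 2) => w (e' (finProdFinEquiv (k, i))))
  rw [h1]
  refine h3.trans ?_
  rw [← Equiv.prod_comp f]
  refine Finset.prod_congr rfl fun t _ => ?_
  have e0 : e' (finProdFinEquiv (f t, 0)) = e.symm (Sum.inl t) := by
    simp [e', sumTwo]
  have e1 : e' (finProdFinEquiv (f t, 1)) = e.symm (Sum.inr t) := by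
    simp [e', sumTwo]
  have h2 : (fun i : Fin 2 => w (e' (finProdFinEquiv (f t, i)))) =
      ![w (e.symm (Sum.inl t)), w (e.symm (Sum.inr t))] := by
    funext i
    fin_cases i
    · exact congrArg w e0
    · exact congrArg w e1
  rw [h2, hY2]
  rfl

end GTh
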