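import Pool.Agent.W_f569db_g.UPermT
import Pool.Agent.W_f569db_h13.Two

set_option autoImplicit false

noncomputable section

namespace GTh

open AlgebraicGeometry CategoryTheory MonoidalCategory
open scoped TensorProduct DirectSum
open Pool.Agent.WeilH_h6 Pool.Agent.WeilH_h6.VarClass Pool.Agent.WeilH_h6.Weil H13F T2F

universe u v w

variable {k : Type u} [Field k] {𝒱 : VarClass k} {K : Type v} [Field K] {W : Weil.{u, v, w} 𝒱 K}

variable [CharZero K] {T : W.RatTheory} {X : 𝒱.Obj}

theorem TwoT_neg_one : (-1 : K) ≠ 1 := by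
  intro h
  have h4 : (2 : K) = 0 := by
    have : (1 : K) + 1 = 1 + (-1) := by rw [h]
    rw [one_add_one_eq_two] at this
    rw [this]; ring
  exact two_ne_zero h4

/-- The unsigned form and endomorphisms given by classes of the theory.  Proof: the proof of
`H13F.fB_end` (file W_f569db_h13/Two.lean) for the map `S`: `THom.comp` of `hS` and `hp` instead of
`comp_mem_algHom`, `THom.par_comm` instead of `par_algHom`; the class is `W.pull (pairq X) α`
(`T.pull_mem`). -/
theorem fB_end_T (hp : THom T (W.par X)) (hpar : W.par X ∈ W.algHom X X)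
    {S : W.H X →ₗ[K] W.H X} (hS : THom T S) :
    ∃ Y ∈ T.C (X.pow 2), ∀ v w, fB hpar 2 Y (W.pureT ![v, w]) = W.tr X (S v * w) := by
  classical
  obtain ⟨α, hα, hα'⟩ := tHom_iff.1 (THom.comp hp hS)
  refine ⟨W.pull (pairq X) α, T.pull_mem (pairq X) α hα, fun v w => ?_⟩
  have h1 : ∀ i j : Fin 2, fB hpar 2 (W.pull (pairq X) α)
      (W.pureT ![parPr W X i v, parPr W X j w]) = W.tr X (S (parPr W X i v) * parPr W X j w) := by
    intro i j
    have h2 := hα' (parPr W X i v) (parPr W X j w)
    rw [tr_eq_fB hpar α (par_parPr W i v) (par_parPr W j w), LinearMap.comp_apply,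
      par_parPr, map_smul, smul_mul_assoc, map_smul, smul_eq_mul] at h2
    have hTp : W.par X (S (parPr W X i v)) = ((-1 : K) ^ ((i : Fin 2) : ℕ)) • S (parPr W X i v) := by
      rw [← hS.par_comm, par_parPr, map_smul]
    by_cases hij : i = j
    · subst hij
      have h3 : ((-1 : K) ^ (((i : Fin 2) : ℕ) * ((i : Fin 2) : ℕ))) =
          (-1 : K) ^ ((i : Fin 2) : ℕ) := by
        fin_cases i <;> simp
      rw [h3] at h2
      exact (mul_left_cancel₀ (pow_ne_zero _ (neg_ne_zero.2 one_ne_zero)) h2).symm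
    · have h0 : W.tr X (S (parPr W X i v) * parPr W X j w) = 0 := by
        refine tr_mul_parity hTp (par_parPr W j w) ?_
        have h3 := TwoT_neg_one (K := K)
        fin_cases i <;> fin_cases j <;> simp_all
      rw [h0, mul_zero] at h2
      rw [h0]
      rcases mul_eq_zero.1 h2.symm with h | h
      · exact absurd h (pow_ne_zero _ (neg_ne_zero.2 one_ne_zero))
      · exact h
  have hv : v = ∑ i, parPr W X i v := (parPr_add W v).symm
  have hw : w = ∑ i, parPr W X i w := (parPr_add W w).symm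
  have h2 : W.pureT ![v, w] = ∑ i, ∑ j, W.pureT ![parPr W X i v, parPr W X j w] := by
    rw [pureT_two]
    simp only [pureT_two]
    have e1 : (![v, w] : Fin 2 → W.H X) 0 = v := rfl
    have e2 : (![v, w] : Fin 2 → W.H X) 1 = w := rfl
    rw [e1, e2]
    conv_lhs => rw [hv, hw, map_sum, map_sum, Finset.sum_mul_sum]
    rfl
  have h3 : W.tr X (S v * w) = ∑ i, ∑ j, W.tr X (S (parPr W X i v) * parPr W X j w) := by
    conv_lhs => rw [hv, hw, map_sum, Finset.sum_mul_sum, map_sum]
    refine Finset.sum_congr rfl fun i _ => ?_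
    rw [map_sum]
  rw [h2, h3, ← fBL_apply, map_sum]
  refine Finset.sum_congr rfl fun i _ => ?_
  rw [map_sum]
  refine Finset.sum_congr rfl fun j _ => ?_
  rw [fBL_apply, h1]

/-- The morphism `X × X → X^2`, inverse of `pairq`. -/
def pairInv (X : 𝒱.Obj) : X.prod X ⟶ X.pow 2 :=
  Obj.liftP 2 ![Obj.fst X X, Obj.snd X X]

/-- Proof: `Obj.pow_hom_ext`; the composition `pairq X ≫ pairInv X` has the components
`Obj.proj X 2 0`, `Obj.proj X 2 1` (`Obj.liftP_proj`, `Obj.lift_fst`, `Obj.lift_snd`). -/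
theorem pairq_pairInv (X : 𝒱.Obj) : pairq X ≫ pairInv X = 𝟙 (X.pow 2) := by
  refine Obj.pow_hom_ext fun s => ?_
  rw [Category.assoc, Category.id_comp]
  unfold pairInv
  rw [Obj.liftP_proj]
  unfold pairq
  fin_cases s
  · exact Obj.lift_fst _ _
  · exact Obj.lift_snd _ _

theorem TwoT_sum (A : W.H X →ₗ[K] W.H X) (v w : W.H X) :
    W.tr X (A v * w) = ∑ i, ∑ j, W.tr X (A (parPr W X i v) * parPr W X j w) := by
  have hv : v = ∑ i, parPr W X i v := (parPr_add W v).symm
  have hw : w = ∑ i, parPr W X i w := (parPr_add W w).symm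
  conv_lhs => rw [hv, hw, map_sum, Finset.sum_mul_sum, map_sum]
  refine Finset.sum_congr rfl fun i _ => ?_
  rw [map_sum]

/-- The converse of `fB_end_T`: if the class `Y` of the theory on `X^2` represents `Tr (S v · w)` for the
unsigned form, then `S` is given by a class of the theory.

Proof.  Put `α = W.pull (pairInv X) Y ∈ T.C (X.prod X)`, so `W.pull (pairq X) α = Y` (`pairq_pairInv`,
`W.pull_comp`, `W.pull_id`).  `S` commutes with the parity operator: for `v`, `w` of parities `i ≠ j`
(`v = parPr i v'`, `w = parPr j w'`) `Tr (S v · w) = fB Y ![v, w] = ± Tr (α · (p1 v · p2 w))` by `tr_eq_fB`,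
and this is `0` because `α` is even (`par_T`) and `p1 v · p2 w` is odd (`tr_par`, `par_mul`,
`par_pull`).  Let `A = W.act α`, an endomorphism with `THom T A`.  For `v`, `w` of the same parity `i`
(`parPr W X i v`, `parPr W X i w`) `Tr (A v · w) = Tr (α · (p1 v · p2 w)) = (-1)^(i * i) Tr (S v · w)
= (-1)^i Tr (S v · w) = Tr (S (par v) · w)`, and for different parities both sides are `0`.  Hence
`A = S ∘ par` (`ext_tr`, `parPr_add`), so `S = A ∘ par` (`par_par`) and `THom.comp hp`. -/
theorem end_of_fB_T (hp : THom T (W.par X)) (hpar : W.par X ∈ W.algHom X X)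
    {S : W.H X →ₗ[K] W.H X} {Y : W.H (X.pow 2)} (hY : Y ∈ T.C (X.pow 2))
    (h : ∀ v w, fB hpar 2 Y (W.pureT ![v, w]) = W.tr X (S v * w)) : THom T S := by
  classical
  obtain ⟨α, hα0⟩ : ∃ α : W.H (X.prod X), α = W.pull (pairInv X) Y := ⟨_, rfl⟩
  have hα : α ∈ T.C (X.prod X) := by
    rw [hα0]
    exact T.pull_mem (pairInv X) Y hY
  have hαY : W.pull (pairq X) α = Y := by
    rw [hα0, ← W.pull_comp, pairq_pairInv, W.pull_id]
  have hA : THom T (W.act α) := ⟨α, hα, rfl⟩
  -- the comparison
  have h1 : ∀ (i j : Fin 2) (v w : W.H X), W.tr X (W.act α (parPr W X i v) * parPr W X j w) =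
      (-1 : K) ^ (((i : Fin 2) : ℕ) * ((j : Fin 2) : ℕ)) *
        W.tr X (S (parPr W X i v) * parPr W X j w) := by
    intro i j v w
    rw [W.tr_act, tr_eq_fB hpar α (par_parPr W i v) (par_parPr W j w), hαY, h]
  have h2 : ∀ (i j : Fin 2) (v w : W.H X), i ≠ j →
      W.tr X (W.act α (parPr W X i v) * parPr W X j w) = 0 := by
    intro i j v w hij
    have hTp : W.par X (W.act α (parPr W X i v)) =
        ((-1 : K) ^ ((i : Fin 2) : ℕ)) • W.act α (parPr W X i v) := by
      rw [← hA.par_comm, par_parPr, map_smul]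
    refine tr_mul_parity hTp (par_parPr W j w) ?_
    have h3 := TwoT_neg_one (K := K)
    fin_cases i <;> fin_cases j <;> simp_all
  have h3 : ∀ (i j : Fin 2) (v w : W.H X), W.tr X (W.act α (parPr W X i v) * parPr W X j w) =
      W.tr X (S (W.par X (parPr W X i v)) * parPr W X j w) := by
    intro i j v w
    rw [par_parPr, map_smul, smul_mul_assoc, map_smul, smul_eq_mul]
    by_cases hij : i = j
    · subst hij
      have h4 : ((-1 : K) ^ (((i : Fin 2) : ℕ) * ((i : Fin 2) : ℕ))) =
          (-1 : K) ^ ((i : Fin 2) : ℕ) := by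
        fin_cases i <;> simp
      rw [h1, h4]
    · have h5 := h1 i j v w
      rw [h2 i j v w hij] at h5 ⊢
      rcases mul_eq_zero.1 h5.symm with h6 | h6
      · exact absurd h6 (pow_ne_zero _ (neg_ne_zero.2 one_ne_zero))
      · rw [h6, mul_zero]
  have hAS : W.act α = S ∘ₗ W.par X := by
    refine LinearMap.ext fun v => W.ext_tr fun w => ?_
    rw [TwoT_sum (W.act α) v w, TwoT_sum (S ∘ₗ W.par X) v w]
    refine Finset.sum_congr rfl fun i _ => Finset.sum_congr rfl fun j _ => ?_
    exact h3 i j v w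
  have hSA : S = W.act α ∘ₗ W.par X := by
    refine LinearMap.ext fun v => ?_
    rw [hAS, LinearMap.comp_apply, LinearMap.comp_apply, W.par_par]
  rw [hSA]
  exact THom.comp hp hA

end GTh
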