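import Pool.Agent.W_f569db_g.Th
import Pool.Agent.W_f569db_h13.UPerm
import Pool.Agent.W_f569db_t2.Theta

set_option autoImplicit false

noncomputable section

namespace GTh

open AlgebraicGeometry CategoryTheory MonoidalCategory
open scoped TensorProduct DirectSum
open Pool.Agent.WeilH_h6 Pool.Agent.WeilH_h6.VarClass Pool.Agent.WeilH_h6.Weil H13F T2F

universe u v w

variable {k : Type u} [Field k] {𝒱 : VarClass k} {K : Type v} [Field K] {W : Weil.{u, v, w} 𝒱 K}

variable [CharZero K] {T : W.RatTheory} {X : 𝒱.Obj}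

/-- Proof: `parPr W X i = (1/2) • (id + (±1) • par)`: `THom.id`, `THom.add`, `THom.smulQ` (the scalars
`2⁻¹` and `(-1)^i` are casts of rational numbers). -/
theorem parPr_tHom (hp : THom T (W.par X)) (i : Fin 2) :
    THom T (Y := X) (Z := X) (parPr W X i) := by
  have h := ((THom.id (T := T) X).add (hp.smulQ ((-1 : ℚ) ^ (i : ℕ)))).smulQ (2⁻¹ : ℚ)
  have h1 : ((2⁻¹ : ℚ) : K) = (2 : K)⁻¹ := by
    rw [Rat.cast_inv, Rat.cast_ofNat]
  have h2 : (((-1 : ℚ) ^ (i : ℕ) : ℚ) : K) = (-1 : K) ^ (i : ℕ) := by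
    rw [Rat.cast_pow, Rat.cast_neg, Rat.cast_one]
  rw [h1, h2] at h
  exact h

/-- Unsigned permutations of the factors preserve the classes of the theory.

Proof: the proof of `H13F.exists_uperm` (file W_f569db_h13/UPerm.lean): `U = ∑ π, E π` with
`E π = ε π • (pull (sel e) ∘ powMap m (fun s => parPr W X (π s)))` and `ε π = ± 1`; for `a ∈ T.C` use
`THom.powMap`, `parPr_tHom`, `THom.apply_mem`, `T.pull_mem`, `sign_smul_T`, `sum_mem`.  The last property is
proved as in `T2F.exists_uperm_fB` (file W_f569db_t2/Theta.lean). -/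
theorem exists_uperm_T (hp : THom T (W.par X)) (hpar : W.par X ∈ W.algHom X X) {m M : ℕ}
    (e : Fin m ≃ Fin M) :
    ∃ U : W.H (X.pow m) →ₗ[K] W.H (X.pow M), (∀ v, U (W.pureT v) = W.pureT fun t => v (e.symm t)) ∧
      (∀ a ∈ T.C (X.pow m), U a ∈ T.C (X.pow M)) ∧
      ∀ a w, fB hpar M (U a) (W.pureT w) = fB hpar m a (W.pureT fun s => w (e s)) := by
  classical
  choose ε hε hU using fun π : Fin m → Fin 2 =>
    W.pull_sel_pureT (X := X) e (fun s => ((π s : Fin 2) : ℕ))
  have hεsq : ∀ π, ε π * ε π = 1 := by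
    intro π
    rcases hε π with h | h <;> rw [h] <;> ring
  let E : (Fin m → Fin 2) → (W.H (X.pow m) →ₗ[K] W.H (X.pow M)) := fun π =>
    ε π • ((W.pull (Obj.sel X e)).toLinearMap ∘ₗ W.powMap m fun s => parPr W X (π s))
  have hE1 : ∀ π v, E π (W.pureT v) = W.pureT fun t => parPr W X (π (e.symm t)) (v (e.symm t)) := by
    intro π v
    change ε π • W.pull (Obj.sel X e) (W.powMap m (fun s => parPr W X (π s)) (W.pureT v)) = _
    rw [W.powMap_pureT, hU π _ (fun s => par_parPr W (π s) (v s)), smul_smul, hεsq, one_smul]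
  have hE2 : ∀ π, ∀ a ∈ T.C (X.pow m), E π a ∈ T.C (X.pow M) := by
    intro π a ha
    change ε π • W.pull (Obj.sel X e) (W.powMap m (fun s => parPr W X (π s)) a) ∈ _
    refine sign_smul_T (T.pull_mem _ _ ?_) (hε π)
    exact (THom.powMap (T := T) fun s => parPr_tHom hp (π s)).apply_mem ha
  have hUv : ∀ v, (∑ π, E π) (W.pureT v) = W.pureT fun t => v (e.symm t) := by
    intro v
    rw [LinearMap.sum_apply]
    simp only [hE1]
    -- multilinear expansion
    have h1 : (fun t => v (e.symm t)) = fun t => ∑ i : Fin 2, parPr W X i (v (e.symm t)) := by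
      funext t
      rw [parPr_add]
    rw [← pureM_apply, h1, MultilinearMap.map_sum]
    refine Fintype.sum_equiv (Equiv.arrowCongr e (Equiv.refl (Fin 2))) _ _ fun π => ?_
    rw [pureM_apply]
    rfl
  refine ⟨∑ π, E π, hUv, fun a ha => ?_, fun a w => ?_⟩
  · rw [LinearMap.sum_apply]
    exact sum_mem fun π _ => hE2 π a ha
  · refine W.pure_induction (P := fun a => fB hpar M ((∑ π, E π) a) (W.pureT w) =
      fB hpar m a (W.pureT fun s => w (e s))) ?_ ?_ ?_ a
    · intro a b ha hb
      rw [map_add, fB_add_left, ha, hb, fB_add_left]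
    · intro c a ha
      rw [map_smul, fB_smul_left, ha, fB_smul_left]
    · intro v
      rw [hUv, fB_pureT, fB_pureT, ← Equiv.prod_comp e]
      refine Finset.prod_congr rfl fun s _ => ?_
      rw [Equiv.symm_apply_apply]

/-- Proof: `box2` is a product of pull-backs. -/
theorem box2_mem_T {m m' : ℕ} {a : W.H (X.pow m)} {b : W.H (X.pow m')} (ha : a ∈ T.C _)
    (hb : b ∈ T.C _) : W.box2 a b ∈ T.C _ := by
  exact T.mul_mem _ _ _ (T.pull_mem _ _ ha) (T.pull_mem _ _ hb)

/-- Products of lists of classes of the theory. -/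
theorem UPermT_list_prod_mem {Y : 𝒱.Obj} {l : List (W.H Y)} (h : ∀ x ∈ l, x ∈ T.C Y) :
    l.prod ∈ T.C Y := by
  induction l with
  | nil =>
    rw [List.prod_nil]
    exact one_mem_T T Y
  | cons a l ih =>
    rw [List.prod_cons]
    exact T.mul_mem _ _ _ (h a (by simp)) (ih fun x hx => h x (by simp [hx]))

/-- Proof: as `W.box_mem` (a product of a list of pull-backs; `one_mem_T` for the empty list). -/
theorem box_mem_T {N m : ℕ} {Z : Fin N → W.H (X.pow m)} (h : ∀ k, Z k ∈ T.C _) :
    W.box Z ∈ T.C _ := by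
  unfold Weil.box
  refine UPermT_list_prod_mem fun x hx => ?_
  obtain ⟨k, rfl⟩ := (List.mem_ofFn' _ _).1 hx
  exact T.pull_mem _ _ (h k)

/-- Pure tensors of classes of the theory (a product of a list of pull-backs). -/
theorem pureT_mem_T {m : ℕ} {v : Fin m → W.H X} (h : ∀ s, v s ∈ T.C X) :
    W.pureT v ∈ T.C (X.pow m) := by
  unfold Weil.pureT
  refine UPermT_list_prod_mem fun x hx => ?_
  obtain ⟨s, rfl⟩ := (List.mem_ofFn' _ _).1 hx
  exact T.pull_mem _ _ (h s)

/-- The projectors on `X^m` preserve the classes of the theory. -/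
theorem powPr_mem_T (hp : THom T (W.par X)) {m : ℕ} (π : Fin m → Fin 2) {a : W.H (X.pow m)}
    (ha : a ∈ T.C _) : W.powMap m (fun s => parPr W X (π s)) a ∈ T.C _ := by
  exact (THom.powMap (T := T) fun s => parPr_tHom hp (π s)).apply_mem ha

end GTh
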